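import Pool.Agent.GCA.Main

/-!
# The graph complement conjecture holds for almost all graphs

The proportion of the graphs `G` on `n` labelled vertices for which there are positive semidefinite
`A ∈ S(G)`, `B ∈ S(Gᶜ)` with `rank A + rank B ≤ n - √n` (so that `mr(G) + mr(Gᶜ) ≤ n - √n`) tends to `1`.
-/

open Filter Topology

namespace GCA.AlmostAllGraphs

/-- `A ∈ S(G)`: the real matrix `A` is symmetric and for `i ≠ j` its entry `A i j` is nonzero
exactly when `i` and `j` are adjacent; the diagonal is unrestricted -/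
def InS {n : ℕ} (G : SimpleGraph (Fin n)) (A : Matrix (Fin n) (Fin n) ℝ) : Prop :=
  A.IsSymm ∧ ∀ i j, i ≠ j → (A i j ≠ 0 ↔ G.Adj i j)

/-- the minimum rank of `G`: the least rank of a matrix in `S(G)` -/
noncomputable def mr {n : ℕ} (G : SimpleGraph (Fin n)) : ℕ :=
  sInf {r | ∃ A, InS G A ∧ A.rank = r}

lemma mr_le {n : ℕ} {G : SimpleGraph (Fin n)} {A : Matrix (Fin n) (Fin n) ℝ} (h : InS G A) :
    mr G ≤ A.rank := Nat.sInf_le ⟨A, h, rfl⟩

/-- `G` is good: there are positive semidefinite `A ∈ S(G)` and `B ∈ S(Gᶜ)` of rank at most `(n - √n) / 2` each -/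
def Good {n : ℕ} (G : SimpleGraph (Fin n)) : Prop :=
  ∃ A B : Matrix (Fin n) (Fin n) ℝ, InS G A ∧ InS Gᶜ B ∧ A.PosSemidef ∧ B.PosSemidef ∧
    (A.rank : ℝ) ≤ (n - √(n : ℝ)) / 2 ∧ (B.rank : ℝ) ≤ (n - √(n : ℝ)) / 2

lemma exists_of_pr {n : ℕ} {G : SimpleGraph (Fin n)}
    (h : ∃ d, MrGC.PR Gᶜ d ∧ 2 * (d : ℝ) + √(n : ℝ) ≤ n) :
    ∃ A : Matrix (Fin n) (Fin n) ℝ, InS G A ∧ A.PosSemidef ∧ (A.rank : ℝ) ≤ (n - √(n : ℝ)) / 2 := by
  obtain ⟨d, ⟨A, hA1, hA2, hA3⟩, hd⟩ := h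
  refine ⟨A, ⟨?_, ?_⟩, hA1, ?_⟩
  · have := hA1.isHermitian
    rwa [Matrix.IsHermitian, Matrix.conjTranspose_eq_transpose_of_trivial] at this
  · intro i j hij
    have h1 := hA2 i j hij
    rw [SimpleGraph.compl_adj] at h1
    tauto
  · have h1 : (A.rank : ℝ) ≤ d := by exact_mod_cast hA3
    linarith

lemma good_of {n : ℕ} {G : SimpleGraph (Fin n)}
    (h1 : ∃ d, MrGC.PR Gᶜ d ∧ 2 * (d : ℝ) + √(n : ℝ) ≤ n)
    (h2 : ∃ d, MrGC.PR Gᶜᶜ d ∧ 2 * (d : ℝ) + √(n : ℝ) ≤ n) : Good G := by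
  obtain ⟨A, hA1, hA2, hA3⟩ := exists_of_pr h1
  obtain ⟨B, hB1, hB2, hB3⟩ := exists_of_pr h2
  exact ⟨A, B, hA1, hB1, hA2, hB2, hA3, hB3⟩

open Classical in
/-- the number of graphs `G` with property `P` divided by the number of all graphs on `Fin n` -/
noncomputable def prop {n : ℕ} (P : SimpleGraph (Fin n) → Prop) : ℝ :=
  (Fintype.card {G : SimpleGraph (Fin n) // P G} : ℝ) / (Fintype.card (SimpleGraph (Fin n)) : ℝ)

lemma prop_compl {n : ℕ} (P : SimpleGraph (Fin n) → Prop) : prop (fun G => P Gᶜ) = prop P := by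
  classical
  unfold prop
  congr 2
  refine Fintype.card_congr ⟨fun G => ⟨G.1ᶜ, G.2⟩, fun G => ⟨G.1ᶜ, by show P G.1ᶜᶜ; rw [compl_compl]; exact G.2⟩, ?_, ?_⟩
  · intro G; simp
  · intro G; simp

lemma prop_and {n : ℕ} (P Q : SimpleGraph (Fin n) → Prop) :
    prop P + prop Q - 1 ≤ prop (fun G => P G ∧ Q G) := by
  classical
  unfold prop
  have h0 : (0 : ℝ) < Fintype.card (SimpleGraph (Fin n)) := by
    exact_mod_cast Fintype.card_pos
  have h1 : Fintype.card {G : SimpleGraph (Fin n) // P G} + Fintype.card {G : SimpleGraph (Fin n) // Q G} ≤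
      Fintype.card (SimpleGraph (Fin n)) + Fintype.card {G : SimpleGraph (Fin n) // P G ∧ Q G} := by
    simp only [Fintype.card_subtype]
    rw [Finset.filter_and, ← Finset.card_union_add_card_inter]
    gcongr
    exact Finset.card_le_univ _
  have h2 : (Fintype.card {G : SimpleGraph (Fin n) // P G} : ℝ) +
      Fintype.card {G : SimpleGraph (Fin n) // Q G} ≤
      Fintype.card (SimpleGraph (Fin n)) + Fintype.card {G : SimpleGraph (Fin n) // P G ∧ Q G} := by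
    exact_mod_cast h1
  rw [← add_div, div_sub_one h0.ne', div_le_div_iff_of_pos_right h0]
  simp only [← Nat.card_eq_fintype_card] at h2 ⊢
  linarith

lemma prop_mono {n : ℕ} {P Q : SimpleGraph (Fin n) → Prop} (h : ∀ G, P G → Q G) : prop P ≤ prop Q := by
  classical
  unfold prop
  gcongr
  exact Fintype.card_subtype_mono _ _ h

lemma prop_le_one {n : ℕ} (P : SimpleGraph (Fin n) → Prop) : prop P ≤ 1 := by
  classical
  unfold prop
  refine div_le_one_of_le₀ ?_ (by positivity)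
  exact_mod_cast Fintype.card_subtype_le _

/-- For almost all graphs `G` on `n` labelled vertices there are positive semidefinite matrices in `S(G)` and
`S(Gᶜ)` of rank at most `(n - √n) / 2` each; in particular `mr(G) + mr(Gᶜ) ≤ n - √n` for almost all graphs. -/
theorem result :
    Tendsto (fun n : ℕ => prop (fun G : SimpleGraph (Fin n) => Good G)) atTop (𝓝 1) ∧
    Tendsto (fun n : ℕ => prop (fun G : SimpleGraph (Fin n) => (mr G : ℝ) + mr Gᶜ ≤ n - √(n : ℝ)))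
      atTop (𝓝 1) := by
  have h0 := GCA.final
  have h1 : Tendsto (fun n : ℕ => 2 * prop (fun G : SimpleGraph (Fin n) =>
      ∃ d, MrGC.PR Gᶜ d ∧ 2 * (d : ℝ) + √(n : ℝ) ≤ n) - 1) atTop (𝓝 1) := by
    have h2 := (h0.const_mul 2).sub_const 1
    norm_num at h2
    exact h2
  have h3 : ∀ n : ℕ, 2 * prop (fun G : SimpleGraph (Fin n) =>
      ∃ d, MrGC.PR Gᶜ d ∧ 2 * (d : ℝ) + √(n : ℝ) ≤ n) - 1 ≤ prop (fun G : SimpleGraph (Fin n) => Good G) := by
    intro n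
    have h4 := prop_and (fun G : SimpleGraph (Fin n) => ∃ d, MrGC.PR Gᶜ d ∧ 2 * (d : ℝ) + √(n : ℝ) ≤ n)
      (fun G : SimpleGraph (Fin n) => ∃ d, MrGC.PR Gᶜᶜ d ∧ 2 * (d : ℝ) + √(n : ℝ) ≤ n)
    rw [prop_compl (fun G : SimpleGraph (Fin n) => ∃ d, MrGC.PR Gᶜ d ∧ 2 * (d : ℝ) + √(n : ℝ) ≤ n)] at h4
    have h5 := prop_mono (P := fun G : SimpleGraph (Fin n) =>
      (∃ d, MrGC.PR Gᶜ d ∧ 2 * (d : ℝ) + √(n : ℝ) ≤ n) ∧ ∃ d, MrGC.PR Gᶜᶜ d ∧ 2 * (d : ℝ) + √(n : ℝ) ≤ n)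
      (Q := fun G => Good G) (fun G h => good_of h.1 h.2)
    linarith
  have h6 : ∀ n : ℕ, prop (fun G : SimpleGraph (Fin n) => Good G) ≤
      prop (fun G : SimpleGraph (Fin n) => (mr G : ℝ) + mr Gᶜ ≤ n - √(n : ℝ)) := by
    intro n
    refine prop_mono (fun G hG => ?_)
    obtain ⟨A, B, hA, hB, -, -, hA', hB'⟩ := hG
    have h7 : (mr G : ℝ) ≤ A.rank := by exact_mod_cast mr_le hA
    have h8 : (mr Gᶜ : ℝ) ≤ B.rank := by exact_mod_cast mr_le hB
    linarith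
  have h9 : Tendsto (fun n : ℕ => prop (fun G : SimpleGraph (Fin n) => Good G)) atTop (𝓝 1) :=
    tendsto_of_tendsto_of_tendsto_of_le_of_le h1 tendsto_const_nhds h3 (fun n => prop_le_one _)
  exact ⟨h9, tendsto_of_tendsto_of_tendsto_of_le_of_le h9 tendsto_const_nhds h6 (fun n => prop_le_one _)⟩

end GCA.AlmostAllGraphs
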