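import Pool.Agent.GCA.Defs

/-!
# GCA-PrB: restriction of the bits to an injective family of coordinates; conditioning

* `pr_inj`: for an injective `φ : I → E`, the event `Q (ω ∘ φ)` has the same probability as `Q`.
  Plan: `card {ω : E → Bool | Q (ω ∘ φ)} = card {f : I → Bool | Q f} * 2 ^ (card E - card I)`.  Use an equivalence
  `(E → Bool) ≃ (I → Bool) × ({e // e ∉ Set.range φ} → Bool)` (e.g. `Equiv.piEquivPiSubtypeProd (· ∈ Set.range φ)`
  composed with `Equiv.ofInjective φ hφ` on the first factor), or count fibres: the fibre of `f` under `ω ↦ ω ∘ φ`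
  has `2 ^ (card E - card I)` elements.  Alternative: `Fintype.card_congr` + `Finset.card_product`.
* `pr_mrg`: conditioning on the bits in `D`.
  Plan: the map `(ω, ω') ↦ (mrg D ω ω', mrg D ω' ω)` is a bijection (an involution) of `(E → Bool) × (E → Bool)`, so
  `card {(ω, ω') | P (mrg D ω ω')} = card {P} * 2 ^ card E` (`Finset.card_bij`, or `Finset.sum_equiv`).  The left
  hand side is `∑ ω, card {ω' | P (mrg D ω ω')}`; bound the terms with `¬ G0 ω` by `2 ^ card E` and the others by
  `ε * 2 ^ card E`.
-/

open Finset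

namespace GCA

variable {E : Type*} [Fintype E] [DecidableEq E]

theorem pr_inj {I : Type*} [Fintype I] [DecidableEq I] (φ : I → E) (hφ : Function.Injective φ)
    (Q : (I → Bool) → Prop) : pr (fun ω : E → Bool => Q (fun i => ω (φ i))) = pr Q := by
  classical
  let B := {x : E // ¬ x ∈ Set.range φ} → Bool
  let e : (E → Bool) ≃ (I → Bool) × B :=
    (Equiv.piEquivPiSubtypeProd (fun x => x ∈ Set.range φ) (fun _ => Bool)).trans
      (Equiv.prodCongr ((Equiv.ofInjective φ hφ).symm.arrowCongr (Equiv.refl Bool)) (Equiv.refl B))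
  have he : ∀ ω : E → Bool, (e ω).1 = fun i => ω (φ i) := by
    intro ω
    rfl
  have h1 : (univ.filter fun ω : E → Bool => Q (fun i => ω (φ i))).card =
      ((univ.filter Q) ×ˢ (univ : Finset B)).card := by
    refine Finset.card_equiv e fun ω => ?_
    rw [mem_filter, mem_product, mem_filter, he]
    simp
  have h2 : Fintype.card (E → Bool) = Fintype.card (I → Bool) * Fintype.card B := by
    rw [← Fintype.card_prod]
    exact Fintype.card_congr e
  have hB : 0 < Fintype.card B := Fintype.card_pos
  have hB' : ((Fintype.card B : ℕ) : ℝ) ≠ 0 := by exact_mod_cast hB.ne'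
  have h3 : ((2 : ℝ) ^ Fintype.card E) = 2 ^ Fintype.card I * (Fintype.card B : ℝ) := by
    rw [Fintype.card_fun, Fintype.card_fun, Fintype.card_bool] at h2
    exact_mod_cast h2
  have h4 : ((univ.filter fun ω : E → Bool => Q (fun i => ω (φ i))).card : ℝ) =
      ((univ.filter Q).card : ℝ) * (Fintype.card B : ℝ) := by
    rw [h1, card_product, card_univ]
    push_cast
    rfl
  unfold pr
  rw [h3]
  have h5 : (((univ.filter fun ω : E → Bool => Q (fun i => ω (φ i))).card : ℕ) : ℝ) /
      (2 ^ Fintype.card I * (Fintype.card B : ℝ)) =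
      ((univ.filter Q).card : ℝ) / 2 ^ Fintype.card I := by
    rw [h4, mul_div_mul_right _ _ hB']
  exact h5

private theorem PrB_mrg_mrg (D : E → Bool) (ω ω' : E → Bool) :
    mrg D (mrg D ω ω') (mrg D ω' ω) = ω := by
  funext e
  unfold mrg
  by_cases h : D e = true
  · simp [h]
  · simp [h]

theorem pr_mrg (D : E → Bool) (P G0 : (E → Bool) → Prop) {ε : ℝ} (hε : 0 ≤ ε)
    (h : ∀ ω, G0 ω → pr (fun ω' => P (mrg D ω ω')) ≤ ε) : pr P ≤ pr (fun ω => ¬ G0 ω) + ε := by
  classical
  have hN : (0 : ℝ) < 2 ^ Fintype.card E := by positivity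
  have hcard : Fintype.card (E → Bool) = 2 ^ Fintype.card E := by
    rw [Fintype.card_fun, Fintype.card_bool]
  -- counting the pairs
  have h1 : (univ.filter fun x : (E → Bool) × (E → Bool) => P (mrg D x.1 x.2)).card =
      ((univ.filter P) ×ˢ (univ : Finset (E → Bool))).card := by
    let e : (E → Bool) × (E → Bool) ≃ (E → Bool) × (E → Bool) :=
      { toFun := fun x => (mrg D x.1 x.2, mrg D x.2 x.1)
        invFun := fun x => (mrg D x.1 x.2, mrg D x.2 x.1)
        left_inv := fun x => Prod.ext (PrB_mrg_mrg D x.1 x.2) (PrB_mrg_mrg D x.2 x.1)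
        right_inv := fun x => Prod.ext (PrB_mrg_mrg D x.1 x.2) (PrB_mrg_mrg D x.2 x.1) }
    refine Finset.card_equiv e fun x => ?_
    simp only [mem_filter, mem_univ, true_and, mem_product, and_true]
    exact Iff.rfl
  have h2 : (univ.filter fun x : (E → Bool) × (E → Bool) => P (mrg D x.1 x.2)).card =
      ∑ ω : E → Bool, (univ.filter fun ω' : E → Bool => P (mrg D ω ω')).card := by
    simp only [card_filter]
    rw [← univ_product_univ, sum_product]
  have h3 : ((univ.filter P).card : ℝ) * 2 ^ Fintype.card E =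
      ∑ ω : E → Bool, ((univ.filter fun ω' : E → Bool => P (mrg D ω ω')).card : ℝ) := by
    have h4 := h1.symm.trans h2
    rw [card_product, card_univ, hcard] at h4
    exact_mod_cast h4
  have h5 : ((univ.filter P).card : ℝ) =
      ∑ ω : E → Bool, pr (fun ω' => P (mrg D ω ω')) := by
    unfold pr
    rw [← sum_div, eq_div_iff hN.ne']
    have h6 : ∑ ω : E → Bool, (((@filter (E → Bool) (fun ω' => P (mrg D ω ω'))
        (fun a => Classical.propDecidable _) univ).card : ℕ) : ℝ) =
        ∑ ω : E → Bool, ((univ.filter fun ω' : E → Bool => P (mrg D ω ω')).card : ℝ) := by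
      refine sum_congr rfl fun ω _ => ?_
      rw [filter_congr_decidable]
    rw [h6, ← h3]
  have hle1 : ∀ ω : E → Bool, pr (fun ω' => P (mrg D ω ω')) ≤ 1 := by
    intro ω
    unfold pr
    rw [div_le_one hN]
    have := Finset.card_le_univ (@filter (E → Bool) (fun ω' => P (mrg D ω ω'))
      (fun a => Classical.propDecidable _) univ)
    rw [hcard] at this
    exact_mod_cast this
  have h7 : ((univ.filter P).card : ℝ) ≤
      ((univ.filter fun ω => ¬ G0 ω).card : ℝ) + ε * 2 ^ Fintype.card E := by
    rw [h5]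
    calc ∑ ω : E → Bool, pr (fun ω' => P (mrg D ω ω'))
        ≤ ∑ ω : E → Bool, ((if ¬ G0 ω then (1 : ℝ) else 0) + ε) := by
          refine sum_le_sum fun ω _ => ?_
          by_cases hω : G0 ω
          · rw [if_neg (not_not.2 hω), zero_add]
            exact h ω hω
          · rw [if_pos hω]
            linarith [hle1 ω]
      _ = _ := by
          rw [sum_add_distrib, sum_const, card_univ, hcard, ← Finset.sum_filter, sum_const,
            nsmul_eq_mul, mul_one, nsmul_eq_mul, mul_comm ε]
          push_cast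
          rfl
  have h8 : pr P = ((univ.filter P).card : ℝ) / 2 ^ Fintype.card E := by
    unfold pr
    rw [filter_congr_decidable]
  have h9 : pr (fun ω => ¬ G0 ω) =
      ((univ.filter fun ω => ¬ G0 ω).card : ℝ) / 2 ^ Fintype.card E := by
    unfold pr
    rw [filter_congr_decidable]
  rw [h8, h9, div_le_iff₀ hN, add_mul, div_mul_cancel₀ _ hN.ne']
  exact h7

end GCA
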