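import Pool.Agent.GCA.PrA
import Pool.Agent.GCA.PrB

/-!
# GCA-BadLPr: no two large sets without edges between them

Shrink `S` to exactly 11 elements.  Union bound over `S` (`≤ 2 ^ n` sets) and `T` (`≤ 2 ^ n` sets).  For disjoint
`S`, `T` with `S.card = 11` the pairs `s(u, v)` are pairwise different, so by `pr_inj` the probability that all bits
are `false` is `(1/2) ^ (11 * T.card)` (only one function `S × T → Bool` is good).  Total
`≤ 4 ^ n * (1/2) ^ (11 k)` with `k = T.card`, `n ≤ 5 k`: `4 ^ n ≤ 2 ^ (10 k)`, so `≤ (1/2) ^ k ≤ (1/2) ^ (n / 5)`.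
(Do the union bound over `S` and `T` with `pr_exists` twice; for each pair of sets the bound is
`(1/4) ^ n * (1/2) ^ (n / 5)`.)
-/

open Finset

namespace GCA

private theorem badL_allFalse {I : Type*} [Fintype I] [DecidableEq I] :
    pr (fun f : I → Bool => ∀ i, f i = false) = 1 / 2 ^ Fintype.card I := by
  unfold pr
  congr 1
  norm_cast
  rw [Finset.card_eq_one]
  refine ⟨fun _ => false, ?_⟩
  ext f
  simp only [mem_filter, mem_univ, true_and, mem_singleton]
  constructor
  · intro h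
    funext i
    exact h i
  · intro h i
    rw [h]

private theorem badL_pair {n : ℕ} (S T : Finset (Fin n)) (hd : Disjoint S T) :
    pr (fun ω : Sym2 (Fin n) → Bool => ∀ u ∈ S, ∀ v ∈ T, ω s(u, v) = false) ≤
      (1 / 2) ^ (S.card * T.card) := by
  classical
  let I : Type := {p : Fin n × Fin n // p ∈ S ×ˢ T}
  let φ : I → Sym2 (Fin n) := fun p => s(p.1.1, p.1.2)
  have hφ : Function.Injective φ := by
    rintro ⟨⟨a, b⟩, hab⟩ ⟨⟨c, d⟩, hcd⟩ h
    have h' : s(a, b) = s(c, d) := h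
    rw [Sym2.eq_iff] at h'
    rw [mem_product] at hab hcd
    rcases h' with ⟨h1, h2⟩ | ⟨h1, h2⟩
    · subst h1; subst h2; rfl
    · exfalso
      exact (Finset.disjoint_left.mp hd) hab.1 (h1 ▸ hcd.2)
  have h1 := pr_inj φ hφ (fun f : I → Bool => ∀ i, f i = false)
  rw [badL_allFalse] at h1
  have hc : Fintype.card I = S.card * T.card := by
    have : Fintype.card I = (S ×ˢ T).card := Fintype.card_coe _
    rw [this, card_product]
  rw [hc] at h1
  have h2 : pr (fun ω : Sym2 (Fin n) → Bool => ∀ u ∈ S, ∀ v ∈ T, ω s(u, v) = false) ≤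
      pr (fun ω : Sym2 (Fin n) → Bool => ∀ i : I, ω (φ i) = false) := by
    apply pr_mono
    rintro ω h ⟨⟨a, b⟩, hab⟩
    rw [mem_product] at hab
    exact h a hab.1 b hab.2
  refine h2.trans (le_of_eq ?_)
  rw [h1, one_div, one_div, inv_pow]

theorem badL_pr (n : ℕ) : pr (fun ω : Sym2 (Fin n) → Bool => BadL ω) ≤ (1 / 2) ^ (n / 5) := by
  classical
  have h1 : pr (fun ω : Sym2 (Fin n) → Bool => BadL ω) ≤
      pr (fun ω : Sym2 (Fin n) → Bool => ∃ p ∈ (univ : Finset (Finset (Fin n) × Finset (Fin n))),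
        (Disjoint p.1 p.2 ∧ p.1.card = 11 ∧ n ≤ 5 * p.2.card) ∧
          ∀ u ∈ p.1, ∀ v ∈ p.2, ω s(u, v) = false) := by
    apply pr_mono
    rintro ω ⟨S, T, hd, hS, hT, h⟩
    obtain ⟨S', hS', hc⟩ := Finset.exists_subset_card_eq hS
    exact ⟨(S', T), mem_univ _, ⟨Finset.disjoint_of_subset_left hS' hd, hc, hT⟩,
      fun u hu v hv => h u (hS' hu) v hv⟩
  refine h1.trans ((pr_exists _ _).trans ?_)
  have h2 : ∀ p ∈ (univ : Finset (Finset (Fin n) × Finset (Fin n))),
      pr (fun ω : Sym2 (Fin n) → Bool => (Disjoint p.1 p.2 ∧ p.1.card = 11 ∧ n ≤ 5 * p.2.card) ∧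
          ∀ u ∈ p.1, ∀ v ∈ p.2, ω s(u, v) = false) ≤ (1 / 2) ^ (2 * n + n / 5) := by
    intro p _
    by_cases hp : Disjoint p.1 p.2 ∧ p.1.card = 11 ∧ n ≤ 5 * p.2.card
    · refine (pr_mono (fun ω h => h.2)).trans ((badL_pair p.1 p.2 hp.1).trans ?_)
      apply pow_le_pow_of_le_one (by norm_num) (by norm_num)
      rw [hp.2.1]
      omega
    · refine (pr_mono (Q := fun _ => False) (fun ω h => hp h.1)).trans ?_
      rw [pr_false]
      positivity
  refine (Finset.sum_le_sum h2).trans (le_of_eq ?_)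
  rw [Finset.sum_const, card_univ, Fintype.card_prod, Fintype.card_finset, Fintype.card_fin,
    nsmul_eq_mul, pow_add, pow_mul]
  push_cast
  rw [← mul_assoc, ← mul_pow, ← mul_pow]
  norm_num

end GCA
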