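import Pool.Agent.GCA.PrB

/-!
# GCA-BadPB: transport of the two matrix estimates to the blocks of vertices

`badP_pr`: the pairs `s(u, v)`, `u ∈ H = two A i`, `v ∈ K = two A j` are different for different `(u, v)` because `H`
and `K` are disjoint; apply `pr_inj` with `I = ↥H × ↥K`, `φ (u, v) = s(u.1, v.1)` (injective: `Sym2.eq_iff`) and the
hypothesis `h` with `R = ↥H`, `C = ↥K`; rewrite the event `BadP q A ω i j` with `Finset.card_subtype`-style
lemmas (`(H.filter p).card = (univ.filter (fun u : ↥H => p u.1)).card`, e.g. `Finset.card_bij` or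
`Finset.subtype`/`Finset.card_attach`).
`badB_pr`: the same for `A (2 i)`, `A (2 i + 1)` and the existence of two subsets (translate `S ⊆ A (2 i)` to
`S.subtype _ : Finset ↥(A (2 i))`; here `pr_mono` in one direction is enough).
-/

open Finset

namespace GCA

private lemma bpb_card_sub {α : Type*} [DecidableEq α] (H : Finset α) (p : α → Prop)
    [DecidablePred p] : (univ.filter (fun u : ↥H => p u.1)).card = (H.filter p).card := by
  rw [← Finset.card_map (Function.Embedding.subtype (fun x => x ∈ H))]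
  congr 1
  ext x
  simp only [mem_map, mem_filter, mem_univ, true_and, Function.Embedding.coe_subtype]
  constructor
  · rintro ⟨y, hy, rfl⟩
    exact ⟨y.2, hy⟩
  · rintro ⟨hx, hp⟩
    exact ⟨⟨x, hx⟩, hp, rfl⟩

private lemma bpb_inj {n : ℕ} {H K : Finset (Fin n)} (hd : Disjoint H K) :
    Function.Injective (fun p : ↥H × ↥K => s(p.1.1, p.2.1)) := by
  rintro ⟨u, v⟩ ⟨u', v'⟩ h
  rcases Sym2.eq_iff.mp h with ⟨h1, h2⟩ | ⟨h1, h2⟩
  · exact Prod.ext (Subtype.ext h1) (Subtype.ext h2)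
  · exfalso
    have h3 : u.1 ∈ K := by
      have : u.1 = v'.1 := h1
      rw [this]
      exact v'.2
    exact Finset.disjoint_left.mp hd u.2 h3

private lemma bpb_iff {n : ℕ} (H K : Finset (Fin n)) (ω : Sym2 (Fin n) → Bool) (a b : ℕ) :
    (a ≤ (H.filter (fun u => b ≤ (((K.filter (fun v => b ≤
      (H.filter (fun u' => ω s(u', v) = false)).card)).filter
        (fun v => ω s(u, v) = false)).card))).card) ↔
    (a ≤ (univ.filter (fun u : ↥H => b ≤ ((univ.filter (fun v : ↥K => b ≤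
      (univ.filter (fun u' : ↥H => ω s(u'.1, v.1) = false)).card)).filter
        (fun v => ω s(u.1, v.1) = false)).card)).card) := by
  have e1 : ∀ v : Fin n, (univ.filter (fun u' : ↥H => ω s(u'.1, v) = false)).card =
      (H.filter (fun u' => ω s(u', v) = false)).card :=
    fun v => bpb_card_sub H (fun u' => ω s(u', v) = false)
  simp only [e1]
  have e2 : ∀ u : Fin n, ((univ.filter (fun v : ↥K => b ≤
      (H.filter (fun u' => ω s(u', v.1) = false)).card)).filter
        (fun v => ω s(u, v.1) = false)).card =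
      ((K.filter (fun v => b ≤ (H.filter (fun u' => ω s(u', v) = false)).card)).filter
        (fun v => ω s(u, v) = false)).card := by
    intro u
    rw [filter_filter, filter_filter]
    exact bpb_card_sub K (fun v => b ≤ (H.filter (fun u' => ω s(u', v) = false)).card ∧
      ω s(u, v) = false)
  simp only [e2]
  rw [bpb_card_sub H (fun u => b ≤ ((K.filter (fun v => b ≤
    (H.filter (fun u' => ω s(u', v) = false)).card)).filter (fun v => ω s(u, v) = false)).card)]

private lemma bpb_iffB {n : ℕ} (H K : Finset (Fin n)) (ω : Sym2 (Fin n) → Bool) (b : ℕ) :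
    (∃ S ⊆ H, ∃ T ⊆ K, S.Nonempty ∧ T.Nonempty ∧ b ≤ S.card + T.card ∧
      ∀ u ∈ S, ∀ v ∈ T, ω s(u, v) = false) ↔
    (∃ S : Finset ↥H, ∃ T : Finset ↥K, S.Nonempty ∧ T.Nonempty ∧ b ≤ S.card + T.card ∧
      ∀ u ∈ S, ∀ v ∈ T, ω s(u.1, v.1) = false) := by
  constructor
  · rintro ⟨S, hS, T, hT, ⟨x, hx⟩, ⟨y, hy⟩, hc, h⟩
    refine ⟨univ.filter (fun u : ↥H => u.1 ∈ S), univ.filter (fun v : ↥K => v.1 ∈ T),
      ⟨⟨x, hS hx⟩, ?_⟩, ⟨⟨y, hT hy⟩, ?_⟩, ?_, ?_⟩
    · rw [mem_filter]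
      exact ⟨mem_univ _, hx⟩
    · rw [mem_filter]
      exact ⟨mem_univ _, hy⟩
    · rw [bpb_card_sub H (fun u => u ∈ S), bpb_card_sub K (fun v => v ∈ T)]
      have e1 : H.filter (fun u => u ∈ S) = S := by
        ext z
        rw [mem_filter]
        exact ⟨fun hz => hz.2, fun hz => ⟨hS hz, hz⟩⟩
      have e2 : K.filter (fun v => v ∈ T) = T := by
        ext z
        rw [mem_filter]
        exact ⟨fun hz => hz.2, fun hz => ⟨hT hz, hz⟩⟩
      rw [e1, e2]
      exact hc
    · intro u hu v hv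
      rw [mem_filter] at hu hv
      exact h u.1 hu.2 v.1 hv.2
  · rintro ⟨S, T, hS, hT, hc, h⟩
    refine ⟨S.map (Function.Embedding.subtype _), ?_, T.map (Function.Embedding.subtype _), ?_,
      hS.map, hT.map, ?_, ?_⟩
    · intro z hz
      rw [mem_map] at hz
      obtain ⟨w, _, rfl⟩ := hz
      exact w.2
    · intro z hz
      rw [mem_map] at hz
      obtain ⟨w, _, rfl⟩ := hz
      exact w.2
    · rw [card_map, card_map]
      exact hc
    · intro u hu v hv
      rw [mem_map] at hu hv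
      obtain ⟨u', hu', rfl⟩ := hu
      obtain ⟨v', hv', rfl⟩ := hv
      exact h u' hu' v' hv'

private lemma bpb_pr {n : ℕ} {H K : Finset (Fin n)} (hd : Disjoint H K)
    (Q : (↥H × ↥K → Bool) → Prop) (P : (Sym2 (Fin n) → Bool) → Prop)
    (hPQ : ∀ ω, P ω ↔ Q (fun p => ω s(p.1.1, p.2.1))) {ε : ℝ} (h : pr Q ≤ ε) : pr P ≤ ε := by
  have he : P = fun ω => Q (fun p => ω ((fun p : ↥H × ↥K => s(p.1.1, p.2.1)) p)) :=
    funext fun ω => propext (hPQ ω)
  rw [he]
  exact (pr_inj (fun p : ↥H × ↥K => s(p.1.1, p.2.1)) (bpb_inj hd) Q).le.trans h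

theorem badP_pr {n : ℕ} (q : ℕ) (A : ℕ → Finset (Fin n)) (i j : ℕ) (hd : Disjoint (two A i) (two A j))
    (h : pr (fun f : ↥(two A i) × ↥(two A j) → Bool => 32 * q ≤ (univ.filter (fun u : ↥(two A i) => 32 * q - 1 ≤
      ((univ.filter (fun v : ↥(two A j) => 32 * q - 1 ≤
        (univ.filter (fun u' : ↥(two A i) => f (u', v) = false)).card)).filter
          (fun v => f (u, v) = false)).card)).card) ≤ 2 * (1 / 2) ^ (52 * q)) :
    pr (fun ω : Sym2 (Fin n) → Bool => BadP q A ω i j) ≤ 2 * (1 / 2) ^ (52 * q) :=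
  bpb_pr hd _ _ (fun ω => bpb_iff (two A i) (two A j) ω (32 * q) (32 * q - 1)) h

theorem badB_pr {n : ℕ} (q : ℕ) (A : ℕ → Finset (Fin n)) (i : ℕ) (hd : Disjoint (A (2 * i)) (A (2 * i + 1)))
    (h : pr (fun f : ↥(A (2 * i)) × ↥(A (2 * i + 1)) → Bool => ∃ S : Finset ↥(A (2 * i)),
      ∃ T : Finset ↥(A (2 * i + 1)), S.Nonempty ∧ T.Nonempty ∧
      32 * q - 1 ≤ S.card + T.card ∧ ∀ u ∈ S, ∀ v ∈ T, f (u, v) = false) ≤ (1 / 2) ^ (14 * q)) :
    pr (fun ω : Sym2 (Fin n) → Bool => BadB q A ω i) ≤ (1 / 2) ^ (14 * q) :=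
  bpb_pr hd _ _ (fun ω => bpb_iffB (A (2 * i)) (A (2 * i + 1)) ω (32 * q - 1)) h

end GCA
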