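import Pool.Agent.GCA.PrA

/-!
# GCA-Beta: a column is bad with probability at most `51/100`

`card I = 64 q = 2 a`, `a = 32 q`.  The number of `f` with `#false = j` is `(2 a).choose j`; hence
`card {f | a - 1 ≤ #false} = ∑_{j = a-1}^{2a} (2a).choose j ≤ 2 ^ (2a) / 2 + 2 * (2a).choose a`
(symmetry `choose (2a) j = choose (2a) (2a - j)`: `∑_{j ≥ a+1} = ∑_{j ≤ a-1}`, so
`2 ∑_{j ≥ a+1} + choose (2a) a = 4 ^ a`, and add the terms `j = a`, `j = a - 1`, each at most
`Nat.centralBinom a`, `Nat.choose_le_centralBinom`).  Central binomial: `(2a+1) * (centralBinom a) ^ 2 ≤ 16 ^ a` by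
induction (`Nat.succ_mul_centralBinom_succ : (n+1) * centralBinom (n+1) = 2 * (2n+1) * centralBinom n`), so
`centralBinom a / 4 ^ a ≤ 1 / √(2a+1) ≤ 1/200` for `a ≥ 20000`.  So the probability is at most
`1/2 + 2 * (1/200) = 51/100`.
-/

open Finset

namespace GCA

private theorem central_sq (a : ℕ) : (2 * a + 1) * (Nat.centralBinom a) ^ 2 ≤ 16 ^ a := by
  induction a with
  | zero => simp
  | succ n ih =>
    have h := Nat.succ_mul_centralBinom_succ n
    have h1 : (n + 1) ^ 2 * ((2 * (n + 1) + 1) * (Nat.centralBinom (n + 1)) ^ 2) =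
        (2 * n + 3) * (4 * (2 * n + 1) ^ 2 * (Nat.centralBinom n) ^ 2) := by
      have : (n + 1) ^ 2 * ((2 * (n + 1) + 1) * (Nat.centralBinom (n + 1)) ^ 2) =
          (2 * n + 3) * ((n + 1) * Nat.centralBinom (n + 1)) ^ 2 := by ring
      rw [this, h]
      ring
    have h2 : (2 * n + 3) * (4 * (2 * n + 1) ^ 2 * (Nat.centralBinom n) ^ 2) =
        (4 * (2 * n + 3) * (2 * n + 1)) * ((2 * n + 1) * (Nat.centralBinom n) ^ 2) := by ring
    have h3 : (4 * (2 * n + 3) * (2 * n + 1)) * ((2 * n + 1) * (Nat.centralBinom n) ^ 2) ≤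
        (16 * (n + 1) ^ 2) * 16 ^ n := by
      refine Nat.mul_le_mul ?_ ih
      nlinarith
    have h4 : (n + 1) ^ 2 * ((2 * (n + 1) + 1) * (Nat.centralBinom (n + 1)) ^ 2) ≤
        (n + 1) ^ 2 * 16 ^ (n + 1) := by
      rw [h1, h2]
      refine h3.trans (le_of_eq ?_)
      ring
    exact Nat.le_of_mul_le_mul_left h4 (by positivity)

private theorem count_sets {I : Type} [Fintype I] [DecidableEq I] {a : ℕ} (ha : 1 ≤ a)
    (hI : Fintype.card I = 2 * a) :
    2 * ((univ : Finset (Finset I)).filter (fun s => a - 1 ≤ s.card)).card ≤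
      4 ^ a + 4 * Nat.centralBinom a := by
  classical
  set U : Finset (Finset I) := univ with hU
  have hcard : ∀ j, (U.filter (fun s => s.card = j)).card = (2 * a).choose j := by
    intro j
    have h1 : U.filter (fun s => s.card = j) = powersetCard j (univ : Finset I) := by
      ext s
      simp [hU, mem_powersetCard]
    rw [h1, card_powersetCard, card_univ, hI]
  have hUc : U.card = 4 ^ a := by
    rw [hU, card_univ, Fintype.card_finset, hI, pow_mul]
    norm_num
  have hle : (U.filter (fun s => s.card ≤ a - 1)).card = (U.filter (fun s => a + 1 ≤ s.card)).card := by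
    refine card_bij (fun s _ => sᶜ) ?_ ?_ ?_
    · intro s hs
      have h1 := (mem_filter.1 hs).2
      refine mem_filter.2 ⟨mem_univ _, ?_⟩
      rw [card_compl, hI]
      omega
    · intro s _ t _ h
      exact compl_injective h
    · intro t ht
      have h1 := (mem_filter.1 ht).2
      refine ⟨tᶜ, mem_filter.2 ⟨mem_univ _, ?_⟩, compl_compl t⟩
      rw [card_compl, hI]
      have h2 : t.card ≤ 2 * a := by rw [← hI]; exact card_le_univ t
      omega
  have hsum : U.card = (U.filter (fun s => s.card ≤ a - 1)).card +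
      (U.filter (fun s => s.card = a)).card + (U.filter (fun s => a + 1 ≤ s.card)).card := by
    rw [← card_union_of_disjoint, ← card_union_of_disjoint]
    · congr 1
      ext s
      simp only [mem_union, mem_filter]
      constructor
      · intro h
        rcases lt_trichotomy s.card a with h1 | h1 | h1
        · exact Or.inl (Or.inl ⟨h, by omega⟩)
        · exact Or.inl (Or.inr ⟨h, h1⟩)
        · exact Or.inr ⟨h, h1⟩
      · intro h
        exact mem_univ _
    · rw [disjoint_left]
      intro s h1 h2
      have h2' := (mem_filter.1 h2).2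
      rcases mem_union.1 h1 with h | h
      · have := (mem_filter.1 h).2
        omega
      · have := (mem_filter.1 h).2
        omega
    · rw [disjoint_left]
      intro s h1 h2
      have h2' := (mem_filter.1 h2).2
      have := (mem_filter.1 h1).2
      omega
  have hN : (U.filter (fun s => a - 1 ≤ s.card)).card ≤ (U.filter (fun s => s.card = a - 1)).card +
      (U.filter (fun s => s.card = a)).card + (U.filter (fun s => a + 1 ≤ s.card)).card := by
    refine (card_le_card (t := (U.filter (fun s => s.card = a - 1) ∪ U.filter (fun s => s.card = a)) ∪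
      U.filter (fun s => a + 1 ≤ s.card)) ?_).trans ?_
    · intro s hs
      have h1 := (mem_filter.1 hs).2
      simp only [mem_union, mem_filter]
      rcases lt_trichotomy s.card a with h2 | h2 | h2
      · exact Or.inl (Or.inl ⟨mem_univ _, by omega⟩)
      · exact Or.inl (Or.inr ⟨mem_univ _, h2⟩)
      · exact Or.inr ⟨mem_univ _, h2⟩
    · refine (card_union_le _ _).trans ?_
      have := card_union_le (U.filter (fun s => s.card = a - 1)) (U.filter (fun s => s.card = a))
      omega
  have hc1 : (U.filter (fun s => s.card = a - 1)).card ≤ Nat.centralBinom a := by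
    rw [hcard]
    exact Nat.choose_le_centralBinom _ _
  have hc2 : (U.filter (fun s => s.card = a)).card = Nat.centralBinom a := by
    rw [hcard, Nat.centralBinom_eq_two_mul_choose]
  omega

theorem beta : ∃ q0 : ℕ, ∀ q ≥ q0, ∀ (I : Type) [Fintype I] [DecidableEq I], Fintype.card I = 64 * q →
    pr (fun f : I → Bool => 32 * q - 1 ≤ (univ.filter (fun i => f i = false)).card) ≤ 51 / 100 := by
  classical
  refine ⟨1250, fun q hq I _ _ hI => ?_⟩
  have hI' : Fintype.card I = 2 * (32 * q) := by rw [hI]; ring
  set a := 32 * q with ha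
  have ha1 : 40000 ≤ a := by omega
  have h1 := count_sets (I := I) (a := a) (by omega) hI'
  have h2 : (univ.filter (fun f : I → Bool => a - 1 ≤ (univ.filter (fun i => f i = false)).card)).card ≤
      ((univ : Finset (Finset I)).filter (fun s => a - 1 ≤ s.card)).card := by
    refine card_le_card_of_injOn (fun f => univ.filter (fun i => f i = false)) ?_ ?_
    · intro f hf
      have h3 := (mem_filter.1 (mem_coe.1 hf)).2
      exact mem_coe.2 (mem_filter.2 ⟨mem_univ _, h3⟩)
    · intro f _ g _ h
      funext i
      have h3 : (i ∈ univ.filter (fun i => f i = false)) ↔ (i ∈ univ.filter (fun i => g i = false)) := by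
        rw [show univ.filter (fun i => f i = false) = univ.filter (fun i => g i = false) from h]
      simp only [mem_filter, mem_univ, true_and] at h3
      cases hf : f i <;> cases hg : g i <;> simp_all
  have h3 := central_sq a
  set C := Nat.centralBinom a with hC
  have h4 : (200 : ℝ) * C ≤ 4 ^ a := by
    have h5 : ((2 * a + 1 : ℕ) : ℝ) * (C : ℝ) ^ 2 ≤ 16 ^ a := by exact_mod_cast h3
    have h6 : (40000 : ℝ) ≤ ((2 * a + 1 : ℕ) : ℝ) := by exact_mod_cast (by omega : 40000 ≤ 2 * a + 1)
    have h7 : ((200 : ℝ) * C) ^ 2 ≤ ((4 : ℝ) ^ a) ^ 2 := by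
      have e1 : ((4 : ℝ) ^ a) ^ 2 = 16 ^ a := by
        rw [← pow_mul, mul_comm, pow_mul]
        norm_num
      rw [e1]
      have h8 : (0 : ℝ) ≤ (C : ℝ) ^ 2 := by positivity
      nlinarith
    exact le_of_sq_le_sq h7 (by positivity)
  unfold pr
  rw [hI', div_le_iff₀ (by positivity), pow_mul]
  have h9 : ((univ.filter (fun f : I → Bool => a - 1 ≤ (univ.filter (fun i => f i = false)).card)).card : ℝ) ≤
      (((univ : Finset (Finset I)).filter (fun s => a - 1 ≤ s.card)).card : ℝ) := by exact_mod_cast h2
  have h10 : (2 : ℝ) * (((univ : Finset (Finset I)).filter (fun s => a - 1 ≤ s.card)).card : ℝ) ≤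
      4 ^ a + 4 * C := by exact_mod_cast h1
  have h11 : ((2 : ℝ) ^ 2) ^ a = 4 ^ a := by norm_num
  rw [h11]
  have h12 : (univ.filter (fun f : I → Bool => a - 1 ≤ (univ.filter (fun i => f i = false)).card)) =
      @Finset.filter _ (fun f : I → Bool => a - 1 ≤ (univ.filter (fun i => f i = false)).card)
        (fun f => Classical.propDecidable _) univ := by
    ext f
    simp
  rw [← h12]
  linarith

end GCA
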