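import Pool.Agent.GCA.IftDefs

/-!
# GCA-IftC: a curve of representations with given tangent (implicit function theorem)

`inn Ω` has strict derivative `dF Ω X` at `X`; `HasStrictFDerivAt.implicitFunction`.
-/

open scoped RealInnerProductSpace Topology
open Finset Filter

namespace GCA

variable {n : ℕ} {F : Type*} [NormedAddCommGroup F] [InnerProductSpace ℝ F] [FiniteDimensional ℝ F]

omit [FiniteDimensional ℝ F] in
theorem inn_hasStrictFDerivAt (Ω : SimpleGraph (Fin n)) (X : Fin n → F) :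
    HasStrictFDerivAt (inn (F := F) Ω) (dF Ω X) X := by
  rw [hasStrictFDerivAt_pi']
  intro p
  have h1 : HasStrictFDerivAt (fun Y : Fin n → F => Y p.1.1)
      (ContinuousLinearMap.proj (R := ℝ) p.1.1) X :=
    (ContinuousLinearMap.proj (R := ℝ) (φ := fun _ : Fin n => F) p.1.1).hasStrictFDerivAt
  have h2 : HasStrictFDerivAt (fun Y : Fin n → F => Y p.1.2)
      (ContinuousLinearMap.proj (R := ℝ) p.1.2) X :=
    (ContinuousLinearMap.proj (R := ℝ) (φ := fun _ : Fin n => F) p.1.2).hasStrictFDerivAt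
  have h3 := (isBoundedBilinearMap_inner (𝕜 := ℝ) (E := F)).hasStrictFDerivAt (X p.1.1, X p.1.2)
  have h4 := h3.comp X (h1.prodMk h2)
  have h5 : (ContinuousLinearMap.proj p).comp (dF Ω X) =
      (((isBoundedBilinearMap_inner (𝕜 := ℝ) (E := F)).deriv (X p.1.1, X p.1.2)).comp
        ((ContinuousLinearMap.proj (R := ℝ) (φ := fun _ : Fin n => F) p.1.1).prod
          (ContinuousLinearMap.proj (R := ℝ) (φ := fun _ : Fin n => F) p.1.2))) := by
    ext δ
    show dF Ω X δ p = _
    rw [dF_apply]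
    simp [add_comm]
  rw [h5]
  exact h4

theorem curve (Ω : SimpleGraph (Fin n)) (X : Fin n → F) (hOR : MrGC.OR Ω univ X)
    (hs : LinearMap.range (dF Ω X : (Fin n → F) →ₗ[ℝ] (Tp Ω → ℝ)) = ⊤) (δ : Fin n → F) (hδ : dF Ω X δ = 0) :
    ∃ Y : ℝ → Fin n → F, Y 0 = X ∧ HasDerivAt Y δ 0 ∧ ∀ᶠ t in 𝓝 (0 : ℝ), MrGC.OR Ω univ (Y t) := by
  classical
  have hc : CompleteSpace F := FiniteDimensional.complete ℝ F
  have hfin : Fintype (Tp Ω) := Fintype.ofFinite _
  have hf := inn_hasStrictFDerivAt Ω X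
  have hX : inn Ω X = 0 := by
    funext p
    exact hOR _ (mem_univ _) _ (mem_univ _) p.2.2
  let δ' : (dF Ω X).ker := ⟨δ, hδ⟩
  let Y : ℝ → Fin n → F := fun t => hf.implicitFunction _ _ hs (inn Ω X) (t • δ')
  have h0 : Tendsto (fun t : ℝ => t • δ') (𝓝 0) (𝓝 0) := by
    have : Continuous (fun t : ℝ => t • δ') := by fun_prop
    have h := this.tendsto 0
    simpa using h
  refine ⟨Y, ?_, ?_, ?_⟩
  · show hf.implicitFunction _ _ hs (inn Ω X) ((0 : ℝ) • δ') = X
    rw [zero_smul]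
    exact hf.implicitFunction_apply_image hs
  · have h1 := (hf.to_implicitFunction hs).hasFDerivAt
    have h2 : HasDerivAt (fun t : ℝ => t • δ') δ' 0 := by
      simpa using (hasDerivAt_id (0 : ℝ)).smul_const δ'
    have h3 : HasFDerivAt (hf.implicitFunction _ _ hs (inn Ω X)) (dF Ω X).ker.subtypeL ((0 : ℝ) • δ') := by
      rw [zero_smul]; exact h1
    exact h3.comp_hasDerivAt (0 : ℝ) h2
  · have h1 := hf.map_implicitFunction_eq hs
    have h2 : Tendsto (fun t : ℝ => (inn Ω X, t • δ')) (𝓝 0) (𝓝 (inn Ω X, 0)) :=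
      tendsto_const_nhds.prodMk_nhds h0
    filter_upwards [h2.eventually h1] with t ht
    have h3 : inn Ω (Y t) = 0 := ht.trans hX
    intro u _ v _ huv
    rcases lt_trichotomy u v with h | h | h
    · exact congrFun h3 ⟨(u, v), h, huv⟩
    · subst h
      exact absurd huv Ω.irrefl
    · rw [real_inner_comm]
      exact congrFun h3 ⟨(v, u), h, huv.symm⟩

end GCA
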