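import Pool.Agent.GCA.IftA
import Pool.Agent.GCA.IftC

/-!
# GCA-IftD: from a stress-free representation to a faithful one

Let `B` be the finite set of pairs `(u, v)` with `u ≠ v`, `¬ Ω.Adj u v`, `⟪X u, X v⟫ = 0`.  If `B` is empty, `X` is
faithful.  Otherwise `surj` holds (for some pair of `B`), and for every pair of `B` the subspace
`W = {δ | ⟪δ u, X v⟫ + ⟪X u, δ v⟫ = 0}` does not contain `ker (dF Ω X)` (`exists_dir`).  A vector space over `ℝ` is not a
finite union of proper subspaces (`Subspace.top_mem_of_biUnion_eq_univ`, compare `MrGC.exists_avoid` in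
`Helper48/MrBasic.lean`), so there is `δ ∈ ker (dF Ω X)` outside of all `W`.  Take the curve `Y` of `curve`.  For a pair
of `B`, `t ↦ ⟪Y t u, Y t v⟫` has value `0` and derivative `⟪δ u, X v⟫ + ⟪X u, δ v⟫ ≠ 0` at `0`
(`HasDerivAt.inner`, `hasDerivAt_pi`), so it is nonzero for small `t ≠ 0` (`HasDerivAt.eventually_ne`); for a pair with
`⟪X u, X v⟫ ≠ 0` it is nonzero near `0` by continuity.  Intersect the finitely many eventualities in `𝓝[≠] 0`
(nontrivial filter) and choose `t`.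
-/

open scoped RealInnerProductSpace Topology
open Finset Filter

namespace GCA

variable {n : ℕ} {F : Type*} [NormedAddCommGroup F] [InnerProductSpace ℝ F] [FiniteDimensional ℝ F]

omit [FiniteDimensional ℝ F] in
private lemma iftD_avoid {M ι : Type*} [AddCommGroup M] [Module ℝ M] (s : Finset ι)
    (U : Submodule ℝ M) (W : ι → Submodule ℝ M)
    (h : ∀ i ∈ s, ¬ U ≤ W i) : ∃ u ∈ U, ∀ i ∈ s, u ∉ W i := by
  classical
  by_contra hcon
  push Not at hcon
  let p : ι → Submodule ℝ U := fun i => (W i).comap U.subtype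
  have hcov : ⋃ q ∈ s.image p, (q : Set U) = Set.univ := by
    ext ⟨u, hu⟩
    simp only [Set.mem_iUnion, Finset.mem_image, Set.mem_univ, iff_true]
    obtain ⟨i, hi, hui⟩ := hcon u hu
    exact ⟨p i, ⟨i, hi, rfl⟩, by simpa [p] using hui⟩
  have := Subspace.top_mem_of_biUnion_eq_univ hcov
  rw [Finset.mem_image] at this
  obtain ⟨i, hi, hpi⟩ := this
  apply h i hi
  intro u hu
  have : (⟨u, hu⟩ : U) ∈ p i := by rw [hpi]; trivial
  simpa [p] using this

/-- the derivative of the inner product at the pair `(u, v)` -/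
private noncomputable def iftD_K (X : Fin n → F) (p : Fin n × Fin n) : (Fin n → F) →ₗ[ℝ] ℝ :=
  (innerSL ℝ (X p.2)).toLinearMap ∘ₗ LinearMap.proj p.1 +
    (innerSL ℝ (X p.1)).toLinearMap ∘ₗ LinearMap.proj p.2

omit [FiniteDimensional ℝ F] in
private lemma iftD_K_apply (X δ : Fin n → F) (p : Fin n × Fin n) :
    iftD_K X p δ = ⟪δ p.1, X p.2⟫ + ⟪X p.1, δ p.2⟫ := by
  rw [real_inner_comm (X p.2)]
  rfl

theorem faithful_of_stressFree (Ω : SimpleGraph (Fin n)) (X : Fin n → F) (hOR : MrGC.OR Ω univ X)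
    (hst : ∀ u0 v0, u0 ≠ v0 → ¬ Ω.Adj u0 v0 → ⟪X u0, X v0⟫ = 0 → StressFree Ω X u0 v0) :
    ∃ Y : Fin n → F, MrGC.OR Ω univ Y ∧ MrGC.Faith Ω univ Y := by
  classical
  let B : Finset (Fin n × Fin n) :=
    univ.filter (fun p => p.1 ≠ p.2 ∧ ¬ Ω.Adj p.1 p.2 ∧ ⟪X p.1, X p.2⟫ = 0)
  rcases B.eq_empty_or_nonempty with hB | ⟨p0, hp0⟩
  · refine ⟨X, hOR, ?_⟩
    intro u _ v _ huv hadj h
    have : (u, v) ∈ B := mem_filter.2 ⟨mem_univ _, huv, hadj, h⟩
    rw [hB] at this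
    exact absurd this (notMem_empty _)
  · obtain ⟨_, h1, h2, h3⟩ := mem_filter.1 hp0
    have hs := surj Ω X p0.1 p0.2 (hst _ _ h1 h2 h3)
    obtain ⟨δ, hδ, hδB⟩ := iftD_avoid B (LinearMap.ker (dF Ω X : (Fin n → F) →ₗ[ℝ] (Tp Ω → ℝ)))
      (fun p => LinearMap.ker (iftD_K X p)) (by
        intro p hp hle
        obtain ⟨_, g1, g2, g3⟩ := mem_filter.1 hp
        obtain ⟨δ, hδ1, hδ2⟩ := exists_dir Ω X p.1 p.2 g1 g2 (hst _ _ g1 g2 g3)
        have h4 : δ ∈ LinearMap.ker (iftD_K X p) := hle (LinearMap.mem_ker.2 hδ1)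
        rw [LinearMap.mem_ker, iftD_K_apply] at h4
        exact hδ2 h4)
    have hδ0 : dF Ω X δ = 0 := LinearMap.mem_ker.1 hδ
    obtain ⟨Y, hY0, hYd, hYO⟩ := curve Ω X hOR hs δ hδ0
    have hYp : ∀ u, HasDerivAt (fun t => Y t u) (δ u) 0 := fun u => (hasDerivAt_pi.1 hYd) u
    have key : ∀ p : Fin n × Fin n, ∀ᶠ t in 𝓝[≠] (0 : ℝ),
        p.1 ≠ p.2 → ¬ Ω.Adj p.1 p.2 → ⟪Y t p.1, Y t p.2⟫ ≠ 0 := by
      intro p
      have hd : HasDerivAt (fun t => ⟪Y t p.1, Y t p.2⟫)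
          (⟪Y 0 p.1, δ p.2⟫ + ⟪δ p.1, Y 0 p.2⟫) 0 := HasDerivAt.inner ℝ (hYp p.1) (hYp p.2)
      by_cases hp : p ∈ B
      · have h4 := hδB p hp
        rw [LinearMap.mem_ker, iftD_K_apply] at h4
        rw [hY0, add_comm] at hd
        filter_upwards [hd.eventually_ne h4 (c := 0)] with t ht _ _
        exact ht
      · by_cases h5 : p.1 ≠ p.2 ∧ ¬ Ω.Adj p.1 p.2
        · have h6 : ⟪X p.1, X p.2⟫ ≠ 0 := fun h => hp (mem_filter.2 ⟨mem_univ _, h5.1, h5.2, h⟩)
          have h7 := hd.continuousAt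
          have h8 : ∀ᶠ t in 𝓝 (0 : ℝ), ⟪Y t p.1, Y t p.2⟫ ≠ 0 := by
            refine h7.eventually_ne ?_
            rw [hY0]
            exact h6
          filter_upwards [nhdsWithin_le_nhds h8] with t ht _ _
          exact ht
        · refine Eventually.of_forall fun t h6 h7 => absurd ⟨h6, h7⟩ h5
    have hall := eventually_all.2 key
    obtain ⟨t, ht1, ht2⟩ := (hall.and (nhdsWithin_le_nhds hYO)).exists
    refine ⟨Y t, ht2, ?_⟩
    intro u _ v _ huv hadj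
    exact ht1 (u, v) huv hadj

end GCA
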