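import Pool.Agent.GCA.TotStress
import Pool.Agent.GCA.IftD

/-!
# GCA-Blocks: the block theorem

For every block `i` take from `MrGC.lss_slack` (with `E = EuclideanSpace ℝ (Fin (d i))`,
`finrank = d i`) a good representation `x i` of `blk β i`: `OR`, `GP`, `Faith`.
`X = tot β d x` satisfies `OR Ω univ X` (`tot_same`, `tot_ne`).  If `u0 ≠ v0` are not adjacent in `Ω` and
`⟪X u0, X v0⟫ = 0` then `β u0 ≠ β v0` (otherwise `tot_same` and `Faith` give a contradiction), and `tot_stress` gives
`StressFree` (`hin`: `MrGC.Slack.nb_card`, the case `nb = ∅` is trivial; `hcr`: `noStress_of_peel` and `hp`).  Then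
`faithful_of_stressFree` and `MrGC.pr_of_rep`; `finrank ℝ (PiLp 2 ..) = ∑ i, d i`
(`(WithLp.linearEquiv ..).finrank_eq`, `Module.finrank_pi_fintype`, `finrank_euclideanSpace_fin`).
-/

open scoped RealInnerProductSpace
open Finset

namespace GCA

theorem blocks {n : ℕ} {ι : Type} [Fintype ι] [DecidableEq ι] (Ω : SimpleGraph (Fin n)) (β : Fin n → ι)
    (d : ι → ℕ) (hd : ∀ i, 0 < d i) (hs : ∀ i, MrGC.Slack Ω (blk β i) (d i))
    (hp : ∀ i j, i ≠ j → PeelCond Ω (blk β i) (blk β j) (d i) (d j) ∨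
      PeelCond Ω (blk β j) (blk β i) (d j) (d i)) : MrGC.PR Ω (∑ i, d i) := by
  classical
  have hfr : ∀ i, Module.finrank ℝ (EuclideanSpace ℝ (Fin (d i))) = d i :=
    fun i => finrank_euclideanSpace_fin
  have hex : ∀ i, ∃ x : Fin n → EuclideanSpace ℝ (Fin (d i)), MrGC.Good Ω (blk β i) x := by
    intro i
    obtain ⟨x, hx, _⟩ := MrGC.lss_slack (E := EuclideanSpace ℝ (Fin (d i)))
      (by rw [hfr i]; exact hd i) (blk β i) (by rw [hfr i]; exact hs i)
    exact ⟨x, hx⟩
  choose x hx using hex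
  have hmem : ∀ v, v ∈ blk β (β v) := by
    intro v
    unfold blk
    simp
  have hmem' : ∀ u v, β u = β v → v ∈ blk β (β u) := by
    intro u v h
    unfold blk
    simp [h]
  have hOR : MrGC.OR Ω univ (tot β d x) := by
    intro u _ v _ huv
    by_cases h : β u = β v
    · rw [tot_same β d x u v h]
      exact (hx (β u)).1 u (hmem u) v (hmem' u v h) huv
    · exact tot_ne β d x u v h
  have hin : ∀ v, (MrGC.nb Ω (blk β (β v)) v).card ≤ d (β v) := by
    intro v
    rcases (hs (β v)).nb_card (hmem v) with h | h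
    · omega
    · rw [h]; simp
  have hcr : ∀ i j, i ≠ j → NoStress Ω (blk β i) (blk β j) (x i) (x j) ∨
      NoStress Ω (blk β j) (blk β i) (x j) (x i) := by
    intro i j hij
    rcases hp i j hij with h | h
    · left
      apply noStress_of_peel Ω (blk β i) (blk β j) (x i) (x j) (hx i).2.1 (hx j).2.1
      rw [hfr i, hfr j]
      exact h
    · right
      apply noStress_of_peel Ω (blk β j) (blk β i) (x j) (x i) (hx j).2.1 (hx i).2.1
      rw [hfr i, hfr j]
      exact h
  obtain ⟨Y, hY1, hY2⟩ := faithful_of_stressFree Ω (tot β d x) hOR (by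
    intro u0 v0 hne hadj h0
    have hb : β u0 ≠ β v0 := by
      intro hb
      rw [tot_same β d x u0 v0 hb] at h0
      exact (hx (β u0)).2.2 u0 (hmem u0) v0 (hmem' u0 v0 hb) hne hadj h0
    intro N hsym hN hsum
    exact tot_stress Ω β d x (fun i => (hx i).2.1) hin hcr u0 v0 hb N hsym hN hsum)
  have hfin : Module.finrank ℝ (PiLp 2 (fun i => EuclideanSpace ℝ (Fin (d i)))) = ∑ i, d i := by
    rw [(WithLp.linearEquiv 2 ℝ (∀ i, EuclideanSpace ℝ (Fin (d i)))).finrank_eq,
      Module.finrank_pi_fintype]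
    exact Finset.sum_congr rfl (fun i _ => hfr i)
  have := MrGC.pr_of_rep hY1 hY2
  rw [hfin] at this
  exact this

end GCA
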