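import Pool.Agent.GCA.Defs

/-!
# GCA-DetA: counting for the selected blocks

`t = 2 ^ (41 q)`, `H i = two A i`, `I = {i < t | ¬ BadB i ∧ ∀ j, i < j → j < t → ¬ BadP i j}`, `X = univ \ ⋃_{i ∈ I} H i`.
The groups `grp n q k`, `k < 2 t`, are pairwise disjoint (different values of `v / 2 ^ (38 q)`), so the `A k` are; hence
`hdisj`, `card (H i) = 64 q`, and `card (rest q A) = n - 64 q t` (`card_sdiff`, `card_biUnion`).
`card_I`: the indices `i < t` not in `I` are `BadB` or the first component of a bad pair: `t ≤ I.card + rem`.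
`deg_X`: `X ⊆ rest ∪ ⋃_{i < t, i ∉ I} H i`, so the non-neighbours of `v` in `X` are: those in `rest` outside of the group
of `v` (`¬ BadD`: at most `card rest / 2 + t / 64`), those in the group of `v` (at most `2 ^ (38 q)` elements, `v` with
given `w / 2^(38q)`: `Nat.div` fibre), and at most `64 q (t - I.card) ≤ 64 q rem` in the removed blocks.
-/

open Finset

namespace GCA

open Classical in
/-- the indices of the blocks we keep -/
noncomputable def keep {n : ℕ} (q : ℕ) (A : ℕ → Finset (Fin n)) (ω : Sym2 (Fin n) → Bool) : Finset ℕ :=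
  (range (2 ^ (41 * q))).filter (fun i => ¬ BadB q A ω i ∧
    ∀ j, i < j → j < 2 ^ (41 * q) → ¬ BadP q A ω i j)

private theorem DetA_grp {n q k k' : ℕ} {A B : Finset (Fin n)} (hA : A ⊆ grp n q k)
    (hB : B ⊆ grp n q k') (hk : k ≠ k') : Disjoint A B := by
  rw [Finset.disjoint_left]
  intro v hv hv'
  have h1 := (mem_filter.1 (hA hv)).2
  have h2 := (mem_filter.1 (hB hv')).2
  exact hk (h1.symm.trans h2)

theorem two_disjoint {n : ℕ} (q : ℕ) (ω : Sym2 (Fin n) → Bool) (A : ℕ → Finset (Fin n))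
    (h : Sel q ω A) (i j : ℕ) (hi : i < 2 ^ (41 * q)) (hj : j < 2 ^ (41 * q)) (hij : i ≠ j) :
    Disjoint (two A i) (two A j) := by
  have hi0 := (h (2 * i) (by omega)).1
  have hi1 := (h (2 * i + 1) (by omega)).1
  have hj0 := (h (2 * j) (by omega)).1
  have hj1 := (h (2 * j + 1) (by omega)).1
  simp only [two, disjoint_union_left, disjoint_union_right]
  exact ⟨⟨DetA_grp hi0 hj0 (by omega), DetA_grp hi1 hj0 (by omega)⟩,
    ⟨DetA_grp hi0 hj1 (by omega), DetA_grp hi1 hj1 (by omega)⟩⟩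

theorem two_card {n : ℕ} (q : ℕ) (ω : Sym2 (Fin n) → Bool) (A : ℕ → Finset (Fin n))
    (h : Sel q ω A) (i : ℕ) (hi : i < 2 ^ (41 * q)) :
    Disjoint (A (2 * i)) (A (2 * i + 1)) ∧ (two A i).card = 64 * q := by
  obtain ⟨h0, c0, -⟩ := h (2 * i) (by omega)
  obtain ⟨h1, c1, -⟩ := h (2 * i + 1) (by omega)
  have hd : Disjoint (A (2 * i)) (A (2 * i + 1)) := DetA_grp h0 h1 (by omega)
  refine ⟨hd, ?_⟩
  rw [two, card_union_of_disjoint hd, c0, c1]
  ring

theorem rest_card {n : ℕ} (q : ℕ) (ω : Sym2 (Fin n) → Bool) (A : ℕ → Finset (Fin n))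
    (h : Sel q ω A) : (rest q A).card + 64 * q * 2 ^ (41 * q) = n := by
  have h1 : ((range (2 ^ (41 * q))).biUnion (two A)).card = 64 * q * 2 ^ (41 * q) := by
    rw [card_biUnion (fun i hi j hj hij => two_disjoint q ω A h i j (mem_range.1 hi)
      (mem_range.1 hj) hij), sum_congr rfl (fun i hi => (two_card q ω A h i (mem_range.1 hi)).2)]
    simp [mul_comm]
  have h2 := card_sdiff_add_card_eq_card (subset_univ ((range (2 ^ (41 * q))).biUnion (two A)))
  rw [h1, card_univ, Fintype.card_fin] at h2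
  exact h2

theorem keep_card {n : ℕ} (q : ℕ) (ω : Sym2 (Fin n) → Bool) (A : ℕ → Finset (Fin n)) :
    2 ^ (41 * q) ≤ (keep q A ω).card + rem q A ω := by
  classical
  have h1 : range (2 ^ (41 * q)) ⊆ keep q A ω ∪ ((range (2 ^ (41 * q))).filter
      (fun i => BadB q A ω i) ∪ (((range (2 ^ (41 * q))) ×ˢ (range (2 ^ (41 * q)))).filter
      (fun p => p.1 < p.2 ∧ BadP q A ω p.1 p.2)).image Prod.fst) := by
    intro i hi
    by_cases hk : i ∈ keep q A ω
    · exact mem_union_left _ hk
    · refine mem_union_right _ ?_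
      by_cases hb : BadB q A ω i
      · exact mem_union_left _ (mem_filter.2 ⟨hi, hb⟩)
      · refine mem_union_right _ ?_
        have h2 : ¬ ∀ j, i < j → j < 2 ^ (41 * q) → ¬ BadP q A ω i j := by
          intro h3
          exact hk (mem_filter.2 ⟨hi, hb, h3⟩)
        push Not at h2
        obtain ⟨j, h3, h4, h5⟩ := h2
        exact mem_image.2 ⟨(i, j), mem_filter.2 ⟨mem_product.2 ⟨hi, mem_range.2 h4⟩, h3, h5⟩, rfl⟩
  have h2 := card_le_card h1
  rw [card_range] at h2
  refine h2.trans ((card_union_le _ _).trans ?_)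
  rw [rem]
  refine Nat.add_le_add ?_ ((card_union_le _ _).trans (Nat.add_le_add ?_ ?_))
  · exact le_rfl
  · exact le_of_eq (by congr)
  · refine card_image_le.trans (le_of_eq (by congr))

open Classical in
theorem deg_X {n : ℕ} (q : ℕ) (ω : Sym2 (Fin n) → Bool) (A : ℕ → Finset (Fin n))
    (h : Sel q ω A) (hD : ¬ BadD q (rest q A) ω) (v : Fin n) :
    (((univ \ (keep q A ω).biUnion (two A)).filter (fun u => (gr ω)ᶜ.Adj v u)).card : ℝ) ≤
      (rest q A).card / 2 + 2 ^ (41 * q) / 64 + 2 ^ (38 * q) + 64 * q * rem q A ω := by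
  set F1 := (rest q A).filter (fun w => w.1 / 2 ^ (38 * q) ≠ v.1 / 2 ^ (38 * q) ∧
    ω s(v, w) = false) with hF1
  set F2 := (univ : Finset (Fin n)).filter (fun w => w.1 / 2 ^ (38 * q) = v.1 / 2 ^ (38 * q))
    with hF2
  set F3 := ((range (2 ^ (41 * q))) \ keep q A ω).biUnion (two A) with hF3
  have hsub : (univ \ (keep q A ω).biUnion (two A)).filter (fun u => (gr ω)ᶜ.Adj v u) ⊆
      F1 ∪ F2 ∪ F3 := by
    intro u hu
    obtain ⟨hu1, hu2⟩ := mem_filter.1 hu
    have hu1' := (mem_sdiff.1 hu1).2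
    have hfalse : ω s(v, u) = false := by
      rw [SimpleGraph.compl_adj] at hu2
      obtain ⟨hne, hn⟩ := hu2
      by_contra ht
      exact hn ⟨hne, by simpa using ht⟩
    by_cases hr : u ∈ rest q A
    · refine mem_union_left _ ?_
      by_cases hg : u.1 / 2 ^ (38 * q) = v.1 / 2 ^ (38 * q)
      · exact mem_union_right _ (mem_filter.2 ⟨mem_univ _, hg⟩)
      · exact mem_union_left _ (mem_filter.2 ⟨hr, hg, hfalse⟩)
    · refine mem_union_right _ ?_
      have h1 : u ∈ (range (2 ^ (41 * q))).biUnion (two A) := by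
        by_contra h2
        exact hr (mem_sdiff.2 ⟨mem_univ _, h2⟩)
      obtain ⟨i, hi, hui⟩ := mem_biUnion.1 h1
      refine mem_biUnion.2 ⟨i, mem_sdiff.2 ⟨hi, fun hk => hu1' (mem_biUnion.2 ⟨i, hk, hui⟩)⟩, hui⟩
  have hc1 : (F1.card : ℝ) ≤ (rest q A).card / 2 + 2 ^ (41 * q) / 64 := by
    rw [BadD] at hD
    push Not at hD
    have := hD v
    convert this
  have hc2 : (F2.card : ℝ) ≤ 2 ^ (38 * q) := by
    have h1 : F2.card ≤ 2 ^ (38 * q) := by
      have h2 : F2.card ≤ (Finset.Ico (2 ^ (38 * q) * (v.1 / 2 ^ (38 * q)))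
          (2 ^ (38 * q) * (v.1 / 2 ^ (38 * q)) + 2 ^ (38 * q))).card := by
        refine card_le_card_of_injOn (fun w => w.1) ?_ (fun a _ b _ hab => Fin.ext hab)
        intro w hw
        have hw2 := (mem_filter.1 hw).2
        have hpos : 0 < 2 ^ (38 * q) := by positivity
        have e1 := Nat.div_add_mod w.1 (2 ^ (38 * q))
        have e2 := Nat.mod_lt w.1 hpos
        rw [hw2] at e1
        rw [Finset.coe_Ico, Set.mem_Ico]
        dsimp only
        generalize 2 ^ (38 * q) = M at *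
        generalize M * (v.1 / M) = z at *
        constructor <;> omega
      rwa [Nat.card_Ico, Nat.add_sub_cancel_left] at h2
    exact_mod_cast h1
  have hc3 : (F3.card : ℝ) ≤ 64 * q * rem q A ω := by
    have h1 : F3.card ≤ ((range (2 ^ (41 * q))) \ keep q A ω).card * (64 * q) := by
      refine card_biUnion_le_card_mul _ _ _ ?_
      intro i hi
      exact (two_card q ω A h i (mem_range.1 (mem_sdiff.1 hi).1)).2.le
    have h2 : keep q A ω ⊆ range (2 ^ (41 * q)) := filter_subset _ _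
    have h3 := card_sdiff_add_card_eq_card h2
    rw [card_range] at h3
    have h4 := keep_card q ω A
    have h5 : ((range (2 ^ (41 * q))) \ keep q A ω).card ≤ rem q A ω := by omega
    have h6 : F3.card ≤ rem q A ω * (64 * q) := h1.trans (Nat.mul_le_mul_right _ h5)
    have h7 : (F3.card : ℝ) ≤ rem q A ω * (64 * q) := by exact_mod_cast h6
    linarith
  have hc : (((univ \ (keep q A ω).biUnion (two A)).filter
      (fun u => (gr ω)ᶜ.Adj v u)).card : ℝ) ≤ F1.card + F2.card + F3.card := by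
    have h1 := (card_le_card hsub).trans ((card_union_le _ _).trans
      (Nat.add_le_add_right (card_union_le _ _) _))
    exact_mod_cast h1
  linarith

end GCA
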