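import Pool.Agent.GCA.Defs

/-!
# GCA-MrgInv: what depends only on the bits inside / between groups

`same (2 ^ (38 q)) s(u, v) = decide (u / 2^(38q) = v / 2^(38q))` (`Sym2.lift_mk`).
* `sel_mrg`: the clique condition for `A k ⊆ grp n q k` only looks at pairs inside a group.
* `bad_mrg`: for `u ∈ A (2 i)`, `v ∈ A (2 i + 1)` (`i < 2 ^ (41 q)`) and for `u ∈ two A i`, `v ∈ two A j`, `i < j`, the
  groups are different, so the bit of `mrg (same _) ω ω'` at `s(u, v)` is the one of `ω'`; hence `BadB`, `BadP` agree, and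
  the two filters in `rem` are equal.
* `badD_mrg`: same, the definition of `BadD` only looks at pairs in different groups.
-/

open Finset

namespace GCA

private theorem mrg_eq {n M : ℕ} (ω ω' : Sym2 (Fin n) → Bool) {u v : Fin n}
    (h : u.1 / M = v.1 / M) : mrg (same M) ω ω' s(u, v) = ω s(u, v) := by
  unfold mrg same
  rw [Sym2.lift_mk]
  simp [h]

private theorem mrg_ne {n M : ℕ} (ω ω' : Sym2 (Fin n) → Bool) {u v : Fin n}
    (h : u.1 / M ≠ v.1 / M) : mrg (same M) ω ω' s(u, v) = ω' s(u, v) := by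
  unfold mrg same
  rw [Sym2.lift_mk]
  simp [h]

theorem sel_mrg {n : ℕ} (q : ℕ) (ω ω' : Sym2 (Fin n) → Bool) (A : ℕ → Finset (Fin n)) (h : Sel q ω A) :
    Sel q (mrg (same (2 ^ (38 * q))) ω ω') A := by
  intro k hk
  obtain ⟨h1, h2, h3⟩ := h k hk
  refine ⟨h1, h2, ?_⟩
  intro u hu v hv huv
  have e1 := h1 hu
  have e2 := h1 hv
  unfold grp at e1 e2
  rw [mem_filter] at e1 e2
  rw [mrg_eq ω ω' (e1.2.trans e2.2.symm)]
  exact h3 u hu v hv huv

private theorem badP_congr {n : ℕ} (q : ℕ) (A : ℕ → Finset (Fin n)) (ω ω' : Sym2 (Fin n) → Bool)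
    (i j : ℕ) (h : ∀ u ∈ two A i, ∀ v ∈ two A j, ω s(u, v) = ω' s(u, v)) :
    BadP q A ω i j ↔ BadP q A ω' i j := by
  unfold BadP
  have e1 : ∀ v ∈ two A j, (two A i).filter (fun u' => ω s(u', v) = false) =
      (two A i).filter (fun u' => ω' s(u', v) = false) := by
    intro v hv
    apply filter_congr
    intro u hu
    rw [h u hu v hv]
  have e2 : (two A j).filter (fun v => 32 * q - 1 ≤
      ((two A i).filter (fun u' => ω s(u', v) = false)).card) =
      (two A j).filter (fun v => 32 * q - 1 ≤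
      ((two A i).filter (fun u' => ω' s(u', v) = false)).card) := by
    apply filter_congr
    intro v hv
    rw [e1 v hv]
  rw [e2]
  have e3 : ∀ u ∈ two A i, (((two A j).filter (fun v => 32 * q - 1 ≤
      ((two A i).filter (fun u' => ω' s(u', v) = false)).card)).filter
        (fun v => ω s(u, v) = false)) = (((two A j).filter (fun v => 32 * q - 1 ≤
      ((two A i).filter (fun u' => ω' s(u', v) = false)).card)).filter
        (fun v => ω' s(u, v) = false)) := by
    intro u hu
    apply filter_congr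
    intro v hv
    rw [h u hu v (mem_filter.1 hv).1]
  have e4 : (two A i).filter (fun u => 32 * q - 1 ≤
      (((two A j).filter (fun v => 32 * q - 1 ≤
      ((two A i).filter (fun u' => ω' s(u', v) = false)).card)).filter
        (fun v => ω s(u, v) = false)).card) = (two A i).filter (fun u => 32 * q - 1 ≤
      (((two A j).filter (fun v => 32 * q - 1 ≤
      ((two A i).filter (fun u' => ω' s(u', v) = false)).card)).filter
        (fun v => ω' s(u, v) = false)).card) := by
    apply filter_congr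
    intro u hu
    rw [e3 u hu]
  rw [e4]

private theorem badB_congr {n : ℕ} (q : ℕ) (A : ℕ → Finset (Fin n)) (ω ω' : Sym2 (Fin n) → Bool)
    (i : ℕ) (h : ∀ u ∈ A (2 * i), ∀ v ∈ A (2 * i + 1), ω s(u, v) = ω' s(u, v)) :
    BadB q A ω i ↔ BadB q A ω' i := by
  unfold BadB
  constructor
  · rintro ⟨S, hS, T, hT, h1, h2, h3, h4⟩
    exact ⟨S, hS, T, hT, h1, h2, h3, fun u hu v hv => by
      rw [← h u (hS hu) v (hT hv)]
      exact h4 u hu v hv⟩
  · rintro ⟨S, hS, T, hT, h1, h2, h3, h4⟩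
    exact ⟨S, hS, T, hT, h1, h2, h3, fun u hu v hv => by
      rw [h u (hS hu) v (hT hv)]
      exact h4 u hu v hv⟩

theorem rem_mrg {n : ℕ} (q : ℕ) (ω ω' : Sym2 (Fin n) → Bool) (A : ℕ → Finset (Fin n)) (h : Sel q ω A) :
    rem q A (mrg (same (2 ^ (38 * q))) ω ω') = rem q A ω' := by
  classical
  have hg : ∀ k < 2 * 2 ^ (41 * q), ∀ u ∈ A k, u.1 / 2 ^ (38 * q) = k := by
    intro k hk u hu
    have e1 := (h k hk).1 hu
    unfold grp at e1
    exact (mem_filter.1 e1).2
  have hg2 : ∀ i < 2 ^ (41 * q), ∀ u ∈ two A i, u.1 / 2 ^ (38 * q) = 2 * i ∨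
      u.1 / 2 ^ (38 * q) = 2 * i + 1 := by
    intro i hi u hu
    unfold two at hu
    rcases mem_union.1 hu with h1 | h1
    · exact Or.inl (hg _ (by omega) u h1)
    · exact Or.inr (hg _ (by omega) u h1)
  unfold rem
  congr 2
  · apply filter_congr
    intro i hi
    rw [mem_range] at hi
    apply badB_congr
    intro u hu v hv
    have e1 := hg _ (by omega) u hu
    have e2 := hg _ (by omega) v hv
    exact mrg_ne ω ω' (by omega)
  · apply filter_congr
    intro p hp
    rw [mem_product, mem_range, mem_range] at hp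
    constructor
    · rintro ⟨h1, h2⟩
      refine ⟨h1, (badP_congr q A _ _ p.1 p.2 ?_).1 h2⟩
      intro u hu v hv
      have e1 := hg2 _ hp.1 u hu
      have e2 := hg2 _ hp.2 v hv
      exact mrg_ne ω ω' (by omega)
    · rintro ⟨h1, h2⟩
      refine ⟨h1, (badP_congr q A _ _ p.1 p.2 ?_).2 h2⟩
      intro u hu v hv
      have e1 := hg2 _ hp.1 u hu
      have e2 := hg2 _ hp.2 v hv
      exact mrg_ne ω ω' (by omega)

theorem badD_mrg {n : ℕ} (q : ℕ) (ω ω' : Sym2 (Fin n) → Bool) (X : Finset (Fin n)) :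
    BadD q X (mrg (same (2 ^ (38 * q))) ω ω') ↔ BadD q X ω' := by
  unfold BadD
  have e : ∀ v : Fin n, X.filter (fun w => w.1 / 2 ^ (38 * q) ≠ v.1 / 2 ^ (38 * q) ∧
      mrg (same (2 ^ (38 * q))) ω ω' s(v, w) = false) =
      X.filter (fun w => w.1 / 2 ^ (38 * q) ≠ v.1 / 2 ^ (38 * q) ∧ ω' s(v, w) = false) := by
    intro v
    apply filter_congr
    intro w _
    constructor
    · rintro ⟨h1, h2⟩
      rw [mrg_ne ω ω' (Ne.symm h1)] at h2
      exact ⟨h1, h2⟩
    · rintro ⟨h1, h2⟩
      refine ⟨h1, ?_⟩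
      rw [mrg_ne ω ω' (Ne.symm h1)]
      exact h2
  simp only [e]

end GCA
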