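import Pool.Agent.GCA.PrA
import Pool.Agent.GCA.PrB
import Pool.Agent.GCA.MrgInv
import Pool.Agent.GCA.DetA

/-!
# GCA-Cond: assembly of the probabilistic part
-/

open Finset

namespace GCA

theorem cond {n : ℕ} (q : ℕ) (Q : (Sym2 (Fin n) → Bool) → Prop)
    (hdet : ∀ (ω : Sym2 (Fin n) → Bool) (A : ℕ → Finset (Fin n)),
      Sel q ω A → ¬ BadL ω → ¬ BadD q (rest q A) ω → 256 * q * rem q A ω ≤ 2 ^ (41 * q) → Q ω)
    (hL : pr (fun ω : Sym2 (Fin n) → Bool => BadL ω) ≤ (1 / 2) ^ (n / 5))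
    (hS : pr (fun ω : Sym2 (Fin n) → Bool => ¬ ∃ A, Sel q ω A) ≤ (1 / 2) ^ q)
    (hD : ∀ X : Finset (Fin n), pr (fun ω : Sym2 (Fin n) → Bool => BadD q X ω) ≤ (1 / 2) ^ q)
    (hR : ∀ (ω : Sym2 (Fin n) → Bool) (A : ℕ → Finset (Fin n)), Sel q ω A →
      pr (fun ω' : Sym2 (Fin n) → Bool => 2 ^ (41 * q) < 256 * q * rem q A ω') ≤ (1 / 2) ^ q) :
    pr (fun ω : Sym2 (Fin n) → Bool => ¬ Q ω) ≤ (1 / 2) ^ (n / 5) + 3 * (1 / 2) ^ q := by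
  have h1 : pr (fun ω : Sym2 (Fin n) → Bool => ¬ Q ω) ≤
      pr (fun ω : Sym2 (Fin n) → Bool => BadL ω ∨ (¬ Q ω ∧ ¬ BadL ω)) := by
    refine pr_mono (fun ω hω => ?_)
    by_cases h : BadL ω
    · exact Or.inl h
    · exact Or.inr ⟨hω, h⟩
  have h2 := pr_or (fun ω : Sym2 (Fin n) → Bool => BadL ω) (fun ω => ¬ Q ω ∧ ¬ BadL ω)
  have h3 : pr (fun ω : Sym2 (Fin n) → Bool => ¬ Q ω ∧ ¬ BadL ω) ≤
      pr (fun ω : Sym2 (Fin n) → Bool => ¬ ∃ A, Sel q ω A) + ((1 / 2) ^ q + (1 / 2) ^ q) := by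
    refine pr_mrg (same (2 ^ (38 * q))) (fun ω => ¬ Q ω ∧ ¬ BadL ω) (fun ω => ∃ A, Sel q ω A)
      (by positivity) ?_
    rintro ω ⟨A, hA⟩
    refine le_trans (pr_mono (Q := fun ω' => BadD q (rest q A) ω' ∨
      2 ^ (41 * q) < 256 * q * rem q A ω') ?_) ?_
    · rintro ω' ⟨hQ, hLb⟩
      by_contra hcon
      push Not at hcon
      apply hQ
      refine hdet _ A (sel_mrg q ω ω' A hA) hLb ?_ ?_
      · rw [badD_mrg]; exact hcon.1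
      · rw [rem_mrg q ω ω' A hA]; exact hcon.2
    · exact le_trans (pr_or _ _) (add_le_add (hD _) (hR ω A hA))
  linarith

end GCA
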