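import Pool.Agent.Helper48.MrExt

/-!
# Project GCA (graph complement conjecture for almost all graphs, MP_2c4812_co): definitions
-/

open Finset

namespace GCA

open Classical in
/-- probability of the event `P` for uniform random bits indexed by `E` -/
noncomputable def pr {E : Type*} [Fintype E] [DecidableEq E] (P : (E → Bool) → Prop) : ℝ :=
  ((univ.filter P).card : ℝ) / 2 ^ Fintype.card E

/-- take the bits in `D` from `ω` and the others from `ω'` -/
def mrg {E : Type*} (D : E → Bool) (ω ω' : E → Bool) : E → Bool :=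
  fun e => if D e = true then ω e else ω' e

/-- the graph given by the bits `ω` -/
def gr {V : Type*} (ω : Sym2 V → Bool) : SimpleGraph V where
  Adj u v := u ≠ v ∧ ω s(u, v) = true
  symm := ⟨fun u v h => ⟨h.1.symm, by rw [Sym2.eq_swap]; exact h.2⟩⟩
  loopless := ⟨fun _ h => h.1 rfl⟩

/-- the two ends of the pair are in the same group `{v | v / M = k}` -/
def same {n : ℕ} (M : ℕ) : Sym2 (Fin n) → Bool :=
  Sym2.lift ⟨fun u v => decide (u.1 / M = v.1 / M), fun u v => by simp [eq_comm]⟩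

open Classical in
/-- two step peeling of the graph `Ω` between `P` and `Q` -/
def PeelCond {V : Type*} (Ω : SimpleGraph V) (P Q : Finset V) (d d' : ℕ) : Prop :=
  (P.filter (fun u => d' ≤ ((Q.filter (fun v => d ≤ (P.filter (fun u' => Ω.Adj u' v)).card)).filter
    (fun v => Ω.Adj u v)).card)).card ≤ d

/-- no stress between `P` and `Q`, even if one more pair is allowed -/
def NoStress {V E E' : Type*} [AddCommGroup E] [Module ℝ E] [AddCommGroup E'] [Module ℝ E']
    (Ω : SimpleGraph V) (P Q : Finset V) (x : V → E) (x' : V → E') : Prop :=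
  ∀ (u0 v0 : V) (N : V → V → ℝ),
    (∀ u ∈ P, ∀ v ∈ Q, N u v ≠ 0 → Ω.Adj u v ∨ (u = u0 ∧ v = v0)) →
    (∀ u ∈ P, ∑ v ∈ Q, N u v • x' v = 0) → (∀ v ∈ Q, ∑ u ∈ P, N u v • x u = 0) →
    ∀ u ∈ P, ∀ v ∈ Q, N u v = 0

/-- a block of the partition `β` -/
def blk {V ι : Type*} [Fintype V] [DecidableEq ι] (β : V → ι) (i : ι) : Finset V :=
  univ.filter (fun v => β v = i)

/-- the block vectors as vectors of the direct sum -/
noncomputable def tot {V ι : Type*} [Fintype ι] [DecidableEq ι] (β : V → ι) (d : ι → ℕ)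
    (x : ∀ i, V → EuclideanSpace ℝ (Fin (d i))) (v : V) :
    PiLp 2 (fun i => EuclideanSpace ℝ (Fin (d i))) :=
  WithLp.toLp 2 (Pi.single (β v) (x (β v) v))

/-- the vertices of two groups -/
def two {V : Type*} [DecidableEq V] (A : ℕ → Finset V) (i : ℕ) : Finset V := A (2 * i) ∪ A (2 * i + 1)

/-- the parameters: `2 ^ (80 q) ≤ n < 2 ^ (80 (q + 1))` -/
def Par (n q : ℕ) : Prop := 2 ^ (80 * q) ≤ n ∧ n < 2 ^ (80 * (q + 1))

/-- the group with number `k` -/
def grp (n q k : ℕ) : Finset (Fin n) := univ.filter (fun v => v.1 / 2 ^ (38 * q) = k)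

/-- `A` is a clique of the bits `ω` -/
def Clq {V : Type*} (ω : Sym2 V → Bool) (A : Finset V) : Prop :=
  ∀ u ∈ A, ∀ v ∈ A, u ≠ v → ω s(u, v) = true

/-- selected cliques in the groups -/
def Sel {n : ℕ} (q : ℕ) (ω : Sym2 (Fin n) → Bool) (A : ℕ → Finset (Fin n)) : Prop :=
  ∀ k < 2 * 2 ^ (41 * q), A k ⊆ grp n q k ∧ (A k).card = 32 * q ∧ Clq ω (A k)

/-- the block with number `i` is bad -/
def BadB {n : ℕ} (q : ℕ) (A : ℕ → Finset (Fin n)) (ω : Sym2 (Fin n) → Bool) (i : ℕ) : Prop :=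
  ∃ S ⊆ A (2 * i), ∃ T ⊆ A (2 * i + 1), S.Nonempty ∧ T.Nonempty ∧ 32 * q - 1 ≤ S.card + T.card ∧
    ∀ u ∈ S, ∀ v ∈ T, ω s(u, v) = false

/-- the pair of blocks with numbers `i`, `j` is bad -/
def BadP {n : ℕ} (q : ℕ) (A : ℕ → Finset (Fin n)) (ω : Sym2 (Fin n) → Bool) (i j : ℕ) : Prop :=
  32 * q ≤ ((two A i).filter (fun u => 32 * q - 1 ≤
    (((two A j).filter (fun v => 32 * q - 1 ≤
      ((two A i).filter (fun u' => ω s(u', v) = false)).card)).filter
        (fun v => ω s(u, v) = false)).card)).card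

open Classical in
/-- the number of blocks which are removed -/
noncomputable def rem {n : ℕ} (q : ℕ) (A : ℕ → Finset (Fin n)) (ω : Sym2 (Fin n) → Bool) : ℕ :=
  ((range (2 ^ (41 * q))).filter (fun i => BadB q A ω i)).card +
    (((range (2 ^ (41 * q))) ×ˢ (range (2 ^ (41 * q)))).filter
      (fun p => p.1 < p.2 ∧ BadP q A ω p.1 p.2)).card

/-- the vertices outside of all blocks -/
def rest {n : ℕ} (q : ℕ) (A : ℕ → Finset (Fin n)) : Finset (Fin n) :=
  univ \ (range (2 ^ (41 * q))).biUnion (two A)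

/-- some vertex has too many non-neighbours in `X` outside of its group -/
def BadD {n : ℕ} (q : ℕ) (X : Finset (Fin n)) (ω : Sym2 (Fin n) → Bool) : Prop :=
  ∃ v : Fin n, (X.card : ℝ) / 2 + 2 ^ (41 * q) / 64 <
    ((X.filter (fun w => w.1 / 2 ^ (38 * q) ≠ v.1 / 2 ^ (38 * q) ∧ ω s(v, w) = false)).card : ℝ)

/-- two large sets without edges between them -/
def BadL {n : ℕ} (ω : Sym2 (Fin n) → Bool) : Prop :=
  ∃ S T : Finset (Fin n), Disjoint S T ∧ 11 ≤ S.card ∧ n ≤ 5 * T.card ∧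
    ∀ u ∈ S, ∀ v ∈ T, ω s(u, v) = false

end GCA
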