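import Pool.Agent.GCA.Hoef
import Pool.Agent.GCA.PrB

/-!
# GCA-DegPr: degrees

`t = 2 ^ (41 q)`.  For fixed `v` let `Y = X.filter (fun w => w.1 / 2 ^ (38 q) ≠ v.1 / 2 ^ (38 q))` (so `v ∉ Y`,
`Y.card ≤ X.card`, `Y.card ≤ n`).  The map `w ↦ s(v, w)` is injective on `Y`; `pr_inj` and `hoef` with `d = t / 64`:
`pr (..) ≤ exp (-(2 (t/64)^2 / Y.card)) ≤ exp (-(2 * 2^(82 q - 12) / 2^(80 q + 80)))` if `Y` is nonempty (if `Y = ∅`
the event is empty, since `0 < t / 64`).  Union over the `n < 2 ^ (80 (q+1))` vertices (`pr_exists`, with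
`s = univ`): `2 ^ (80 q + 80) exp (-(2 ^ (2 q) / 2 ^ 91)) ≤ (1/2) ^ q` for large `q`.
-/

open Finset

namespace GCA

private theorem DegPr_num (q : ℕ) (hq : 64 ≤ q) : (81 * q + 80) * 2 ^ 91 ≤ 4 ^ q := by
  induction q, hq using Nat.le_induction with
  | base => norm_num
  | succ q hq ih =>
    calc (81 * (q + 1) + 80) * 2 ^ 91 ≤ 4 * ((81 * q + 80) * 2 ^ 91) := by
          have : 81 * (q + 1) + 80 ≤ 4 * (81 * q + 80) := by omega
          calc (81 * (q + 1) + 80) * 2 ^ 91 ≤ (4 * (81 * q + 80)) * 2 ^ 91 :=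
                Nat.mul_le_mul_right _ this
            _ = 4 * ((81 * q + 80) * 2 ^ 91) := by ring
      _ ≤ 4 * 4 ^ q := Nat.mul_le_mul_left 4 ih
      _ = 4 ^ (q + 1) := by ring

private theorem DegPr_exp (k : ℕ) : Real.exp (-(k : ℝ)) ≤ (1 / 2) ^ k := by
  have h1 : Real.exp (-1) ≤ 1 / 2 := by
    rw [Real.exp_neg, one_div]
    apply inv_anti₀ (by norm_num)
    have := Real.add_one_le_exp (1 : ℝ)
    linarith
  have h2 : Real.exp (-(k : ℝ)) = Real.exp (-1) ^ k := by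
    rw [← Real.exp_nat_mul]
    congr 1
    ring
  rw [h2]
  exact pow_le_pow_left₀ (Real.exp_pos _).le h1 k

/-- one vertex, abstract -/
private theorem DegPr_abs {n : ℕ} (X : Finset (Fin n)) (v : Fin n) (M : ℕ) (d : ℝ) (hd : 0 < d) (B : ℝ)
    (hB : B * n ≤ 2 * d ^ 2) (hB0 : 0 ≤ B) :
    pr (fun ω : Sym2 (Fin n) → Bool => (X.card : ℝ) / 2 + d <
      ((X.filter (fun w => w.1 / M ≠ v.1 / M ∧ ω s(v, w) = false)).card : ℝ))
      ≤ Real.exp (-B) := by
  classical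
  obtain ⟨Y, hY⟩ : ∃ Y : Finset (Fin n), ∀ w, w ∈ Y ↔ (w ∈ X ∧ w.1 / M ≠ v.1 / M) :=
    ⟨X.filter (fun w => w.1 / M ≠ v.1 / M), fun w => by rw [mem_filter]⟩
  have hφ : Function.Injective (fun w : {w // w ∈ Y} => s(v, w.1)) := by
    intro a b hab
    apply Subtype.ext
    exact Sym2.congr_right.1 hab
  have hcard : ∀ ω : Sym2 (Fin n) → Bool,
      ((X.filter (fun w => w.1 / M ≠ v.1 / M ∧ ω s(v, w) = false)).card) =
        ((univ : Finset {w // w ∈ Y}).filter (fun i => ω s(v, i.1) = false)).card := by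
    intro ω
    symm
    apply Finset.card_bij (fun i _ => i.1)
    · intro i hi
      have h1 := (hY i.1).1 i.2
      rw [mem_filter] at hi
      rw [mem_filter]
      exact ⟨h1.1, h1.2, hi.2⟩
    · intro i _ j _ h
      exact Subtype.ext h
    · intro w hw
      rw [mem_filter] at hw
      refine ⟨⟨w, (hY w).2 ⟨hw.1, hw.2.1⟩⟩, ?_, rfl⟩
      rw [mem_filter]
      exact ⟨mem_univ _, hw.2.2⟩
  have hI : Fintype.card {w // w ∈ Y} = Y.card := Fintype.card_coe Y
  have hYX : (Y.card : ℝ) ≤ X.card := by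
    exact_mod_cast card_le_card (fun w hw => ((hY w).1 hw).1)
  have h1 : pr (fun ω : Sym2 (Fin n) → Bool => (X.card : ℝ) / 2 + d <
      ((X.filter (fun w => w.1 / M ≠ v.1 / M ∧ ω s(v, w) = false)).card : ℝ)) ≤
        pr (fun ω : Sym2 (Fin n) → Bool => (fun f : {w // w ∈ Y} → Bool =>
          (Fintype.card {w // w ∈ Y} : ℝ) / 2 + d ≤
            ((univ.filter (fun i => f i = false)).card : ℝ)) (fun i => ω s(v, i.1))) := by
    apply pr_mono
    intro ω h
    rw [hcard ω] at h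
    change (Fintype.card {w // w ∈ Y} : ℝ) / 2 + d ≤
            ((univ.filter (fun i : {w // w ∈ Y} => ω s(v, i.1) = false)).card : ℝ)
    rw [hI]
    linarith
  rcases Nat.eq_zero_or_pos Y.card with h0 | h0
  · refine h1.trans ?_
    refine le_trans (pr_mono (Q := fun _ => False) fun ω h => ?_) ?_
    · change (Fintype.card {w // w ∈ Y} : ℝ) / 2 + d ≤
            ((univ.filter (fun i : {w // w ∈ Y} => ω s(v, i.1) = false)).card : ℝ) at h
      have h2 : ((univ : Finset {w // w ∈ Y}).filter (fun i => ω s(v, i.1) = false)).card = 0 := by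
        have h3 : ((univ : Finset {w // w ∈ Y}).filter (fun i => ω s(v, i.1) = false)).card ≤
            (univ : Finset {w // w ∈ Y}).card := card_filter_le _ _
        rw [card_univ, hI, h0] at h3
        exact Nat.le_zero.1 h3
      rw [h2, hI, h0, Nat.cast_zero] at h
      linarith
    · rw [pr_false]
      exact (Real.exp_pos _).le
  · refine h1.trans ?_
    refine (pr_inj (fun w : {w // w ∈ Y} => s(v, w.1)) hφ (fun f : {w // w ∈ Y} → Bool =>
          (Fintype.card {w // w ∈ Y} : ℝ) / 2 + d ≤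
            ((univ.filter (fun i => f i = false)).card : ℝ))).le.trans ?_
    refine (hoef _ hd.le).trans ?_
    apply Real.exp_le_exp.2
    rw [neg_le_neg_iff, hI]
    have hc : (0 : ℝ) < Y.card := by exact_mod_cast h0
    have hc2 : (Y.card : ℝ) ≤ n := by
      have h2 : Y.card ≤ n := by
        calc Y.card ≤ (univ : Finset (Fin n)).card := card_le_card (subset_univ _)
          _ = n := by rw [card_univ, Fintype.card_fin]
      exact_mod_cast h2
    rw [le_div_iff₀ hc]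
    calc B * Y.card ≤ B * n := by gcongr
      _ ≤ 2 * d ^ 2 := hB

private theorem DegPr_calc (q : ℕ) :
    (4 : ℝ) ^ q / 2 ^ 91 * 2 ^ (80 * (q + 1)) = 2 * (2 ^ (41 * q) / 64) ^ 2 := by
  have e1 : (4 : ℝ) ^ q = (2 ^ q) ^ 2 := by
    rw [← pow_mul, mul_comm, pow_mul]
    norm_num
  have e2 : (2 : ℝ) ^ (41 * q) = (2 ^ q) ^ 41 := by
    rw [← pow_mul, mul_comm]
  have e3 : (2 : ℝ) ^ (80 * (q + 1)) = (2 ^ q) ^ 80 * 2 ^ 80 := by
    rw [← pow_mul, ← pow_add, mul_comm q 80, mul_add, mul_one]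
  rw [e1, e2, e3]
  generalize (2 : ℝ) ^ q = z
  ring

theorem deg_pr : ∃ q0 : ℕ, ∀ q ≥ q0, ∀ n : ℕ, Par n q → ∀ X : Finset (Fin n),
    pr (fun ω : Sym2 (Fin n) → Bool => BadD q X ω) ≤ (1 / 2) ^ q := by
  classical
  refine ⟨64, fun q hq n hn X => ?_⟩
  have hnR : (n : ℝ) ≤ 2 ^ (80 * (q + 1)) := by
    have h := hn.2.le
    have h' : (n : ℝ) ≤ ((2 ^ (80 * (q + 1)) : ℕ) : ℝ) := Nat.cast_le.2 h
    rwa [Nat.cast_pow, Nat.cast_ofNat] at h'
  have hone : ∀ v : Fin n, pr (fun ω : Sym2 (Fin n) → Bool => (X.card : ℝ) / 2 + 2 ^ (41 * q) / 64 <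
      ((X.filter (fun w => w.1 / 2 ^ (38 * q) ≠ v.1 / 2 ^ (38 * q) ∧ ω s(v, w) = false)).card : ℝ))
      ≤ Real.exp (-((4 : ℝ) ^ q / 2 ^ 91)) := by
    intro v
    refine DegPr_abs X v (2 ^ (38 * q)) (2 ^ (41 * q) / 64) (by positivity) _ ?_ (by positivity)
    rw [← DegPr_calc]
    gcongr
  have h1 : pr (fun ω : Sym2 (Fin n) → Bool => BadD q X ω) ≤
      pr (fun ω : Sym2 (Fin n) → Bool => ∃ v ∈ (univ : Finset (Fin n)),
        (X.card : ℝ) / 2 + 2 ^ (41 * q) / 64 <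
        ((X.filter (fun w => w.1 / 2 ^ (38 * q) ≠ v.1 / 2 ^ (38 * q) ∧
          ω s(v, w) = false)).card : ℝ)) := by
    apply pr_mono
    rintro ω ⟨v, hv⟩
    exact ⟨v, mem_univ _, hv⟩
  refine h1.trans ((pr_exists univ _).trans ?_)
  refine (sum_le_card_nsmul univ _ _ fun v _ => hone v).trans ?_
  rw [card_univ, Fintype.card_fin, nsmul_eq_mul]
  have h2 : Real.exp (-((4 : ℝ) ^ q / 2 ^ 91)) ≤ (1 / 2) ^ (81 * q + 80) := by
    refine le_trans ?_ (DegPr_exp (81 * q + 80))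
    apply Real.exp_le_exp.2
    rw [neg_le_neg_iff, le_div_iff₀ (by positivity)]
    exact_mod_cast DegPr_num q hq
  calc (n : ℝ) * Real.exp (-((4 : ℝ) ^ q / 2 ^ 91)) ≤ 2 ^ (80 * (q + 1)) * (1 / 2) ^ (81 * q + 80) := by
        gcongr
    _ = (1 / 2) ^ q := by
      have e1 : 81 * q + 80 = 80 * (q + 1) + q := by ring
      rw [e1, pow_add (1 / 2 : ℝ), ← mul_assoc, ← mul_pow]
      norm_num

end GCA
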