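import Pool.Agent.GCA.Defs

/-!
# GCA-SlackXB: the slack condition for the big block and for the union of two cliques

`slackX`: let `A`, `B` be nonempty, `Comp Ω A B`.  By symmetry `|A| ≤ |B|`.  If `|A| ≤ 10` take `a ∈ A`; `B` is
contained in the neighbourhood of `a` in `X`, so `|A| + |B| ≤ 10 + |nb| < D`.  If `|A| ≥ 11` and `D ≤ |A| + |B|` then
`D ≤ 2 |B|`, contradiction to `hbig`.
`slackB`: `A'`, `B'` nonempty subsets of `A ∪ B` with `Comp Ω A' B'`.  If `x ∈ A' ∩ A` and `y ∈ B' ∩ A` then `Ω.Adj x y`,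
contradiction to `hA` (also for `x = y`).  The same for `B`.  So one of them is contained in `A` and the other in `B`.
-/

open Finset

namespace GCA

open Classical in
theorem slackX {V : Type*} [Fintype V] [DecidableEq V] (Ω : SimpleGraph V) (X : Finset V) (D : ℕ)
    (hdeg : ∀ v ∈ X, (X.filter (fun u => Ω.Adj v u)).card + 11 ≤ D)
    (hbig : ∀ S ⊆ X, ∀ T ⊆ X, MrGC.Comp Ω S T → 11 ≤ S.card → D ≤ 2 * T.card → False) :
    MrGC.Slack Ω X D := by
  have key : ∀ A ⊆ X, ∀ B ⊆ X, A.Nonempty → A.card ≤ B.card → MrGC.Comp Ω A B →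
      A.card + B.card < D := by
    intro A hA B hB hAn hle hc
    rcases Nat.lt_or_ge A.card 11 with h | h
    · obtain ⟨a, ha⟩ := hAn
      have h1 : B.card ≤ (X.filter (fun u => Ω.Adj a u)).card :=
        card_le_card fun b hb => mem_filter.mpr ⟨hB hb, hc a ha b hb⟩
      have h2 := hdeg a (hA ha)
      omega
    · by_contra hcon
      exact hbig A hA B hB hc h (by omega)
  intro A hA B hB hAn hBn hc
  rcases le_total A.card B.card with h | h
  · exact key A hA B hB hAn h hc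
  · have := key B hB A hA hBn h (fun b hb a ha => (hc a ha b hb).symm)
    omega

theorem slackB {V : Type*} [Fintype V] [DecidableEq V] (Ω : SimpleGraph V) (A B : Finset V) (d : ℕ)
    (hA : ∀ u ∈ A, ∀ v ∈ A, ¬ Ω.Adj u v) (hB : ∀ u ∈ B, ∀ v ∈ B, ¬ Ω.Adj u v)
    (h : ∀ S ⊆ A, ∀ T ⊆ B, S.Nonempty → T.Nonempty → MrGC.Comp Ω S T → S.card + T.card < d) :
    MrGC.Slack Ω (A ∪ B) d := by
  intro A' hA' B' hB' hAn hBn hc
  obtain ⟨x, hx⟩ := hAn
  rcases mem_union.mp (hA' hx) with hxA | hxB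
  · have h1 : B' ⊆ B := by
      intro y hy
      rcases mem_union.mp (hB' hy) with hyA | hyB
      · exact absurd (hc x hx y hy) (hA x hxA y hyA)
      · exact hyB
    obtain ⟨y, hy⟩ := hBn
    have h2 : A' ⊆ A := by
      intro z hz
      rcases mem_union.mp (hA' hz) with hzA | hzB
      · exact hzA
      · exact absurd (hc z hz y hy) (hB z hzB y (h1 hy))
    exact h A' h2 B' h1 ⟨x, hx⟩ ⟨y, hy⟩ hc
  · have h1 : B' ⊆ A := by
      intro y hy
      rcases mem_union.mp (hB' hy) with hyA | hyB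
      · exact hyA
      · exact absurd (hc x hx y hy) (hB x hxB y hyB)
    obtain ⟨y, hy⟩ := hBn
    have h2 : A' ⊆ B := by
      intro z hz
      rcases mem_union.mp (hA' hz) with hzA | hzB
      · exact absurd (hc z hz y hy) (hA z hzA y (h1 hy))
      · exact hzB
    have h3 := h B' h1 A' h2 ⟨y, hy⟩ ⟨x, hx⟩ (fun b hb a ha => (hc a ha b hb).symm)
    omega

end GCA
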