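import Pool.Agent.GCA.Blocks

/-!
# GCA-Struct: one big block and many small ones

Apply `blocks` with `ι = Option ↥I`: `β v = some i` if `v ∈ H i` for some `i ∈ I` (unique by `hdis`), `none` otherwise;
`d none = D`, `d (some i) = a`.  `blk β none = X`, `blk β (some i) = H i`.  Peeling between `X` and `H i`
(`PeelCond Ω X (H i) D a`): no `v` has `D ≤ #{u ∈ X | Ω u v}` (`hdeg`), so the inner set is empty, and as `0 < a` no `u`
has `a ≤ 0`; the card is `0 ≤ D`.  Between `H i` and `H j`: `hpl` for `i < j` or `j < i`.
`∑ = D + I.card * a` (`Fintype.sum_option`).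
-/

open Finset

namespace GCA

open Classical in
theorem struct {n : ℕ} (Ω : SimpleGraph (Fin n)) (a : ℕ) (ha : 1 ≤ a) (I : Finset ℕ) (H : ℕ → Finset (Fin n))
    (hdis : ∀ i ∈ I, ∀ j ∈ I, i ≠ j → Disjoint (H i) (H j)) (hsl : ∀ i ∈ I, MrGC.Slack Ω (H i) a)
    (hpl : ∀ i ∈ I, ∀ j ∈ I, i < j → PeelCond Ω (H i) (H j) a a) (X : Finset (Fin n))
    (hX : X = univ \ I.biUnion H) (D : ℕ) (hD : 0 < D) (hslX : MrGC.Slack Ω X D)
    (hdeg : ∀ v, (X.filter (fun u => Ω.Adj u v)).card < D) : MrGC.PR Ω (D + I.card * a) := by
  let β : Fin n → Option I := fun v =>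
    if h : ∃ i ∈ I, v ∈ H i then some ⟨h.choose, h.choose_spec.1⟩ else none
  let d : Option I → ℕ := fun o => o.elim D (fun _ => a)
  have hβn : blk β none = X := by
    ext v
    rw [blk, mem_filter, hX, mem_sdiff, mem_biUnion]
    simp only [mem_univ, true_and]
    by_cases h : ∃ i ∈ I, v ∈ H i
    · have : β v = some ⟨h.choose, h.choose_spec.1⟩ := dif_pos h
      rw [this]
      simp only [reduceCtorEq, false_iff, not_not]
      exact h
    · have : β v = none := dif_neg h
      rw [this]
      simp only [true_iff]
      exact h
  have hβs : ∀ i : I, blk β (some i) = H i := by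
    intro i
    ext v
    rw [blk, mem_filter]
    simp only [mem_univ, true_and]
    by_cases h : ∃ i ∈ I, v ∈ H i
    · have h1 : β v = some ⟨h.choose, h.choose_spec.1⟩ := dif_pos h
      rw [h1]
      constructor
      · intro h2
        have h3 : (⟨h.choose, h.choose_spec.1⟩ : I) = i := Option.some_injective _ h2
        rw [← h3]
        exact h.choose_spec.2
      · intro h2
        congr 1
        apply Subtype.ext
        by_contra hne
        exact Finset.disjoint_left.1 (hdis _ h.choose_spec.1 _ i.2 hne) h.choose_spec.2 h2
    · have h1 : β v = none := dif_neg h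
      rw [h1]
      simp only [reduceCtorEq, false_iff]
      exact fun h2 => h ⟨i, i.2, h2⟩
  have key := blocks Ω β d ?_ ?_ ?_
  · have hsum : ∑ i, d i = D + I.card * a := by
      rw [Fintype.sum_option]
      have : ∑ i : I, d (some i) = ∑ i : I, a := rfl
      rw [this, sum_const, card_univ, Fintype.card_coe, smul_eq_mul]
      rfl
    rw [← hsum]
    exact key
  · intro i
    cases i with
    | none => exact hD
    | some i => exact ha
  · intro i
    cases i with
    | none =>
      rw [hβn]
      exact hslX
    | some i =>
      rw [hβs]
      exact hsl i i.2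
  · have hXp : ∀ i : I, PeelCond Ω X (H i) D a := by
      intro i
      unfold PeelCond
      have h1 : (H i).filter (fun v => D ≤ (X.filter (fun u' => Ω.Adj u' v)).card) = ∅ := by
        rw [filter_eq_empty_iff]
        intro v _ hv
        have := hdeg v
        omega
      rw [h1]
      simp only [filter_empty, card_empty]
      have h2 : X.filter (fun _ => a ≤ 0) = ∅ := by
        rw [filter_eq_empty_iff]
        intro v _ hv
        omega
      rw [h2, card_empty]
      exact Nat.zero_le _
    intro i j hij
    cases i with
    | none =>
      cases j with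
      | none => exact absurd rfl hij
      | some j =>
        left
        rw [hβn, hβs]
        exact hXp j
    | some i =>
      cases j with
      | none =>
        right
        rw [hβn, hβs]
        exact hXp i
      | some j =>
        rw [hβs, hβs]
        have hne : (i : ℕ) ≠ j := fun h => hij (by rw [Subtype.ext h])
        rcases lt_or_gt_of_ne hne with h | h
        · left
          exact hpl i i.2 j j.2 h
        · right
          exact hpl j j.2 i i.2 h

end GCA
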