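import Pool.Agent.GCA.DetA
import Pool.Agent.GCA.SlackXB
import Pool.Agent.GCA.Struct

/-!
# GCA-DetB: the deterministic part

`t = 2^(41q)`, `Ω = (gr ω)ᶜ`; for `u ≠ v`, `Ω.Adj u v ↔ ω s(u, v) = false`.  `I = keep q A ω`, `H = two A`,
`a = 32 q - 1`, `X = univ \ I.biUnion H`,
`D = ⌊card rest / 2 + t / 64⌋₊ + 2 ^ (38 q) + 64 q rem + 13` (natural number), so by `deg_X` every `v` has at most
`D - 12` non-neighbours in `X`.  Apply `struct`:
* `hdis`: `two_disjoint`; `hsl`: `slackB` with `A (2 i)`, `A (2 i + 1)`, cliques of `gr ω` by `Sel`, and `¬ BadB`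
  (for `S`, `T` as there: all bits are `false`, so `¬ (32 q - 1 ≤ |S| + |T|)`);
* `hpl`: `¬ BadP` says that the set `R0` of `PeelCond Ω (H i) (H j) (32 q - 1) (32 q - 1)` has less than `32 q`
  elements (the filters agree because `H i`, `H j` are disjoint);
* `hslX`: `slackX`; for `hbig`: `S`, `T` disjoint (`Comp`), `2 |T| ≥ D ≥ card rest / 2 = (n - 64 q t) / 2`, hence
  `5 |T| ≥ n` because `n ≥ 2^(80 q) ≥ 320 q t` for large `q`; contradiction to `¬ BadL`.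
Result: `d = D + card I * (32 q - 1)`; with `card I ≤ t`, `card rest = n - 64 q t`, `256 q rem ≤ t`:
`d ≤ n/2 - 32 q t + t/64 + 2^(38q) + t/4 + 13 + t (32 q - 1)`, so
`2 d ≤ n - 2 t + t/32 + t/2 + 2^(38q+1) + 26 ≤ n - t ≤ n - √n` for large `q` (`√n ≤ 2^(40 q + 40) ≤ t` for `q ≥ 40`).
-/

open Finset

namespace GCA

private theorem mf {α : Type*} {s : Finset α} {p : α → Prop} {inst : DecidablePred p} {a : α} :
    a ∈ @Finset.filter α p inst s ↔ a ∈ s ∧ p a :=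
  Finset.mem_filter

private theorem adj_iff {n : ℕ} (ω : Sym2 (Fin n) → Bool) (u v : Fin n) :
    (gr ω)ᶜ.Adj u v ↔ u ≠ v ∧ ω s(u, v) = false := by
  rw [SimpleGraph.compl_adj]
  simp only [gr, ne_eq, not_and, Bool.not_eq_true]
  constructor
  · rintro ⟨h1, h2⟩
    exact ⟨h1, h2 h1⟩
  · rintro ⟨h1, h2⟩
    exact ⟨h1, fun _ => h2⟩

private theorem peel_of_not_badP {n : ℕ} (q : ℕ) (hq : 1 ≤ q) (ω : Sym2 (Fin n) → Bool)
    (A : ℕ → Finset (Fin n)) (i j : ℕ) (hd : Disjoint (two A i) (two A j)) (h : ¬ BadP q A ω i j) :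
    PeelCond (gr ω)ᶜ (two A i) (two A j) (32 * q - 1) (32 * q - 1) := by
  classical
  have hne : ∀ u ∈ two A i, ∀ v ∈ two A j, u ≠ v := by
    intro u hu v hv huv
    exact (Finset.disjoint_left.mp hd hu) (huv ▸ hv)
  have h' := not_le.mp h
  unfold PeelCond
  refine Nat.le_sub_one_of_lt (lt_of_le_of_lt (Finset.card_le_card ?_) h')
  intro u hu
  rw [mf] at hu ⊢
  obtain ⟨hu1, hu2⟩ := hu
  refine ⟨hu1, le_trans hu2 (Finset.card_le_card ?_)⟩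
  intro v hv
  rw [mf, mf] at hv ⊢
  obtain ⟨⟨hv3, hv4⟩, hv2⟩ := hv
  refine ⟨⟨hv3, le_trans hv4 (Finset.card_le_card ?_)⟩, ?_⟩
  · intro u' hu'
    rw [mf] at hu' ⊢
    obtain ⟨h1, h2⟩ := hu'
    exact ⟨h1, ((adj_iff ω u' v).mp h2).2⟩
  · exact ((adj_iff ω u v).mp hv2).2

private theorem slack_block {n : ℕ} (q : ℕ) (ω : Sym2 (Fin n) → Bool)
    (A : ℕ → Finset (Fin n)) (hS : Sel q ω A) (i : ℕ) (hi : i < 2 ^ (41 * q))
    (h : ¬ BadB q A ω i) : MrGC.Slack (gr ω)ᶜ (two A i) (32 * q - 1) := by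
  have hc : ∀ k, k < 2 * 2 ^ (41 * q) → ∀ u ∈ A k, ∀ v ∈ A k, ¬ (gr ω)ᶜ.Adj u v := by
    intro k hk u hu v hv hadj
    obtain ⟨h1, h2⟩ := (adj_iff ω u v).mp hadj
    have := (hS k hk).2.2 u hu v hv h1
    rw [this] at h2
    exact Bool.noConfusion h2
  refine slackB (gr ω)ᶜ (A (2 * i)) (A (2 * i + 1)) (32 * q - 1) (hc _ (by omega)) (hc _ (by omega)) ?_
  intro S hSA T hTA hSn hTn hcomp
  by_contra hlt
  apply h
  refine ⟨S, hSA, T, hTA, hSn, hTn, not_lt.mp hlt, ?_⟩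
  intro u hu v hv
  exact ((adj_iff ω u v).mp (hcomp u hu v hv)).2

private theorem numer (q t s38 r rm n fl c : ℕ) (hq : 40 ≤ q) (hrc : r + 64 * q * t = n)
    (hs_t : 32 * s38 ≤ t) (h1024 : 1024 ≤ t) (hsq : √(n : ℝ) ≤ t)
    (hfl1 : (fl : ℝ) ≤ (r : ℝ) / 2 + (t : ℝ) / 64) (hrem : 256 * q * rm ≤ t) (hc : c ≤ t) :
    2 * ((fl + s38 + 64 * q * rm + 13 + c * (32 * q - 1) : ℕ) : ℝ) + √(n : ℝ) ≤ n := by
  have hq1 : 1 ≤ 32 * q := by omega
  have h1 : ((c * (32 * q - 1) : ℕ) : ℝ) ≤ t * (32 * q - 1) := by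
    have h2 : c * (32 * q - 1) ≤ t * (32 * q - 1) := Nat.mul_le_mul_right _ hc
    have h3 : ((c * (32 * q - 1) : ℕ) : ℝ) ≤ ((t * (32 * q - 1) : ℕ) : ℝ) := by
      exact_mod_cast h2
    refine le_trans h3 (le_of_eq ?_)
    rw [Nat.cast_mul, Nat.cast_sub hq1]
    push_cast
    ring
  have hremR : (256 : ℝ) * q * rm ≤ t := by exact_mod_cast hrem
  have hrcR : (r : ℝ) + 64 * q * t = n := by exact_mod_cast hrc
  have hstR : (32 : ℝ) * s38 ≤ t := by exact_mod_cast hs_t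
  have h1024R : (1024 : ℝ) ≤ t := by exact_mod_cast h1024
  rw [Nat.cast_add]
  have h2 : ((fl + s38 + 64 * q * rm + 13 : ℕ) : ℝ) = fl + s38 + 64 * q * rm + 13 := by
    push_cast
    ring
  rw [h2]
  nlinarith

private theorem large_T (q t s38 r rm n fl T : ℕ) (hrc : r + 64 * q * t = n)
    (hn : 320 * q * t ≤ n) (hfl2 : (r : ℝ) / 2 + (t : ℝ) / 64 < (fl : ℝ) + 1)
    (hT : fl + s38 + 64 * q * rm + 13 ≤ 2 * T) : n ≤ 5 * T := by
  have h1 : (r : ℝ) / 2 ≤ 2 * (T : ℝ) := by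
    have h2 : ((fl + s38 + 64 * q * rm + 13 : ℕ) : ℝ) ≤ 2 * (T : ℝ) := by exact_mod_cast hT
    have h3 : ((fl + s38 + 64 * q * rm + 13 : ℕ) : ℝ) = fl + s38 + 64 * q * rm + 13 := by
      push_cast
      ring
    have h4 : (0 : ℝ) ≤ (s38 : ℝ) + 64 * q * rm := by positivity
    have h5 : (0 : ℝ) ≤ (t : ℝ) / 64 := by positivity
    linarith
  have h2 : r ≤ 4 * T := by
    have : (r : ℝ) ≤ 4 * (T : ℝ) := by linarith
    exact_mod_cast this
  have h3 : 64 * q * t = 64 * (q * t) := by ring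
  have h4 : 320 * q * t = 320 * (q * t) := by ring
  rw [h3] at hrc
  rw [h4] at hn
  omega

private theorem consts (q n : ℕ) (hq : 40 ≤ q) (hn1 : 2 ^ (80 * q) ≤ n)
    (hn2 : n < 2 ^ (80 * (q + 1))) :
    32 * 2 ^ (38 * q) ≤ 2 ^ (41 * q) ∧ 1024 ≤ 2 ^ (41 * q) ∧
      √(n : ℝ) ≤ ((2 ^ (41 * q) : ℕ) : ℝ) ∧ 320 * q * 2 ^ (41 * q) ≤ n := by
  refine ⟨?_, ?_, ?_, ?_⟩
  · rw [show (32 : ℕ) = 2 ^ 5 by norm_num, ← pow_add]
    exact Nat.pow_le_pow_right (by norm_num) (by omega)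
  · rw [show (1024 : ℕ) = 2 ^ 10 by norm_num]
    exact Nat.pow_le_pow_right (by norm_num) (by omega)
  · rw [Real.sqrt_le_left (Nat.cast_nonneg _)]
    have h1 : n ≤ (2 ^ (41 * q)) ^ 2 := by
      refine le_trans hn2.le ?_
      rw [← pow_mul]
      exact Nat.pow_le_pow_right (by norm_num) (by omega)
    exact_mod_cast h1
  · refine le_trans ?_ hn1
    have hqq : q ≤ 2 ^ q := Nat.lt_two_pow_self.le
    calc 320 * q * 2 ^ (41 * q) ≤ 2 ^ 9 * 2 ^ q * 2 ^ (41 * q) := by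
          refine Nat.mul_le_mul (Nat.mul_le_mul (by norm_num) hqq) le_rfl
      _ = 2 ^ (9 + q + 41 * q) := by rw [← pow_add, ← pow_add]
      _ ≤ 2 ^ (80 * q) := Nat.pow_le_pow_right (by norm_num) (by omega)

theorem det : ∃ q0 : ℕ, ∀ q ≥ q0, ∀ n : ℕ, Par n q → ∀ (ω : Sym2 (Fin n) → Bool) (A : ℕ → Finset (Fin n)),
    Sel q ω A → ¬ BadL ω → ¬ BadD q (rest q A) ω → 256 * q * rem q A ω ≤ 2 ^ (41 * q) →
      ∃ d, MrGC.PR (gr ω)ᶜ d ∧ 2 * (d : ℝ) + √(n : ℝ) ≤ n := by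
  classical
  refine ⟨40, fun q hq n hn ω A hS hL hDd hrem => ?_⟩
  obtain ⟨hs_t, h1024, hsq, hnbig⟩ := consts q n hq hn.1 hn.2
  have hrc := rest_card q ω A hS
  have hdegX := deg_X q ω A hS hDd
  -- the set I
  have hI : ∀ i ∈ keep q A ω, i < 2 ^ (41 * q) ∧ ¬ BadB q A ω i ∧
      ∀ j, i < j → j < 2 ^ (41 * q) → ¬ BadP q A ω i j := by
    intro i hi
    unfold keep at hi
    rw [mem_filter, mem_range] at hi
    exact hi
  have hIc : (keep q A ω).card ≤ 2 ^ (41 * q) := by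
    have : keep q A ω ⊆ range (2 ^ (41 * q)) := fun i hi => mem_range.mpr (hI i hi).1
    exact le_trans (card_le_card this) (card_range _).le
  have hdis : ∀ i ∈ keep q A ω, ∀ j ∈ keep q A ω, i ≠ j → Disjoint (two A i) (two A j) :=
    fun i hi j hj hij => two_disjoint q ω A hS i j (hI i hi).1 (hI j hj).1 hij
  have hslI : ∀ i ∈ keep q A ω, MrGC.Slack (gr ω)ᶜ (two A i) (32 * q - 1) :=
    fun i hi => slack_block q ω A hS i (hI i hi).1 (hI i hi).2.1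
  have hplI : ∀ i ∈ keep q A ω, ∀ j ∈ keep q A ω, i < j →
      PeelCond (gr ω)ᶜ (two A i) (two A j) (32 * q - 1) (32 * q - 1) :=
    fun i hi j hj hij => peel_of_not_badP q (by omega) ω A i j
      (hdis i hi j hj (by omega)) ((hI i hi).2.2 j hij (hI j hj).1)
  obtain ⟨X, hX⟩ : ∃ X : Finset (Fin n), X = univ \ (keep q A ω).biUnion (two A) := ⟨_, rfl⟩
  rw [← hX] at hdegX
  -- opaque numbers
  have e41 : (2 : ℝ) ^ (41 * q) = ((2 ^ (41 * q) : ℕ) : ℝ) := by push_cast; rfl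
  have e38 : (2 : ℝ) ^ (38 * q) = ((2 ^ (38 * q) : ℕ) : ℝ) := by push_cast; rfl
  rw [e41, e38] at hdegX
  clear hI hDd hn e41 e38
  generalize (2 ^ (41 * q) : ℕ) = t at *
  generalize (2 ^ (38 * q) : ℕ) = s38 at *
  generalize (rest q A).card = r at *
  generalize rem q A ω = rm at *
  have hfl1 : ((⌊(r : ℝ) / 2 + (t : ℝ) / 64⌋₊ : ℕ) : ℝ) ≤ (r : ℝ) / 2 + (t : ℝ) / 64 :=
    Nat.floor_le (by positivity)
  have hfl2 : (r : ℝ) / 2 + (t : ℝ) / 64 < ((⌊(r : ℝ) / 2 + (t : ℝ) / 64⌋₊ : ℕ) : ℝ) + 1 :=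
    Nat.lt_floor_add_one _
  generalize ⌊(r : ℝ) / 2 + (t : ℝ) / 64⌋₊ = fl at *
  have hdeg : ∀ (v : Fin n) (Y : Finset (Fin n)), (∀ u ∈ Y, u ∈ X ∧ (gr ω)ᶜ.Adj v u) →
      Y.card + 13 ≤ fl + s38 + 64 * q * rm + 13 := by
    intro v Y hY
    have h2 : (Y.card : ℝ) ≤ (r : ℝ) / 2 + (t : ℝ) / 64 + s38 + 64 * q * rm := by
      refine le_trans (Nat.cast_le.mpr (Finset.card_le_card ?_)) (hdegX v)
      intro u hu
      rw [mf]
      exact hY u hu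
    have h3 : Y.card < fl + 1 + s38 + 64 * q * rm := by
      have : (Y.card : ℝ) < ((fl + 1 + s38 + 64 * q * rm : ℕ) : ℝ) := by
        push_cast
        linarith
      exact_mod_cast this
    omega
  have hdeg11 : ∀ (v : Fin n) (Y : Finset (Fin n)), (∀ u ∈ Y, u ∈ X ∧ (gr ω)ᶜ.Adj v u) →
      Y.card + 11 ≤ fl + s38 + 64 * q * rm + 13 := by
    intro v Y hY
    have := hdeg v Y hY
    omega
  have hdeglt : ∀ (v : Fin n) (Y : Finset (Fin n)), (∀ u ∈ Y, u ∈ X ∧ (gr ω)ᶜ.Adj v u) →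
      Y.card < fl + s38 + 64 * q * rm + 13 := by
    intro v Y hY
    have := hdeg v Y hY
    omega
  have hslX : MrGC.Slack (gr ω)ᶜ X (fl + s38 + 64 * q * rm + 13) := by
    refine slackX (gr ω)ᶜ X _ ?_ ?_
    · intro v _
      exact hdeg11 v _ (fun u hu => by rw [mf] at hu; exact hu)
    · intro S _ T _ hcomp h11 hDT
      apply hL
      refine ⟨S, T, ?_, h11, large_T q t s38 r rm n fl T.card hrc hnbig hfl2 hDT, ?_⟩
      · rw [Finset.disjoint_left]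
        intro u hu hv
        exact (hcomp u hu u hv).ne rfl
      · intro u hu v hv
        exact ((adj_iff ω u v).mp (hcomp u hu v hv)).2
  have hPR := struct (gr ω)ᶜ (32 * q - 1) (by omega) (keep q A ω) (two A) hdis hslI hplI
    X hX (fl + s38 + 64 * q * rm + 13) (by omega) hslX (by
      intro v
      exact hdeglt v _ (fun u hu => by
        rw [mf] at hu
        exact ⟨hu.1, hu.2.symm⟩))
  exact ⟨_, hPR, numer q t s38 r rm n fl _ hq hrc hs_t h1024 hsq hfl1 hrem hIc⟩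

end GCA
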