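import Pool.Agent.GCA.PrA

/-!
# GCA-FOne: at most `q` of the `64 q` columns are good only with probability at most `(1/2) ^ (52 q)`

`f : R × C → Bool`; column `v` is good if `#{u | f (u, v) = false} < 32 q - 1`; the columns are independent and
each is bad with probability `≤ 51/100` (hypothesis `hβ`).
Exponential moment: with `b = card {g : R → Bool | bad}`, `T = 2 ^ card R`,
`∑_f ∏_v w (column v) = (b + (T - b) / 16) ^ (64 q)` where `w = 1` for a bad and `1/16` for a good column (use the
equivalence `(R × C → Bool) ≃ (C → R → Bool)`, `Finset.prod_univ_sum` / `Fintype.sum_pow` /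
`Finset.sum_prod_piFinset`).  On the event (at most `q` good columns) the product is at least `(1/16) ^ q`; so
`pr ≤ 16 ^ q * (β + (1 - β) / 16) ^ (64 q)`, `β ≤ 51/100`, `β + (1-β)/16 ≤ 5407/10000`, and
`16 * (5407/10000) ^ 64 ≤ (1/2) ^ 52` by `norm_num`.
-/

open Finset

namespace GCA

private lemma fOne_num : (16 : ℝ) * (5407 / 10000) ^ 64 ≤ (1 / 2) ^ 52 := by norm_num

open Classical in
private lemma fOne_sum {R C : Type} [Fintype R] [DecidableEq R] [Fintype C] [DecidableEq C]
    (w : (R → Bool) → ℝ) :
    ∑ f : R × C → Bool, ∏ v : C, w (fun u => f (u, v)) =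
      (∑ g : R → Bool, w g) ^ Fintype.card C := by
  have h1 : ∑ f : R × C → Bool, ∏ v : C, w (fun u => f (u, v)) =
      ∑ F : C → R → Bool, ∏ v : C, w (F v) := by
    refine Fintype.sum_equiv
      { toFun := fun f v u => f (u, v)
        invFun := fun F p => F p.2 p.1
        left_inv := fun f => rfl
        right_inv := fun F => rfl } _ _ fun f => rfl
  have h2 := Finset.prod_univ_sum (fun _ : C => (univ : Finset (R → Bool)))
    (fun _ g => w g)
  rw [Fintype.piFinset_univ] at h2
  rw [h1, ← h2, prod_const, card_univ]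

theorem fOne (q : ℕ) (R C : Type) [Fintype R] [DecidableEq R] [Fintype C] [DecidableEq C]
    (hC : Fintype.card C = 64 * q)
    (hβ : pr (fun f : R → Bool => 32 * q - 1 ≤ (univ.filter (fun i => f i = false)).card) ≤ 51 / 100) :
    pr (fun f : R × C → Bool => (univ.filter (fun v : C =>
      ¬ (32 * q - 1 ≤ (univ.filter (fun u : R => f (u, v) = false)).card))).card ≤ q)
      ≤ (1 / 2) ^ (52 * q) := by
  classical
  obtain ⟨w, hw⟩ : ∃ w : (R → Bool) → ℝ, w = fun g =>
    if 32 * q - 1 ≤ (univ.filter (fun i => g i = false)).card then 1 else 1 / 16 := ⟨_, rfl⟩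
  have hw0 : ∀ g, 0 ≤ w g := by
    intro g
    rw [hw]
    dsimp only
    split_ifs <;> norm_num
  -- the total weight of a column
  have hT : ∑ g : R → Bool, w g ≤ (5407 / 10000) * 2 ^ Fintype.card R := by
    have h1 : ∀ g : R → Bool, w g = 1 / 16 + (15 / 16) *
        (if 32 * q - 1 ≤ (univ.filter (fun i => g i = false)).card then 1 else 0) := by
      intro g
      rw [hw]
      dsimp only
      split_ifs <;> norm_num
    have h2 : ∑ g : R → Bool, w g = (1 / 16) * 2 ^ Fintype.card R + (15 / 16) *
        ((univ.filter (fun g : R → Bool =>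
          32 * q - 1 ≤ (univ.filter (fun i => g i = false)).card)).card : ℝ) := by
      rw [sum_congr rfl fun g _ => h1 g, sum_add_distrib, ← mul_sum, sum_const, card_univ,
        Fintype.card_fun, Fintype.card_bool, nsmul_eq_mul, Finset.sum_boole]
      push_cast
      ring
    have h3 : ((univ.filter (fun g : R → Bool =>
        32 * q - 1 ≤ (univ.filter (fun i => g i = false)).card)).card : ℝ) ≤
        51 / 100 * 2 ^ Fintype.card R := by
      unfold pr at hβ
      rw [div_le_iff₀ (by positivity)] at hβ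
      refine le_trans (le_of_eq ?_) hβ
      congr 2
      ext g
      simp only [mem_filter]
    rw [h2]
    have h4 : (0 : ℝ) < 2 ^ Fintype.card R := by positivity
    nlinarith
  have hS := fOne_sum (C := C) w
  rw [hC] at hS
  -- the event
  unfold pr
  obtain ⟨Ev, hEv⟩ : ∃ Ev : Finset (R × C → Bool), Ev = univ.filter (fun f : R × C → Bool =>
    (univ.filter (fun v : C =>
      ¬ (32 * q - 1 ≤ (univ.filter (fun u : R => f (u, v) = false)).card))).card ≤ q) := ⟨_, rfl⟩
  have hEv' : ((univ.filter (fun f : R × C → Bool => (univ.filter (fun v : C =>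
      ¬ (32 * q - 1 ≤ (univ.filter (fun u : R => f (u, v) = false)).card))).card ≤ q)).card : ℝ) =
      (Ev.card : ℝ) := by
    rw [hEv]
  have hlow : (Ev.card : ℝ) * (1 / 16) ^ q ≤ (∑ g : R → Bool, w g) ^ (64 * q) := by
    rw [← hS, ← nsmul_eq_mul, ← sum_const]
    calc ∑ _f ∈ Ev, ((1 : ℝ) / 16) ^ q ≤ ∑ f ∈ Ev, ∏ v : C, w (fun u => f (u, v)) := by
          refine sum_le_sum fun f hf => ?_
          rw [hEv, mem_filter] at hf
          have h1 : ∏ v : C, w (fun u => f (u, v)) = (1 / 16) ^ (univ.filter (fun v : C =>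
              ¬ (32 * q - 1 ≤ (univ.filter (fun u : R => f (u, v) = false)).card))).card := by
            rw [← prod_const, prod_filter]
            refine prod_congr rfl fun v _ => ?_
            rw [hw]
            dsimp only
            by_cases h2 : 32 * q - 1 ≤ (univ.filter (fun u : R => f (u, v) = false)).card
            · rw [if_pos h2, if_neg (not_not.2 h2)]
            · rw [if_neg h2, if_pos h2]
          rw [h1]
          exact pow_le_pow_of_le_one (by norm_num) (by norm_num) hf.2
      _ ≤ ∑ f : R × C → Bool, ∏ v : C, w (fun u => f (u, v)) :=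
          sum_le_sum_of_subset_of_nonneg (subset_univ _)
            fun f _ _ => prod_nonneg fun v _ => hw0 _
  have hcard : (2 : ℝ) ^ Fintype.card (R × C) = (2 ^ Fintype.card R) ^ (64 * q) := by
    rw [Fintype.card_prod, hC, pow_mul]
  have h16 : (Ev.card : ℝ) ≤ 16 ^ q * (∑ g : R → Bool, w g) ^ (64 * q) := by
    have h1 : (16 : ℝ) ^ q * (1 / 16) ^ q = 1 := by
      rw [← mul_pow]; norm_num
    calc (Ev.card : ℝ) = 16 ^ q * ((Ev.card : ℝ) * (1 / 16) ^ q) := by
          rw [mul_left_comm, h1, mul_one]
      _ ≤ 16 ^ q * (∑ g : R → Bool, w g) ^ (64 * q) :=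
          mul_le_mul_of_nonneg_left hlow (by positivity)
  have hfin : (Ev.card : ℝ) ≤ (1 / 2) ^ (52 * q) * 2 ^ Fintype.card (R × C) := by
    rw [hcard]
    calc (Ev.card : ℝ) ≤ 16 ^ q * (∑ g : R → Bool, w g) ^ (64 * q) := h16
      _ ≤ 16 ^ q * ((5407 / 10000) * 2 ^ Fintype.card R) ^ (64 * q) := by
          refine mul_le_mul_of_nonneg_left ?_ (by positivity)
          exact pow_le_pow_left₀ (sum_nonneg fun g _ => hw0 g) hT _
      _ = (16 * (5407 / 10000) ^ 64) ^ q * (2 ^ Fintype.card R) ^ (64 * q) := by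
          rw [mul_pow, mul_pow, pow_mul (5407 / 10000 : ℝ) 64 q]
          ring
      _ ≤ ((1 / 2) ^ 52) ^ q * (2 ^ Fintype.card R) ^ (64 * q) := by
          refine mul_le_mul_of_nonneg_right ?_ (by positivity)
          exact pow_le_pow_left₀ (by positivity) fOne_num _
      _ = (1 / 2) ^ (52 * q) * (2 ^ Fintype.card R) ^ (64 * q) := by
          rw [← pow_mul]
  rw [div_le_iff₀ (by positivity)]
  refine le_trans (le_of_eq ?_) hfin
  rw [← hEv']
  congr 2
  ext f
  simp only [mem_filter]

end GCA
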