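import Pool.Agent.GCA.Hoef
import Pool.Agent.GCA.PrB

/-!
# GCA-FTwo: many rows with many `false` entries in a set of at most `63 q` columns

Union bound over `S : Finset C` (at most `2 ^ (64 q)` sets) and `T : Finset R` (at most `2 ^ (64 q)` sets).  For
fixed `S`, `T` with `S.card ≤ 63 q`, `T.card = 32 q` the rows are independent: with
`κ = pr (g : S → Bool, 32 q - 1 ≤ #false)` the probability is `κ ^ (32 q)` (restrict the bits to `T × S` with
`pr_inj`, then `(T × S → Bool) ≃ (T → S → Bool)` and `card (piFinset)`), and by `hoef`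
(`d = 32 q - 1 - S.card / 2 ≥ q / 2 - 1 ≥ 0`) `κ ≤ exp (-(2 d ^ 2 / S.card)) ≤ exp (-((q - 2) ^ 2 / (126 q)))` (if
`S.card = 0` the event is empty for `q ≥ 1`).  Total: `≤ 2 ^ (128 q) exp (-(32 q (q-2)^2 / (126 q))) ≤ (1/2) ^ (52 q)`
as soon as `(32/126) (q-2)^2 ≥ 180 q log 2`; `q0 = 1000` is enough (`180 log 2 < 125`).
-/

open Finset

namespace GCA

/-- independence of the rows -/
private theorem fTwo_rows {A B : Type*} [Fintype A] [DecidableEq A] [Fintype B] [DecidableEq B]
    (P : (B → Bool) → Prop) :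
    pr (fun h : A × B → Bool => ∀ a, P (fun b => h (a, b))) = pr P ^ Fintype.card A := by
  classical
  unfold pr
  rw [div_pow, ← pow_mul, Fintype.card_prod, mul_comm (Fintype.card A) (Fintype.card B)]
  congr 1
  rw [← Nat.cast_pow, Nat.cast_inj]
  calc _ = (Fintype.piFinset (fun _ : A => univ.filter P)).card := by
        refine Finset.card_bij (fun h _ => fun a b => h (a, b)) ?_ ?_ ?_
        · intro h hh
          simp only [Finset.mem_filter, Finset.mem_univ, true_and] at hh
          simp only [Fintype.mem_piFinset, Finset.mem_filter, Finset.mem_univ, true_and]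
          exact hh
        · intro h1 _ h2 _ he
          funext p
          exact congrFun (congrFun he p.1) p.2
        · intro g hg
          refine ⟨fun p => g p.1 p.2, ?_, rfl⟩
          simp only [Fintype.mem_piFinset, Finset.mem_filter, Finset.mem_univ, true_and] at hg
          simp only [Finset.mem_filter, Finset.mem_univ, true_and]
          exact hg
    _ = _ := by
        rw [Fintype.card_piFinset]
        simp

private theorem fTwo_fix {R C : Type*} [Fintype R] [DecidableEq R] [Fintype C] [DecidableEq C]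
    (S : Finset C) (T : Finset R) (P : (S → Bool) → Prop) :
    pr (fun f : R × C → Bool => ∀ a : T, P (fun b => f (a.1, b.1))) = pr P ^ T.card := by
  have h2 := pr_inj (fun p : T × S => ((p.1.1, p.2.1) : R × C)) (by
      intro p1 p2 he
      simp only [Prod.mk.injEq] at he
      exact Prod.ext (Subtype.ext he.1) (Subtype.ext he.2))
      (fun h : T × S → Bool => ∀ a : T, P (fun b => h (a, b)))
  have h3 := fTwo_rows (A := T) P
  rw [Fintype.card_coe] at h3
  rw [← h3, ← h2]

private theorem fTwo_sub {R C : Type*} [Fintype R] [DecidableEq R] [Fintype C] [DecidableEq C]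
    (S : Finset C) (T : Finset R) (N : ℕ) (f : R × C → Bool)
    (hf : ∀ u ∈ T, N ≤ (S.filter (fun v => f (u, v) = false)).card) (a : T) :
    N ≤ (univ.filter (fun b : S => f (a.1, b.1) = false)).card := by
  refine (hf a.1 a.2).trans (le_of_eq ?_)
  refine (Finset.card_bij (fun (b : S) _ => b.1) ?_ ?_ ?_).symm
  · intro b hb
    simp only [Finset.mem_filter, Finset.mem_univ, true_and] at hb
    simp only [Finset.mem_filter]
    exact ⟨b.2, hb⟩
  · intro b1 _ b2 _ he
    exact Subtype.ext he
  · intro v hv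
    simp only [Finset.mem_filter] at hv
    refine ⟨⟨v, hv.1⟩, ?_, rfl⟩
    simp only [Finset.mem_filter, Finset.mem_univ, true_and]
    exact hv.2

private theorem fTwo_kappa {B : Type*} [Fintype B] [DecidableEq B] (q : ℕ) (hq : 2 ≤ q)
    (hB : Fintype.card B ≤ 63 * q) :
    pr (fun g : B → Bool => 32 * q - 1 ≤ (univ.filter (fun b => g b = false)).card)
      ≤ Real.exp (-(((q : ℝ) - 2) ^ 2 / (126 * q))) := by
  have hq' : (2 : ℝ) ≤ q := by exact_mod_cast hq
  rcases Nat.eq_zero_or_pos (Fintype.card B) with h0 | hpos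
  · have : pr (fun g : B → Bool => 32 * q - 1 ≤ (univ.filter (fun b => g b = false)).card)
        ≤ pr (fun _ : B → Bool => False) := by
      apply pr_mono
      intro g hg
      have h1 : (univ.filter (fun b => g b = false)).card ≤ Fintype.card B := by
        simpa using Finset.card_le_univ (univ.filter (fun b => g b = false))
      omega
    rw [pr_false] at this
    exact this.trans (Real.exp_pos _).le
  · have hBr : (Fintype.card B : ℝ) ≤ 63 * q := by exact_mod_cast hB
    have hBp : (0 : ℝ) < Fintype.card B := by exact_mod_cast hpos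
    set d : ℝ := 32 * q - 1 - (Fintype.card B : ℝ) / 2 with hd
    have hd1 : ((q : ℝ) - 2) / 2 ≤ d := by rw [hd]; linarith
    have hd0 : 0 ≤ d := by linarith
    refine le_trans (pr_mono (Q := fun f : B → Bool => (Fintype.card B : ℝ) / 2 + d ≤
      ((univ.filter (fun i => f i = false)).card : ℝ)) ?_) ((hoef d hd0).trans ?_)
    · intro g hg
      have : ((32 * q - 1 : ℕ) : ℝ) ≤ ((univ.filter (fun b => g b = false)).card : ℝ) := by
        exact_mod_cast hg
      rw [Nat.cast_sub (by omega)] at this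
      push_cast at this
      rw [hd]
      linarith
    · rw [Real.exp_le_exp, neg_le_neg_iff]
      have hq0 : (0 : ℝ) < 126 * q := by linarith
      rw [div_le_div_iff₀ hq0 hBp]
      have e1 : ((q : ℝ) - 2) ^ 2 ≤ 4 * d ^ 2 := by nlinarith
      have e2 : (0 : ℝ) ≤ ((q : ℝ) - 2) ^ 2 := sq_nonneg _
      nlinarith [sq_nonneg d]

theorem fTwo : ∃ q0 : ℕ, ∀ q ≥ q0, ∀ (R C : Type) [Fintype R] [DecidableEq R] [Fintype C] [DecidableEq C],
    Fintype.card R = 64 * q → Fintype.card C = 64 * q →
    pr (fun f : R × C → Bool => ∃ S : Finset C, S.card ≤ 63 * q ∧ ∃ T : Finset R, T.card = 32 * q ∧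
      ∀ u ∈ T, 32 * q - 1 ≤ (S.filter (fun v => f (u, v) = false)).card) ≤ (1 / 2) ^ (52 * q) := by
  refine ⟨1000, fun q hq R C _ _ _ _ hR hC => ?_⟩
  have hqr : (1000 : ℝ) ≤ q := by exact_mod_cast hq
  set κ : ℝ := Real.exp (-(((q : ℝ) - 2) ^ 2 / (126 * q))) with hκ
  have key : ∀ (S : Finset C) (T : Finset R), S.card ≤ 63 * q → T.card = 32 * q →
      pr (fun f : R × C → Bool => ∀ u ∈ T, 32 * q - 1 ≤ (S.filter (fun v => f (u, v) = false)).card)
        ≤ κ ^ (32 * q) := by
    intro S T hS hT
    have h1 := fTwo_fix (R := R) S T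
      (fun g : S → Bool => 32 * q - 1 ≤ (univ.filter (fun b => g b = false)).card)
    refine (pr_mono (fun f hf a => fTwo_sub S T (32 * q - 1) f hf a)).trans (h1.le.trans ?_)
    rw [hT]
    refine pow_le_pow_left₀ (pr_nonneg _) ?_ _
    exact fTwo_kappa q (by omega) (by rw [Fintype.card_coe]; exact hS)
  have hsum : pr (fun f : R × C → Bool => ∃ S : Finset C, S.card ≤ 63 * q ∧
      ∃ T : Finset R, T.card = 32 * q ∧
      ∀ u ∈ T, 32 * q - 1 ≤ (S.filter (fun v => f (u, v) = false)).card)
      ≤ ∑ p ∈ (univ : Finset (Finset C × Finset R)), κ ^ (32 * q) := by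
    have h1 : pr (fun f : R × C → Bool => ∃ S : Finset C, S.card ≤ 63 * q ∧
        ∃ T : Finset R, T.card = 32 * q ∧
        ∀ u ∈ T, 32 * q - 1 ≤ (S.filter (fun v => f (u, v) = false)).card)
        ≤ pr (fun f : R × C → Bool => ∃ p ∈ (univ : Finset (Finset C × Finset R)),
          (p.1.card ≤ 63 * q ∧ p.2.card = 32 * q ∧
            ∀ u ∈ p.2, 32 * q - 1 ≤ (p.1.filter (fun v => f (u, v) = false)).card)) := by
      apply pr_mono
      rintro f ⟨S, hS, T, hT, h⟩
      exact ⟨(S, T), Finset.mem_univ _, hS, hT, h⟩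
    refine h1.trans ((pr_exists _ _).trans (Finset.sum_le_sum ?_))
    intro p _
    by_cases hp : p.1.card ≤ 63 * q ∧ p.2.card = 32 * q
    · refine le_trans (pr_mono ?_) (key p.1 p.2 hp.1 hp.2)
      intro f hf
      exact hf.2.2
    · refine le_trans (pr_mono (Q := fun _ => False) ?_) ?_
      · intro f hf
        exact hp ⟨hf.1, hf.2.1⟩
      · rw [pr_false]
        exact pow_nonneg (Real.exp_pos _).le _
  refine hsum.trans ?_
  rw [Finset.sum_const, Finset.card_univ, Fintype.card_prod, Fintype.card_finset,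
    Fintype.card_finset, hR, hC, nsmul_eq_mul]
  push_cast
  have e1 : ((2 : ℝ) ^ (64 * q) * 2 ^ (64 * q)) = Real.exp (128 * q * Real.log 2) := by
    rw [← pow_add, show 64 * q + 64 * q = 128 * q by ring, ← Real.exp_log (by norm_num : (0:ℝ) < 2),
      ← Real.exp_nat_mul]
    simp
  have e2 : κ ^ (32 * q) = Real.exp (-(32 * ((q : ℝ) - 2) ^ 2 / 126)) := by
    rw [hκ, ← Real.exp_nat_mul]
    congr 1
    push_cast
    have : (q : ℝ) ≠ 0 := by linarith
    field_simp
  have e3 : ((1 : ℝ) / 2) ^ (52 * q) = Real.exp (-(52 * q * Real.log 2)) := by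
    rw [show (1 : ℝ) / 2 = Real.exp (-Real.log 2) by
      rw [Real.exp_neg, Real.exp_log (by norm_num)]; norm_num, ← Real.exp_nat_mul]
    congr 1
    push_cast
    ring
  rw [e1, e2, e3, ← Real.exp_add, Real.exp_le_exp]
  have hl : Real.log 2 < 0.6931471808 := Real.log_two_lt_d9
  have hl0 : 0 < Real.log 2 := Real.log_pos (by norm_num)
  nlinarith [mul_le_mul_of_nonneg_left hl.le (by linarith : (0:ℝ) ≤ 180 * q)]

end GCA
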