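import Pool.Agent.GCA.Hoef
import Pool.Agent.GCA.PrB

/-!
# GCA-Greedy: cliques in random graphs

Induction on `s` (for all `B`).  `s = 0`: `A = ∅`, the event is empty.  Step: `9^(s+1) L ≤ 4^(s+1) |B|`, so
`|B| ≥ (9/4)^(s+1) L ≥ L ≥ 90`; take `v ∈ B` and `B' = B.erase v`.  Use `pr_mrg` with `D e = decide (v ∈ e)` (so the bits
at `v` are taken from `ω`, all others from `ω'`), `P` = the event of the theorem for `s + 1` and
`G0 ω` = `4 |B| ≤ 9 #{w ∈ B' | ω s(v, w) = true}`.
* `pr (¬ G0) ≤ exp (-(L/200))`: `pr_inj` for `w ↦ s(v, w)` on `B'` and `hoef` with `d = |B|/20`: `¬ G0` says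
  `#true < 4/9 |B|`, so `#false = |B| - 1 - #true > 5/9 |B| - 1 ≥ (|B|-1)/2 + |B|/20` since `|B| ≥ 90`
  (`|B|/18 - 1/2 ≥ |B|/20`), and `2 d^2 / (|B| - 1) ≥ |B| / 200 ≥ L / 200`.
* given `G0 ω`, put `S = B'.filter (fun w => ω s(v, w) = true)`; `9^s L ≤ 4^s |S|`; if the bits `ω'` have a clique
  `A ⊆ S` with `s` elements then `insert v A` is a clique of `mrg D ω ω'` with `s + 1` elements (the pairs inside `S`
  do not contain `v`).  So `pr (fun ω' => P (mrg D ω ω')) ≤` induction hypothesis for `S`.
Total `(s + 1) exp (-(L / 200))`.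
-/

open Finset

namespace GCA

private theorem card_sub {α : Type*} [DecidableEq α] (B : Finset α) (p : α → Prop) [DecidablePred p] :
    ((univ : Finset {w // w ∈ B}).filter (fun i => p i.1)).card = (B.filter p).card := by
  refine Finset.card_bij (fun i _ => i.1) ?_ ?_ ?_
  · intro i hi
    simp only [mem_filter, mem_univ, true_and] at hi
    exact mem_filter.mpr ⟨i.2, hi⟩
  · intro i _ j _ h
    exact Subtype.ext h
  · intro w hw
    have hw' := mem_filter.mp hw
    exact ⟨⟨w, hw'.1⟩, by simp [hw'.2], rfl⟩

private theorem deg_pr {n : ℕ} (L : ℝ) (B : Finset (Fin n)) (v : Fin n) (hv : v ∈ B)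
    (hB : 90 ≤ (B.card : ℝ)) (hLB : L ≤ B.card) :
    pr (fun ω : Sym2 (Fin n) → Bool =>
      ¬ (4 * B.card ≤ 9 * ((B.erase v).filter (fun w => ω s(v, w) = true)).card)) ≤
        Real.exp (-(L / 200)) := by
  have hcard : Fintype.card {w // w ∈ B.erase v} = B.card - 1 := by
    rw [Fintype.card_coe, Finset.card_erase_of_mem hv]
  have hpos : 0 < B.card := Finset.card_pos.mpr ⟨v, hv⟩
  have hcardR : (Fintype.card {w // w ∈ B.erase v} : ℝ) = B.card - 1 := by
    rw [hcard, Nat.cast_sub (by omega)]
    simp
  have hinj : Function.Injective (fun w : {w // w ∈ B.erase v} => s(v, w.1)) := by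
    intro a b h
    exact Subtype.ext (Sym2.congr_right.mp h)
  have key := pr_inj (fun w : {w // w ∈ B.erase v} => s(v, w.1)) hinj
    (fun f : {w // w ∈ B.erase v} → Bool =>
      ¬ (4 * B.card ≤ 9 * ((univ : Finset {w // w ∈ B.erase v}).filter (fun i => f i = true)).card))
  have e1 : (fun ω : Sym2 (Fin n) → Bool =>
      ¬ (4 * B.card ≤ 9 * ((B.erase v).filter (fun w => ω s(v, w) = true)).card))
      = (fun ω : Sym2 (Fin n) → Bool =>
        ¬ (4 * B.card ≤ 9 * ((univ : Finset {w // w ∈ B.erase v}).filter
          (fun i => ω s(v, i.1) = true)).card)) := by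
    funext ω
    rw [card_sub (B.erase v) (fun w => ω s(v, w) = true)]
  rw [e1, key]
  have hh := hoef (I := {w // w ∈ B.erase v}) ((B.card : ℝ) / 20) (by positivity)
  refine le_trans (pr_mono ?_) (le_trans hh ?_)
  · intro f hf
    have hsum : ((univ : Finset {w // w ∈ B.erase v}).filter (fun i => f i = true)).card +
        ((univ : Finset {w // w ∈ B.erase v}).filter (fun i => f i = false)).card = B.card - 1 := by
      rw [← hcard, ← Finset.card_univ,
        ← Finset.card_filter_add_card_filter_not (s := (univ : Finset {w // w ∈ B.erase v}))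
          (fun i => f i = true)]
      congr 2
      ext i
      simp
    have hsum' : ((univ : Finset {w // w ∈ B.erase v}).filter (fun i => f i = true)).card +
        ((univ : Finset {w // w ∈ B.erase v}).filter (fun i => f i = false)).card + 1 = B.card := by
      omega
    have hsumR : (((univ : Finset {w // w ∈ B.erase v}).filter (fun i => f i = true)).card : ℝ) +
        (((univ : Finset {w // w ∈ B.erase v}).filter (fun i => f i = false)).card : ℝ) + 1
          = B.card := by
      exact_mod_cast hsum'
    have hf' : 9 * (((univ : Finset {w // w ∈ B.erase v}).filter (fun i => f i = true)).card : ℝ)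
        < 4 * B.card := by
      have := not_le.mp hf
      exact_mod_cast this
    rw [hcardR]
    linarith
  · rw [Real.exp_le_exp, hcardR, neg_le_neg_iff]
    have hp : (0 : ℝ) < (B.card : ℝ) - 1 := by linarith
    rw [le_div_iff₀ hp]
    nlinarith

theorem greedy {n : ℕ} (L : ℝ) (hL : 90 ≤ L) (s : ℕ) (B : Finset (Fin n))
    (h : (9 : ℝ) ^ s * L ≤ 4 ^ s * (B.card : ℝ)) :
    pr (fun ω : Sym2 (Fin n) → Bool => ¬ ∃ A ⊆ B, A.card = s ∧ Clq ω A) ≤ s * Real.exp (-(L / 200)) := by
  induction s generalizing B with
  | zero =>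
    rw [Nat.cast_zero, zero_mul]
    refine le_trans (pr_mono (Q := fun _ => False) ?_) (le_of_eq pr_false)
    intro ω hω
    exact hω ⟨∅, empty_subset _, card_empty, fun u hu => absurd hu (notMem_empty u)⟩
  | succ s ih =>
    have h49 : (4 : ℝ) ^ (s + 1) ≤ 9 ^ (s + 1) := pow_le_pow_left₀ (by norm_num) (by norm_num) _
    have h4 : (0 : ℝ) < 4 ^ (s + 1) := by positivity
    have hLB : L ≤ B.card := by
      have : (4 : ℝ) ^ (s + 1) * L ≤ 4 ^ (s + 1) * (B.card : ℝ) :=
        le_trans (mul_le_mul_of_nonneg_right h49 (by linarith)) h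
      exact le_of_mul_le_mul_left this h4
    have hB : 90 ≤ (B.card : ℝ) := le_trans hL hLB
    have hBpos : 0 < B.card := by
      have : (0 : ℝ) < B.card := by linarith
      exact_mod_cast this
    obtain ⟨v, hv⟩ := Finset.card_pos.mp hBpos
    have hmain := pr_mrg (fun e : Sym2 (Fin n) => decide (v ∈ e))
      (fun ω : Sym2 (Fin n) → Bool => ¬ ∃ A ⊆ B, A.card = s + 1 ∧ Clq ω A)
      (fun ω : Sym2 (Fin n) → Bool =>
        4 * B.card ≤ 9 * ((B.erase v).filter (fun w => ω s(v, w) = true)).card)
      (ε := s * Real.exp (-(L / 200))) (by positivity) (by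
        intro ω hω
        have hS : (9 : ℝ) ^ s * L ≤
            4 ^ s * (((B.erase v).filter (fun w => ω s(v, w) = true)).card : ℝ) := by
          have h1 : (4 : ℝ) * B.card ≤
              9 * (((B.erase v).filter (fun w => ω s(v, w) = true)).card : ℝ) := by
            exact_mod_cast hω
          have h2 : (0 : ℝ) < 4 ^ s := by positivity
          have h3 : (9 : ℝ) ^ (s + 1) * L ≤
              4 ^ s * (9 * (((B.erase v).filter (fun w => ω s(v, w) = true)).card : ℝ)) := by
            calc (9 : ℝ) ^ (s + 1) * L ≤ 4 ^ (s + 1) * (B.card : ℝ) := h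
              _ = 4 ^ s * (4 * (B.card : ℝ)) := by ring
              _ ≤ _ := mul_le_mul_of_nonneg_left h1 h2.le
          have h4 : (9 : ℝ) * (9 ^ s * L) ≤
              9 * (4 ^ s * (((B.erase v).filter (fun w => ω s(v, w) = true)).card : ℝ)) := by
            calc (9 : ℝ) * (9 ^ s * L) = 9 ^ (s + 1) * L := by ring
              _ ≤ _ := h3
              _ = _ := by ring
          linarith
        refine le_trans (pr_mono ?_) (ih _ hS)
        intro ω' hP hA
        obtain ⟨A, hAS, hAc, hAq⟩ := hA
        apply hP
        have hvA : v ∉ A := by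
          intro hvA
          have := mem_filter.mp (hAS hvA)
          exact (Finset.notMem_erase v B) this.1
        refine ⟨insert v A, ?_, ?_, ?_⟩
        · intro w hw
          rcases Finset.mem_insert.mp hw with rfl | hw
          · exact hv
          · exact Finset.mem_of_mem_erase (mem_filter.mp (hAS hw)).1
        · rw [Finset.card_insert_of_notMem hvA, hAc]
        · have hvw : ∀ w ∈ A, mrg (fun e : Sym2 (Fin n) => decide (v ∈ e)) ω ω' s(v, w) = true := by
            intro w hw
            have h1 : v ∈ s(v, w) := Sym2.mem_mk_left v w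
            have h2 := (mem_filter.mp (hAS hw)).2
            simp only [mrg, h1, decide_true, if_true]
            exact h2
          intro u hu w hw huw
          rcases Finset.mem_insert.mp hu with hu | hu
          · rcases Finset.mem_insert.mp hw with hw | hw
            · exact absurd (hu.trans hw.symm) huw
            · rw [hu]
              exact hvw w hw
          · rcases Finset.mem_insert.mp hw with hw | hw
            · rw [hw, Sym2.eq_swap]
              exact hvw u hu
            · have h1 : v ∉ s(u, w) := by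
                rw [Sym2.mem_iff]
                rintro (h | h)
                · exact hvA (h ▸ hu)
                · exact hvA (h ▸ hw)
              have h2 := hAq u hu w hw huw
              simp only [mrg, h1, decide_false, Bool.false_eq_true, if_false]
              exact h2)
    have hdeg := deg_pr L B v hv hB hLB
    calc _ ≤ _ := hmain
      _ ≤ Real.exp (-(L / 200)) + s * Real.exp (-(L / 200)) := by
        exact add_le_add hdeg le_rfl
      _ = _ := by push_cast; ring

end GCA
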