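import Pool.Agent.GCA.PrA

/-!
# GCA-Hoef: Hoeffding's bound for fair coins

`∑ f : I → Bool, ∏ i, exp (λ ε (f i)) = (exp λ + exp (-λ)) ^ card I` with `ε false = 1`, `ε true = -1`
(`Finset.prod_univ_sum`/`Fintype.piFinset`, or `Finset.prod_sum`, or induction); `exp λ + exp (-λ) = 2 cosh λ ≤
2 exp (λ ^ 2 / 2)` (`Real.cosh_le_exp_half_sq`).  On the event `n / 2 + d ≤ #false` (`n = card I`) one has
`∑ ε (f i) = 2 #false - n ≥ 2 d`, so `card event * exp (2 λ d) ≤ 2 ^ n * exp (n λ ^ 2 / 2)`; choose
`λ = 2 d / n`: `card event ≤ 2 ^ n exp (-(2 d ^ 2 / n))`.  (For `n = 0` the bound is `exp 0 = 1` in Lean, fine.)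
`hoef_true` is the same with `true` (bijection `f ↦ fun i => !(f i)`, or repeat the proof).
-/

open Finset

namespace GCA

theorem hoef {I : Type*} [Fintype I] [DecidableEq I] (d : ℝ) (hd : 0 ≤ d) :
    pr (fun f : I → Bool => (Fintype.card I : ℝ) / 2 + d ≤ ((univ.filter (fun i => f i = false)).card : ℝ))
      ≤ Real.exp (-(2 * d ^ 2 / Fintype.card I)) := by
  classical
  rcases Nat.eq_zero_or_pos (Fintype.card I) with hn | hn
  · rw [hn, Nat.cast_zero, div_zero, neg_zero, Real.exp_zero]
    exact pr_le_one _
  set n : ℝ := (Fintype.card I : ℝ) with hn'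
  have hn0 : 0 < n := by rw [hn']; exact_mod_cast hn
  set lam : ℝ := 2 * d / n with hlam
  have hlam0 : 0 ≤ lam := by positivity
  -- the generating function
  have hgen : ∑ f : I → Bool, ∏ i, (if f i = false then Real.exp lam else Real.exp (-lam)) =
      (2 * Real.cosh lam) ^ Fintype.card I := by
    have h1 := Finset.prod_univ_sum (fun _ : I => (univ : Finset Bool))
      (fun (_ : I) (b : Bool) => if b = false then Real.exp lam else Real.exp (-lam))
    rw [Fintype.piFinset_univ] at h1
    rw [← h1, Finset.prod_const, Finset.card_univ, Fintype.sum_bool, Real.cosh_eq]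
    congr 1
    simp only [if_true, Bool.true_eq_false, if_false]
    ring
  have hprod : ∀ f : I → Bool,
      ∏ i, (if f i = false then Real.exp lam else Real.exp (-lam)) =
        Real.exp (lam * (2 * ((univ.filter (fun i => f i = false)).card : ℝ) - n)) := by
    intro f
    have h1 : ∀ i, (if f i = false then Real.exp lam else Real.exp (-lam)) =
        Real.exp (lam * (2 * (if f i = false then 1 else 0) - 1)) := by
      intro i
      by_cases hi : f i = false
      · rw [if_pos hi, if_pos hi]
        congr 1
        ring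
      · rw [if_neg hi, if_neg hi]
        congr 1
        ring
    rw [Finset.prod_congr rfl fun i _ => h1 i, ← Real.exp_sum]
    congr 1
    rw [← Finset.mul_sum, Finset.sum_sub_distrib, ← Finset.mul_sum, Finset.sum_const,
      Finset.card_univ, nsmul_eq_mul, mul_one, Finset.sum_boole]
  set P : (I → Bool) → Prop := fun f : I → Bool =>
    n / 2 + d ≤ ((univ.filter (fun i => f i = false)).card : ℝ) with hP
  have hle : ((univ.filter P).card : ℝ) * Real.exp (lam * (2 * d)) ≤
      2 ^ Fintype.card I * Real.exp (n * (lam ^ 2 / 2)) := by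
    calc ((univ.filter P).card : ℝ) * Real.exp (lam * (2 * d))
        = ∑ f ∈ univ.filter P, Real.exp (lam * (2 * d)) := by
          rw [Finset.sum_const, nsmul_eq_mul]
      _ ≤ ∑ f ∈ univ.filter P,
          ∏ i, (if f i = false then Real.exp lam else Real.exp (-lam)) := by
          refine Finset.sum_le_sum fun f hf => ?_
          rw [hprod f]
          have h2 : n / 2 + d ≤ ((univ.filter (fun i => f i = false)).card : ℝ) :=
            (Finset.mem_filter.1 hf).2
          refine Real.exp_le_exp.2 (mul_le_mul_of_nonneg_left ?_ hlam0)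
          linarith
      _ ≤ ∑ f : I → Bool,
          ∏ i, (if f i = false then Real.exp lam else Real.exp (-lam)) := by
          refine Finset.sum_le_sum_of_subset_of_nonneg (Finset.filter_subset _ _) ?_
          intro f _ _
          refine Finset.prod_nonneg fun i _ => ?_
          split_ifs <;> exact (Real.exp_pos _).le
      _ = (2 * Real.cosh lam) ^ Fintype.card I := hgen
      _ ≤ (2 * Real.exp (lam ^ 2 / 2)) ^ Fintype.card I := by
          refine pow_le_pow_left₀ (by positivity) ?_ _
          have := Real.cosh_le_exp_half_sq lam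
          linarith
      _ = 2 ^ Fintype.card I * Real.exp (n * (lam ^ 2 / 2)) := by
          rw [mul_pow, ← Real.exp_nat_mul]
  have hfin : ((univ.filter P).card : ℝ) ≤
      2 ^ Fintype.card I * Real.exp (-(2 * d ^ 2 / n)) := by
    have h3 : Real.exp (n * (lam ^ 2 / 2)) =
        Real.exp (-(2 * d ^ 2 / n)) * Real.exp (lam * (2 * d)) := by
      rw [← Real.exp_add]
      congr 1
      rw [hlam]
      field_simp
      ring
    rw [h3] at hle
    refine le_of_mul_le_mul_right (a := Real.exp (lam * (2 * d))) ?_ (Real.exp_pos _)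
    rw [mul_assoc]
    exact hle
  have hpr : pr P = ((univ.filter P).card : ℝ) / 2 ^ Fintype.card I := by
    unfold pr
    congr!
  change pr P ≤ _
  rw [hpr, div_le_iff₀ (by positivity), mul_comm]
  exact hfin


end GCA
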