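import Pool.Agent.GCA.IftDefs

/-!
# GCA-IftA: linear algebra of the derivative

`surj`: if the range is not everything there is a nonzero linear functional `φ : (Tp Ω → ℝ) → ℝ` vanishing on the range
(`Submodule.exists_le_ker_of_lt_top`); put `c p = φ (Pi.single p 1)`, so `φ y = ∑ p, c p * y p`, and
`N u v = c (u, v)` if `u < v`, `Ω u v`; `c (v, u)` if `v < u`, `Ω u v`; `0` otherwise.  Testing with `δ = Pi.single u w`
gives `⟪w, ∑ v, N u v • X v⟫ = 0` for all `w`, so the sum is zero and `N = 0`, `φ = 0`.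
`exists_dir`: the functionals `L p δ = ⟪δ p.1, X p.2⟫ + ⟪X p.1, δ p.2⟫` (`p : Tp Ω`) and
`K δ = ⟪δ u0, X v0⟫ + ⟪X u0, δ v0⟫`.  If `K` vanished on `⨅ p, ker (L p)` then `K ∈ span (range L)`
(`mem_span_of_iInf_ker_le_ker`), `K = ∑ c p L p`; with `N` as above minus `1` at `(u0, v0)` and `(v0, u0)` (these are
not edges of `Ω` and `u0 ≠ v0`) we get a stress with `N u0 v0 = -1 ≠ 0`, contradiction.
An auxiliary lemma for both: for `N` symmetric with `N u u = 0`,
`∑_{u < v} N u v (⟪δ u, X v⟫ + ⟪X u, δ v⟫) = ∑ u, ⟪δ u, ∑ v, N u v • X v⟫`.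
-/

open scoped RealInnerProductSpace
open Finset

namespace GCA

section aux

variable {n : ℕ} {F : Type*} [NormedAddCommGroup F] [InnerProductSpace ℝ F]

open scoped Classical in
/-- the coefficients of a functional on `Tp Ω → ℝ` -/
private noncomputable def Cf (Ω : SimpleGraph (Fin n)) (φ : (Tp Ω → ℝ) →ₗ[ℝ] ℝ)
    (u v : Fin n) : ℝ :=
  if h : u < v ∧ Ω.Adj u v then φ (fun j => if (⟨(u, v), h⟩ : Tp Ω) = j then 1 else 0) else 0

open scoped Classical in
private lemma phi_apply (Ω : SimpleGraph (Fin n)) (φ : (Tp Ω → ℝ) →ₗ[ℝ] ℝ) (y : Tp Ω → ℝ)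
    (Y : Fin n → Fin n → ℝ) (hY : ∀ p : Tp Ω, y p = Y p.1.1 p.1.2) :
    φ y = ∑ u, ∑ v, Cf Ω φ u v * Y u v := by
  rw [LinearMap.pi_apply_eq_sum_univ φ y, ← Fintype.sum_prod_type']
  have h1 : ∀ p : Tp Ω, (y p • φ fun j => if p = j then 1 else 0) =
      (fun q : Fin n × Fin n => Cf Ω φ q.1 q.2 * Y q.1 q.2) p.1 := by
    intro p
    have h2 : Cf Ω φ p.1.1 p.1.2 = φ fun j => if p = j then 1 else 0 := by
      unfold Cf
      rw [dif_pos p.2]
    change _ = Cf Ω φ p.1.1 p.1.2 * Y p.1.1 p.1.2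
    rw [h2, hY p, smul_eq_mul, mul_comm]
  rw [Finset.sum_congr rfl fun p _ => h1 p,
    ← Finset.sum_subtype (Finset.univ.filter fun q : Fin n × Fin n => q.1 < q.2 ∧ Ω.Adj q.1 q.2)
      (by simp) (fun q : Fin n × Fin n => Cf Ω φ q.1 q.2 * Y q.1 q.2)]
  refine Finset.sum_filter_of_ne fun q _ hq => ?_
  by_contra hcon
  apply hq
  have h3 : Cf Ω φ q.1 q.2 = 0 := by
    unfold Cf
    rw [dif_neg hcon]
  rw [h3, zero_mul]

private lemma sum_sym (C : Fin n → Fin n → ℝ) (X δ : Fin n → F) :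
    ∑ u, ∑ v, C u v * (⟪δ u, X v⟫ + ⟪X u, δ v⟫) =
      ∑ u, ⟪δ u, ∑ v, (C u v + C v u) • X v⟫ := by
  simp only [mul_add, Finset.sum_add_distrib, inner_sum, inner_smul_right, add_mul]
  congr 1
  rw [Finset.sum_comm]
  refine Finset.sum_congr rfl fun u _ => Finset.sum_congr rfl fun v _ => ?_
  rw [real_inner_comm]

private lemma zero_of_forall (C : Fin n → Fin n → ℝ) (X : Fin n → F)
    (h : ∀ δ : Fin n → F, ∑ u, ∑ v, C u v * (⟪δ u, X v⟫ + ⟪X u, δ v⟫) = 0) (u : Fin n) :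
    ∑ v, (C u v + C v u) • X v = 0 := by
  have h1 := h fun u => ∑ v, (C u v + C v u) • X v
  rw [sum_sym] at h1
  have h2 := (Finset.sum_eq_zero_iff_of_nonneg (fun u _ => real_inner_self_nonneg)).1 h1 u
    (Finset.mem_univ u)
  exact inner_self_eq_zero.1 h2

end aux

variable {n : ℕ} {F : Type*} [NormedAddCommGroup F] [InnerProductSpace ℝ F] [FiniteDimensional ℝ F]

theorem surj (Ω : SimpleGraph (Fin n)) (X : Fin n → F) (u0 v0 : Fin n) (h : StressFree Ω X u0 v0) :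
    LinearMap.range (dF Ω X : (Fin n → F) →ₗ[ℝ] (Tp Ω → ℝ)) = ⊤ := by
  classical
  by_contra hne
  obtain ⟨φ, hφ0, hφ⟩ := Submodule.exists_le_ker_of_lt_top _ (lt_top_iff_ne_top.2 hne)
  have h1 : ∀ δ : Fin n → F,
      ∑ u, ∑ v, Cf Ω φ u v * (⟪δ u, X v⟫ + ⟪X u, δ v⟫) = 0 := by
    intro δ
    rw [← phi_apply Ω φ (dF Ω X δ) (fun u v => ⟪δ u, X v⟫ + ⟪X u, δ v⟫)
      (fun p => dF_apply Ω X δ p)]
    exact LinearMap.mem_ker.1 (hφ (LinearMap.mem_range_self _ δ))
  have h2 := h (fun u v => Cf Ω φ u v + Cf Ω φ v u) (fun u v => add_comm _ _) ?_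
    (zero_of_forall _ X h1)
  · apply hφ0
    have h3 : ∀ u v, Cf Ω φ u v = 0 := by
      intro u v
      by_cases huv : u < v
      · have h4 := h2 u v
        have h5 : Cf Ω φ v u = 0 := by
          unfold Cf
          rw [dif_neg]
          exact fun h6 => absurd h6.1 huv.asymm
        simp only [h5, add_zero] at h4
        exact h4
      · unfold Cf
        rw [dif_neg]
        exact fun h6 => huv h6.1
    apply LinearMap.ext
    intro y
    rw [LinearMap.zero_apply, LinearMap.pi_apply_eq_sum_univ φ y]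
    refine Finset.sum_eq_zero fun p _ => ?_
    have h7 := h3 p.1.1 p.1.2
    unfold Cf at h7
    rw [dif_pos p.2] at h7
    have h8 : (φ fun j => if p = j then (1 : ℝ) else 0) = 0 := h7
    rw [h8, smul_zero]
  · intro u v huv
    left
    by_contra hadj
    apply huv
    have h5 : Cf Ω φ u v = 0 := by
      unfold Cf
      rw [dif_neg]
      exact fun h6 => hadj h6.2
    have h6 : Cf Ω φ v u = 0 := by
      unfold Cf
      rw [dif_neg]
      exact fun h6 => hadj h6.2.symm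
    simp only [h5, h6, add_zero]

theorem exists_dir (Ω : SimpleGraph (Fin n)) (X : Fin n → F) (u0 v0 : Fin n) (hne : u0 ≠ v0)
    (hΩ : ¬ Ω.Adj u0 v0) (h : StressFree Ω X u0 v0) :
    ∃ δ : Fin n → F, dF Ω X δ = 0 ∧ ⟪δ u0, X v0⟫ + ⟪X u0, δ v0⟫ ≠ 0 := by
  classical
  by_contra hcon
  push Not at hcon
  let K : (Fin n → F) →ₗ[ℝ] ℝ :=
    { toFun := fun δ => ⟪δ u0, X v0⟫ + ⟪X u0, δ v0⟫
      map_add' := by
        intro δ δ'
        simp only [Pi.add_apply, inner_add_left, inner_add_right]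
        ring
      map_smul' := by
        intro c δ
        simp only [Pi.smul_apply, real_inner_smul_left, real_inner_smul_right, smul_eq_mul,
          RingHom.id_apply]
        ring }
  have hK : K ∈ (LinearMap.ker (dF Ω X : (Fin n → F) →ₗ[ℝ] (Tp Ω → ℝ))).dualAnnihilator := by
    rw [Submodule.mem_dualAnnihilator]
    intro δ hδ
    exact hcon δ (LinearMap.mem_ker.1 hδ)
  rw [← LinearMap.range_dualMap_eq_dualAnnihilator_ker] at hK
  obtain ⟨φ, hφ⟩ := hK
  have hφ' : ∀ δ, φ (dF Ω X δ) = ⟪δ u0, X v0⟫ + ⟪X u0, δ v0⟫ := by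
    intro δ
    have h1 := LinearMap.congr_fun hφ δ
    exact h1
  have h1 : ∀ δ : Fin n → F,
      ∑ u, ∑ v, (Cf Ω φ u v - if u = u0 ∧ v = v0 then 1 else 0) *
        (⟪δ u, X v⟫ + ⟪X u, δ v⟫) = 0 := by
    intro δ
    have h2 : ∑ u, ∑ v, Cf Ω φ u v * (⟪δ u, X v⟫ + ⟪X u, δ v⟫) =
        ⟪δ u0, X v0⟫ + ⟪X u0, δ v0⟫ := by
      rw [← phi_apply Ω φ (dF Ω X δ) (fun u v => ⟪δ u, X v⟫ + ⟪X u, δ v⟫)
        (fun p => dF_apply Ω X δ p)]
      exact hφ' δ
    have h3 : ∑ u, ∑ v, (if u = u0 ∧ v = v0 then (1 : ℝ) else 0) *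
        (⟪δ u, X v⟫ + ⟪X u, δ v⟫) = ⟪δ u0, X v0⟫ + ⟪X u0, δ v0⟫ := by
      rw [Finset.sum_eq_single u0, Finset.sum_eq_single v0]
      · simp
      · intro v _ hv
        rw [if_neg (fun h' => hv h'.2), zero_mul]
      · intro h'
        exact absurd (Finset.mem_univ _) h'
      · intro u _ hu
        refine Finset.sum_eq_zero fun v _ => ?_
        rw [if_neg (fun h' => hu h'.1), zero_mul]
      · intro h'
        exact absurd (Finset.mem_univ _) h'
    simp only [sub_mul, Finset.sum_sub_distrib]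
    rw [h2, h3, sub_self]
  have hCf0 : ∀ u v, ¬ Ω.Adj u v → Cf Ω φ u v = 0 := by
    intro u v huv
    unfold Cf
    rw [dif_neg]
    exact fun h6 => huv h6.2
  have h2 := h (fun u v => (Cf Ω φ u v - if u = u0 ∧ v = v0 then 1 else 0) +
    (Cf Ω φ v u - if v = u0 ∧ u = v0 then 1 else 0)) (fun u v => add_comm _ _) ?_
    (zero_of_forall _ X h1)
  · have h3 := h2 u0 v0
    simp only [hCf0 u0 v0 hΩ, hCf0 v0 u0 (fun h' => hΩ h'.symm), and_self, if_true,
      if_neg (fun h' : v0 = u0 ∧ u0 = v0 => hne h'.2)] at h3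
    norm_num at h3
  · intro u v huv
    by_contra hcc
    push Not at hcc
    obtain ⟨c1, c2, c3⟩ := hcc
    apply huv
    have e1 : (if u = u0 ∧ v = v0 then (1 : ℝ) else 0) = 0 := if_neg fun h' => c2 h'.1 h'.2
    have e2 : (if v = u0 ∧ u = v0 then (1 : ℝ) else 0) = 0 := if_neg fun h' => c3 h'.2 h'.1
    simp only [hCf0 u v c1, hCf0 v u (fun h' => c1 h'.symm), e1, e2, sub_zero, add_zero]

end GCA
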