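import Pool.Agent.GCA.Defs

/-!
# GCA-IftDefs: the map `X ↦ (⟪X u, X v⟫)` on the edges of `Ω` and its derivative
-/

open scoped RealInnerProductSpace
open Finset

namespace GCA

/-- the edges of `Ω` as increasing pairs -/
abbrev Tp {n : ℕ} (Ω : SimpleGraph (Fin n)) : Type := {p : Fin n × Fin n // p.1 < p.2 ∧ Ω.Adj p.1 p.2}

variable {n : ℕ} {F : Type*} [NormedAddCommGroup F] [InnerProductSpace ℝ F]

/-- the inner products on the edges of `Ω` -/
def inn (Ω : SimpleGraph (Fin n)) (X : Fin n → F) : Tp Ω → ℝ := fun p => ⟪X p.1.1, X p.1.2⟫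

/-- the derivative of `inn` at `X` -/
noncomputable def dF (Ω : SimpleGraph (Fin n)) (X : Fin n → F) : (Fin n → F) →L[ℝ] (Tp Ω → ℝ) :=
  ContinuousLinearMap.pi (fun p : Tp Ω =>
    (innerSL ℝ (X p.1.2)).comp (ContinuousLinearMap.proj (R := ℝ) p.1.1) +
      (innerSL ℝ (X p.1.1)).comp (ContinuousLinearMap.proj (R := ℝ) p.1.2))

theorem dF_apply (Ω : SimpleGraph (Fin n)) (X δ : Fin n → F) (p : Tp Ω) :
    dF Ω X δ p = ⟪δ p.1.1, X p.1.2⟫ + ⟪X p.1.1, δ p.1.2⟫ := by
  simp only [dF, ContinuousLinearMap.pi_apply, ContinuousLinearMap.add_apply,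
    ContinuousLinearMap.comp_apply, ContinuousLinearMap.proj_apply, innerSL_apply_apply]
  rw [real_inner_comm (X p.1.2)]

theorem dF_eq_zero_iff (Ω : SimpleGraph (Fin n)) (X δ : Fin n → F) :
    dF Ω X δ = 0 ↔ ∀ u v, Ω.Adj u v → ⟪δ u, X v⟫ + ⟪X u, δ v⟫ = 0 := by
  constructor
  · intro h u v huv
    rcases lt_trichotomy u v with h1 | h1 | h1
    · have := congrFun h ⟨(u, v), h1, huv⟩
      rwa [dF_apply] at this
    · subst h1
      exact absurd huv Ω.irrefl
    · have := congrFun h ⟨(v, u), h1, huv.symm⟩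
      rw [dF_apply] at this
      simp only [Pi.zero_apply] at this
      rw [real_inner_comm, real_inner_comm (δ v), add_comm]
      exact this
  · intro h
    funext p
    rw [dF_apply]
    exact h _ _ p.2.2

/-- stress-free, even if the pair `{u0, v0}` is added to the edges of `Ω` -/
def StressFree (Ω : SimpleGraph (Fin n)) (X : Fin n → F) (u0 v0 : Fin n) : Prop :=
  ∀ N : Fin n → Fin n → ℝ, (∀ u v, N u v = N v u) →
    (∀ u v, N u v ≠ 0 → Ω.Adj u v ∨ (u = u0 ∧ v = v0) ∨ (u = v0 ∧ v = u0)) →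
    (∀ u, ∑ v, N u v • X v = 0) → ∀ u v, N u v = 0

end GCA
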