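import Pool.Agent.GCA.PrA

/-!
# GCA-Pair: a pair of blocks is bad with probability at most `2 (1/2) ^ (52 q)`

Combine the conclusions of `beta`, `fOne`, `fTwo` (given here as hypotheses `h1`, `h2` for the types `R`, `C`).
If `f` satisfies neither the event of `h1` nor that of `h2` then it is not bad: the set `C0` of the columns `v`
with `32 q - 1 ≤ #{u | f (u, v) = false}` has less than `64 q - q = 63 q` elements (`card C0 + card (good) = 64 q`),
and if at least `32 q` rows `u` had `32 q - 1 ≤ #{v in C0 | f (u, v) = false}` then a subset `T` of exactly `32 q` of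
them (`Finset.exists_subset_card_eq`) and `S = C0` would give the event of `h2`.
So bad implies event 1 or event 2: `pr_mono` and `pr_or`.
-/

open Finset

namespace GCA

theorem pair_of (q : ℕ) (R C : Type) [Fintype R] [DecidableEq R] [Fintype C] [DecidableEq C]
    (hC : Fintype.card C = 64 * q)
    (h1 : pr (fun f : R × C → Bool => (univ.filter (fun v : C =>
      ¬ (32 * q - 1 ≤ (univ.filter (fun u : R => f (u, v) = false)).card))).card ≤ q)
      ≤ (1 / 2) ^ (52 * q))
    (h2 : pr (fun f : R × C → Bool => ∃ S : Finset C, S.card ≤ 63 * q ∧ ∃ T : Finset R, T.card = 32 * q ∧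
      ∀ u ∈ T, 32 * q - 1 ≤ (S.filter (fun v => f (u, v) = false)).card) ≤ (1 / 2) ^ (52 * q)) :
    pr (fun f : R × C → Bool => 32 * q ≤ (univ.filter (fun u : R => 32 * q - 1 ≤
      ((univ.filter (fun v : C => 32 * q - 1 ≤ (univ.filter (fun u' : R => f (u', v) = false)).card)).filter
        (fun v => f (u, v) = false)).card)).card) ≤ 2 * (1 / 2) ^ (52 * q) := by
  have key : ∀ f : R × C → Bool, (32 * q ≤ (univ.filter (fun u : R => 32 * q - 1 ≤
      ((univ.filter (fun v : C => 32 * q - 1 ≤ (univ.filter (fun u' : R => f (u', v) = false)).card)).filter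
        (fun v => f (u, v) = false)).card)).card) →
      ((univ.filter (fun v : C =>
        ¬ (32 * q - 1 ≤ (univ.filter (fun u : R => f (u, v) = false)).card))).card ≤ q) ∨
      (∃ S : Finset C, S.card ≤ 63 * q ∧ ∃ T : Finset R, T.card = 32 * q ∧
        ∀ u ∈ T, 32 * q - 1 ≤ (S.filter (fun v => f (u, v) = false)).card) := by
    intro f hf
    rcases le_or_gt (univ.filter (fun v : C =>
        ¬ (32 * q - 1 ≤ (univ.filter (fun u : R => f (u, v) = false)).card))).card q with h | h
    · exact Or.inl h
    · refine Or.inr ⟨univ.filter (fun v : C =>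
        32 * q - 1 ≤ (univ.filter (fun u' : R => f (u', v) = false)).card), ?_, ?_⟩
      · have h3 := card_filter_add_card_filter_not (s := (univ : Finset C))
          (fun v : C => 32 * q - 1 ≤ (univ.filter (fun u' : R => f (u', v) = false)).card)
        rw [card_univ, hC] at h3
        omega
      · obtain ⟨T, hT, hTc⟩ := exists_subset_card_eq hf
        exact ⟨T, hTc, fun u hu => (mem_filter.1 (hT hu)).2⟩
  refine (pr_mono key).trans ((pr_or _ _).trans ?_)
  linarith

end GCA
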