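import Pool.Agent.GCA.PrA

/-!
# GCA-RemPr: few blocks are removed

`t = 2 ^ (41 q)`.  `rem = r1 + r2` with `r1 = #{i < t | BadB}` and `r2 = #{(i, j) | i < j < t, BadP}`.  If
`t < 256 q rem` then `t / (512 q) ≤ r1` or `t / (512 q) ≤ r2`.  Two applications of `pr_markov`:
`pr (..) ≤ t (1/2)^(14 q) / (t / (512 q)) + t ^ 2 * 2 (1/2)^(52 q) / (t / (512 q))
= 512 q ((1/2)^(14 q) + 2 (1/2)^(11 q)) ≤ (1/2)^q` for `q ≥ 2` (`1536 q ≤ 2 ^ (10 q)`).
(For the second one: index set `range t ×ˢ range t`, events `p.1 < p.2 ∧ BadP ..`; if `¬ p.1 < p.2` the event is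
false, `pr_false`, otherwise `pr_mono` and `hP`.)
-/

open Finset

namespace GCA

/-- `1536 q ≤ 2 ^ (10 q)` for `q ≥ 2` -/
private theorem rem_num (q : ℕ) (hq : 2 ≤ q) : (1536 : ℝ) * q ≤ 2 ^ (10 * q) := by
  have h1 : q ≤ 2 ^ q := Nat.lt_two_pow_self.le
  have h2 : 1536 ≤ 2 ^ (9 * q) := by
    calc 1536 ≤ 2 ^ 18 := by norm_num
      _ ≤ 2 ^ (9 * q) := Nat.pow_le_pow_right (by norm_num) (by omega)
  have h3 : 1536 * q ≤ 2 ^ (10 * q) := by
    calc 1536 * q ≤ 2 ^ (9 * q) * 2 ^ q := Nat.mul_le_mul h2 h1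
      _ = 2 ^ (10 * q) := by rw [← pow_add]; congr 1; omega
  exact_mod_cast h3

theorem rem_pr {n : ℕ} (q : ℕ) (hq : 2 ≤ q) (A : ℕ → Finset (Fin n))
    (hB : ∀ i < 2 ^ (41 * q), pr (fun ω : Sym2 (Fin n) → Bool => BadB q A ω i) ≤ (1 / 2) ^ (14 * q))
    (hP : ∀ i j, i < j → j < 2 ^ (41 * q) →
      pr (fun ω : Sym2 (Fin n) → Bool => BadP q A ω i j) ≤ 2 * (1 / 2) ^ (52 * q)) :
    pr (fun ω : Sym2 (Fin n) → Bool => 2 ^ (41 * q) < 256 * q * rem q A ω) ≤ (1 / 2) ^ q := by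
  classical
  have hq0 : (0 : ℝ) < q := by exact_mod_cast (by omega : 0 < q)
  set t : ℕ := 2 ^ (41 * q) with ht
  have htR : ((t : ℕ) : ℝ) = 2 ^ (41 * q) := by rw [ht]; push_cast; rfl
  have ht0 : (0 : ℝ) < t := by rw [htR]; positivity
  set ρ : ℝ := (t : ℝ) / (512 * q) with hρ
  have hρ0 : 0 < ρ := by rw [hρ]; positivity
  have hle : ∀ ω : Sym2 (Fin n) → Bool, t < 256 * q * rem q A ω →
      (ρ ≤ (((range t).filter (fun i => BadB q A ω i)).card : ℝ)) ∨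
      (ρ ≤ ((((range t) ×ˢ (range t)).filter
        (fun p => p.1 < p.2 ∧ BadP q A ω p.1 p.2)).card : ℝ)) := by
    intro ω hω
    by_contra hcon
    rw [not_or, not_le, not_le] at hcon
    obtain ⟨h1, h2⟩ := hcon
    have h3 : ((rem q A ω : ℕ) : ℝ) < 2 * ρ := by
      unfold rem
      push_cast
      linarith
    have h4 : ((t : ℕ) : ℝ) < 256 * q * (rem q A ω : ℝ) := by exact_mod_cast hω
    have h5 : 256 * (q : ℝ) * (rem q A ω : ℝ) < 256 * q * (2 * ρ) :=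
      mul_lt_mul_of_pos_left h3 (by positivity)
    have h6 : 256 * (q : ℝ) * (2 * ρ) = t := by
      rw [hρ]; field_simp; norm_num
    linarith
  have hm1 := pr_markov (range t) (fun i (ω : Sym2 (Fin n) → Bool) => BadB q A ω i) hρ0
  have hm2 := pr_markov ((range t) ×ˢ (range t))
    (fun p (ω : Sym2 (Fin n) → Bool) => p.1 < p.2 ∧ BadP q A ω p.1 p.2) hρ0
  have hs1 : ∑ i ∈ range t, pr (fun ω : Sym2 (Fin n) → Bool => BadB q A ω i) ≤
      t * (1 / 2) ^ (14 * q) := by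
    calc ∑ i ∈ range t, pr (fun ω : Sym2 (Fin n) → Bool => BadB q A ω i)
        ≤ ∑ _i ∈ range t, ((1 : ℝ) / 2) ^ (14 * q) :=
          sum_le_sum (fun i hi => hB i (mem_range.1 hi))
      _ = t * (1 / 2) ^ (14 * q) := by rw [sum_const, card_range, nsmul_eq_mul]
  have hs2 : ∑ p ∈ (range t) ×ˢ (range t),
      pr (fun ω : Sym2 (Fin n) → Bool => p.1 < p.2 ∧ BadP q A ω p.1 p.2) ≤
      (t : ℝ) * t * (2 * (1 / 2) ^ (52 * q)) := by
    calc ∑ p ∈ (range t) ×ˢ (range t),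
          pr (fun ω : Sym2 (Fin n) → Bool => p.1 < p.2 ∧ BadP q A ω p.1 p.2)
        ≤ ∑ _p ∈ (range t) ×ˢ (range t), (2 * ((1 : ℝ) / 2) ^ (52 * q)) := by
          refine sum_le_sum (fun p hp => ?_)
          have hp2 : p.2 < t := mem_range.1 (mem_product.1 hp).2
          by_cases hlt : p.1 < p.2
          · exact (pr_mono (fun ω h => h.2)).trans (hP p.1 p.2 hlt hp2)
          · have h0 : pr (fun ω : Sym2 (Fin n) → Bool => p.1 < p.2 ∧ BadP q A ω p.1 p.2) ≤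
                pr (fun _ : Sym2 (Fin n) → Bool => False) := pr_mono (fun ω h => hlt h.1)
            rw [pr_false] at h0
            exact h0.trans (by positivity)
      _ = (t : ℝ) * t * (2 * (1 / 2) ^ (52 * q)) := by
          rw [sum_const, card_product, card_range, nsmul_eq_mul]; push_cast; ring
  have hmain : pr (fun ω : Sym2 (Fin n) → Bool => t < 256 * q * rem q A ω) ≤
      (t * (1 / 2) ^ (14 * q)) / ρ + ((t : ℝ) * t * (2 * (1 / 2) ^ (52 * q))) / ρ := by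
    refine (pr_mono hle).trans ((pr_or _ _).trans (add_le_add ?_ ?_))
    · refine le_trans ?_ (hm1.trans (div_le_div_of_nonneg_right hs1 hρ0.le))
      exact pr_mono (fun ω h => by simpa using h)
    · refine le_trans ?_ (hm2.trans (div_le_div_of_nonneg_right hs2 hρ0.le))
      refine pr_mono (fun ω h => h.trans_eq ?_)
      exact congrArg (fun s : Finset (ℕ × ℕ) => ((s.card : ℕ) : ℝ))
        (by ext p; simp only [mem_filter])
  refine hmain.trans ?_
  set x : ℝ := (1 / 2) ^ q with hx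
  have hx0 : 0 < x := by rw [hx]; positivity
  have hx1 : x ≤ 1 := by rw [hx]; exact pow_le_one₀ (by norm_num) (by norm_num)
  have e14 : ((1 : ℝ) / 2) ^ (14 * q) = x ^ 14 := by rw [hx, ← pow_mul, mul_comm]
  have e52 : ((1 : ℝ) / 2) ^ (52 * q) = x ^ 52 := by rw [hx, ← pow_mul, mul_comm]
  have etx : (t : ℝ) * x ^ 41 = 1 := by
    rw [htR, hx, ← pow_mul, mul_comm q 41, ← mul_pow]; norm_num
  have h10 : 1536 * (q : ℝ) * x ^ 10 ≤ 1 := by
    have h := rem_num q hq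
    have hx10 : (2 : ℝ) ^ (10 * q) * x ^ 10 = 1 := by
      rw [hx, ← pow_mul, mul_comm q 10, ← mul_pow]; norm_num
    calc 1536 * (q : ℝ) * x ^ 10 ≤ 2 ^ (10 * q) * x ^ 10 :=
          mul_le_mul_of_nonneg_right h (by positivity)
      _ = 1 := hx10
  rw [e14, e52]
  have ev1 : ((t : ℝ) * x ^ 14) / ρ = 512 * q * x ^ 14 := by
    rw [hρ]; field_simp
  have ev2 : ((t : ℝ) * t * (2 * x ^ 52)) / ρ = 512 * q * (2 * x ^ 11) := by
    have h11 : (t : ℝ) * x ^ 52 = x ^ 11 := by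
      calc (t : ℝ) * x ^ 52 = (t * x ^ 41) * x ^ 11 := by ring
        _ = x ^ 11 := by rw [etx, one_mul]
    calc ((t : ℝ) * t * (2 * x ^ 52)) / ρ = 512 * q * (2 * (t * x ^ 52)) := by
          rw [hρ]; field_simp
      _ = 512 * q * (2 * x ^ 11) := by rw [h11]
  rw [ev1, ev2]
  have h14 : x ^ 14 ≤ x ^ 11 := pow_le_pow_of_le_one hx0.le hx1 (by norm_num)
  calc 512 * (q : ℝ) * x ^ 14 + 512 * q * (2 * x ^ 11)
      ≤ 512 * q * x ^ 11 + 512 * q * (2 * x ^ 11) := by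
        have := mul_le_mul_of_nonneg_left h14 (by positivity : (0 : ℝ) ≤ 512 * q)
        linarith
    _ = (1536 * q * x ^ 10) * x := by ring
    _ ≤ 1 * x := mul_le_mul_of_nonneg_right h10 hx0.le
    _ = x := one_mul x

end GCA
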