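import Pool.Agent.GCA.PrA

/-!
# GCA-SelPr: all groups contain cliques

`hg` is the conclusion of `greedy`.  For `k < 2 * 2 ^ (41 q)` the group `grp n q k` has exactly `2 ^ (38 q)` elements
(`q ≥ 1`, `n ≥ 2 ^ (80 q) ≥ (k + 1) 2 ^ (38 q)`; bijection with `Ico (k 2^(38q)) ((k+1) 2^(38q))`).  With
`L = (7/5) ^ q`: `9 ^ (32 q) (7/5) ^ q ≤ 4 ^ (32 q) 2 ^ (38 q) = 2 ^ (102 q)` because `9 ^ 32 * (7/5) ≤ 2 ^ 102`
(`norm_num`).  If every group has a clique of size `32 q`, choose them: `Sel q ω A` (`choose` / `Classical.choose`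
with default `∅`).  Hence `pr (¬ ∃ A, Sel) ≤ ∑_{k < 2^(41q+1)} 32 q exp (-((7/5)^q / 200)) ≤ (1/2) ^ q` for large `q`
(`pr_mono`, `pr_exists` with `s = range (2 * 2 ^ (41 q))`).
-/

open Finset

namespace GCA

private lemma selPr_card {n q k : ℕ} (hq : 1 ≤ q) (hn : 2 ^ (80 * q) ≤ n)
    (hk : k < 2 * 2 ^ (41 * q)) : 2 ^ (38 * q) ≤ (grp n q k).card := by
  have hM : 0 < 2 ^ (38 * q) := by positivity
  have h1 : (k + 1) * 2 ^ (38 * q) ≤ n := by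
    calc (k + 1) * 2 ^ (38 * q) ≤ (2 * 2 ^ (41 * q)) * 2 ^ (38 * q) :=
          Nat.mul_le_mul_right _ hk
      _ = 2 ^ (1 + 41 * q + 38 * q) := by rw [pow_add, pow_add, pow_one]
      _ ≤ 2 ^ (80 * q) := Nat.pow_le_pow_right (by norm_num) (by omega)
      _ ≤ n := hn
  have h2 : ∀ r : Fin (2 ^ (38 * q)), k * 2 ^ (38 * q) + r.1 < n := by
    intro r
    have := r.2
    have h3 : (k + 1) * 2 ^ (38 * q) = k * 2 ^ (38 * q) + 2 ^ (38 * q) := by ring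
    omega
  have h4 : (univ : Finset (Fin (2 ^ (38 * q)))).card ≤ (grp n q k).card := by
    refine card_le_card_of_injOn (fun r => ⟨k * 2 ^ (38 * q) + r.1, h2 r⟩) ?_ ?_
    · intro r _
      rw [grp, mem_coe, mem_filter]
      refine ⟨mem_univ _, ?_⟩
      show (k * 2 ^ (38 * q) + r.1) / 2 ^ (38 * q) = k
      rw [add_comm, Nat.add_mul_div_right _ _ hM, Nat.div_eq_of_lt r.2, zero_add]
    · intro r _ r' _ h
      have h5 := congrArg Fin.val h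
      simp only at h5
      exact Fin.ext (by omega)
  rwa [card_univ, Fintype.card_fin] at h4

private lemma selPr_num : (9 : ℝ) ^ 32 * (7 / 5) ≤ 4 ^ 32 * 2 ^ 38 := by norm_num

private lemma selPr_pow (q : ℕ) :
    (9 : ℝ) ^ (32 * q) * (7 / 5) ^ q ≤ 4 ^ (32 * q) * 2 ^ (38 * q) := by
  rw [pow_mul, pow_mul, pow_mul, ← mul_pow, ← mul_pow]
  exact pow_le_pow_left₀ (by norm_num) selPr_num q

private lemma selPr_asym : ∃ q0 : ℕ, ∀ q ≥ q0, 1 ≤ q ∧ (10000 : ℝ) * q ≤ (7 / 5) ^ q := by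
  have h1 := tendsto_pow_const_div_const_pow_of_one_lt 1 (r := (7 / 5 : ℝ)) (by norm_num)
  have h2 := h1.eventually (gt_mem_nhds (show (0 : ℝ) < 1 / 10000 by norm_num))
  obtain ⟨q0, hq0⟩ := Filter.eventually_atTop.1 h2
  refine ⟨max q0 1, fun q hq => ⟨le_trans (le_max_right _ _) hq, ?_⟩⟩
  have h3 := hq0 q (le_trans (le_max_left _ _) hq)
  have h4 : (0 : ℝ) < (7 / 5) ^ q := by positivity
  rw [pow_one, div_lt_iff₀ h4] at h3
  linarith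

private lemma selPr_final {q : ℕ} (hq : 1 ≤ q) (h : (10000 : ℝ) * q ≤ (7 / 5) ^ q) :
    (2 * 2 ^ (41 * q) : ℝ) * ((32 * q : ℝ) * Real.exp (-((7 / 5) ^ q / 200))) ≤ (1 / 2) ^ q := by
  have h1 : Real.exp (-((7 / 5) ^ q / 200)) ≤ (1 / 2) ^ (50 * q) := by
    have h2 : -((7 / 5 : ℝ) ^ q / 200) ≤ -((50 * q : ℕ) : ℝ) := by
      push_cast
      linarith
    refine (Real.exp_le_exp.2 h2).trans ?_
    rw [Real.exp_neg, one_div, inv_pow]
    apply inv_anti₀ (by positivity)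
    have h3 : Real.exp ((50 * q : ℕ) : ℝ) = Real.exp 1 ^ (50 * q) := by
      rw [← Real.exp_nat_mul, mul_one]
    rw [h3]
    refine pow_le_pow_left₀ (by norm_num) ?_ _
    have := Real.add_one_le_exp (1 : ℝ)
    linarith
  have h4 : (64 * q : ℝ) ≤ 2 ^ (8 * q) := by
    have h5 : q < 2 ^ q := Nat.lt_two_pow_self
    have h6 : 64 * q ≤ 2 ^ (8 * q) := by
      have h7 : 2 ^ (8 * q) = 2 ^ (7 * q) * 2 ^ q := by rw [← pow_add]; congr 1; ring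
      have h8 : 2 ^ 6 ≤ 2 ^ (7 * q) := Nat.pow_le_pow_right (by norm_num) (by omega)
      rw [h7]
      exact Nat.mul_le_mul (by simpa using h8) h5.le
    exact_mod_cast h6
  have h9 : (2 * 2 ^ (41 * q) : ℝ) * ((32 * q : ℝ) * Real.exp (-((7 / 5) ^ q / 200))) ≤
      (2 * 2 ^ (41 * q) : ℝ) * ((32 * q : ℝ) * (1 / 2) ^ (50 * q)) := by
    gcongr
  refine h9.trans ?_
  have e1 : (2 * 2 ^ (41 * q) : ℝ) * ((32 * q : ℝ) * (1 / 2) ^ (50 * q)) =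
      (64 * q) * (2 ^ (41 * q) * (1 / 2) ^ (50 * q)) := by ring
  have e2 : (2 : ℝ) ^ (41 * q) * (1 / 2) ^ (50 * q) = (1 / 2) ^ (9 * q) := by
    have : 50 * q = 41 * q + 9 * q := by ring
    rw [this, pow_add, ← mul_assoc, ← mul_pow]
    norm_num
  rw [e1, e2]
  have e3 : (1 / 2 : ℝ) ^ (9 * q) = (1 / 2) ^ (8 * q) * (1 / 2) ^ q := by
    rw [← pow_add]; congr 1; ring
  rw [e3, ← mul_assoc]
  have e4 : (64 * q : ℝ) * (1 / 2) ^ (8 * q) ≤ 1 := by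
    calc (64 * q : ℝ) * (1 / 2) ^ (8 * q) ≤ 2 ^ (8 * q) * (1 / 2) ^ (8 * q) := by gcongr
      _ = 1 := by rw [← mul_pow]; norm_num
  calc (64 * q : ℝ) * (1 / 2) ^ (8 * q) * (1 / 2) ^ q ≤ 1 * (1 / 2) ^ q := by gcongr
    _ = (1 / 2) ^ q := one_mul _

theorem sel_pr (hg : ∀ (n : ℕ) (L : ℝ), 90 ≤ L → ∀ (s : ℕ) (B : Finset (Fin n)),
      (9 : ℝ) ^ s * L ≤ 4 ^ s * (B.card : ℝ) →
      pr (fun ω : Sym2 (Fin n) → Bool => ¬ ∃ A ⊆ B, A.card = s ∧ Clq ω A) ≤ s * Real.exp (-(L / 200))) :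
    ∃ q0 : ℕ, ∀ q ≥ q0, ∀ n : ℕ, Par n q →
      pr (fun ω : Sym2 (Fin n) → Bool => ¬ ∃ A, Sel q ω A) ≤ (1 / 2) ^ q := by
  obtain ⟨q0, hq0⟩ := selPr_asym
  refine ⟨q0, fun q hq n hn => ?_⟩
  obtain ⟨hq1, hL⟩ := hq0 q hq
  have hq1R : (1 : ℝ) ≤ q := by exact_mod_cast hq1
  have hL90 : (90 : ℝ) ≤ (7 / 5) ^ q := by linarith
  have h1 : pr (fun ω : Sym2 (Fin n) → Bool => ¬ ∃ A, Sel q ω A) ≤
      pr (fun ω : Sym2 (Fin n) → Bool => ∃ k ∈ range (2 * 2 ^ (41 * q)),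
        ¬ ∃ A ⊆ grp n q k, A.card = 32 * q ∧ Clq ω A) := by
    refine pr_mono fun ω hω => ?_
    by_contra hcon
    push Not at hcon
    apply hω
    have h2 : ∀ k : ℕ, ∃ A : Finset (Fin n), k < 2 * 2 ^ (41 * q) →
        A ⊆ grp n q k ∧ A.card = 32 * q ∧ Clq ω A := by
      intro k
      by_cases hk : k < 2 * 2 ^ (41 * q)
      · obtain ⟨A, hA1, hA2, hA3⟩ := hcon k (mem_range.2 hk)
        exact ⟨A, fun _ => ⟨hA1, hA2, hA3⟩⟩
      · exact ⟨∅, fun h => absurd h hk⟩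
    choose A hA using h2
    exact ⟨A, fun k hk => hA k hk⟩
  refine h1.trans ((pr_exists _ _).trans ?_)
  have h3 : ∀ k ∈ range (2 * 2 ^ (41 * q)),
      pr (fun ω : Sym2 (Fin n) → Bool => ¬ ∃ A ⊆ grp n q k, A.card = 32 * q ∧ Clq ω A) ≤
        (32 * q : ℝ) * Real.exp (-((7 / 5) ^ q / 200)) := by
    intro k hk
    have h4 := hg n ((7 / 5) ^ q) hL90 (32 * q) (grp n q k) (by
      refine (selPr_pow q).trans ?_
      have h5 : ((2 ^ (38 * q) : ℕ) : ℝ) ≤ ((grp n q k).card : ℝ) := by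
        exact_mod_cast selPr_card hq1 hn.1 (mem_range.1 hk)
      push_cast at h5
      exact mul_le_mul_of_nonneg_left h5 (by positivity))
    push_cast at h4
    exact h4
  refine (sum_le_sum h3).trans ?_
  rw [sum_const, card_range, nsmul_eq_mul]
  have h5 := selPr_final hq1 hL
  push_cast
  exact h5

end GCA
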