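import Pool.Agent.GCA.PrA
import Pool.Agent.GCA.PrB

/-!
# GCA-SlB: empty rectangles of large perimeter

`card R = card C = a = 32 q`.  If `S`, `T` are nonempty with `a - 1 ≤ |S| + |T|` and `f = false` on `S × T`, then
shrinking them one gets nonempty `S'`, `T'` with `|S'| = s`, `|T'| = a - 1 - s` for some `1 ≤ s ≤ a - 2` (here
`q ≥ 1`).  Union bound: `∑_s (a choose s) (a choose (a-1-s)) 2^(-s (a-1-s))` (for fixed `S'`, `T'` the probability is
`2^(-|S'| |T'|)`: `pr_inj` for `S' × T' → R × C` and the only good `f` is constant `false`).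
With `m = min (s, a-1-s) ≥ 1`, `max ≥ (a-1)/2`, and `(a choose s) (a choose (a-1-s)) ≤ a^m * a^(m+1)`
(`Nat.choose_le_pow`, `choose a (a-1-s) = choose a (s+1)`): each term is
`≤ a * (a^2 / 2^((a-1)/2))^m ≤ a^3 2^(-(a-1)/2)` when `a^2 ≤ 2^((a-1)/2)`.  The sum is
`≤ a^4 2^(-(a-1)/2) = (32 q)^4 2^(-(16 q - 1/2)) ≤ (1/2)^(14 q)` for large `q`.
-/

open Finset

namespace GCA

private theorem slB_rect {R C : Type} [Fintype R] [DecidableEq R] [Fintype C] [DecidableEq C]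
    (S : Finset R) (T : Finset C) :
    pr (fun f : R × C → Bool => ∀ u ∈ S, ∀ v ∈ T, f (u, v) = false) = (1 / 2) ^ (S.card * T.card) := by
  have h := pr_inj (E := R × C) (I := S × T) (fun p => ((p.1 : R), (p.2 : C)))
    (by
      rintro ⟨⟨a, ha⟩, ⟨b, hb⟩⟩ ⟨⟨c, hc⟩, ⟨d, hd⟩⟩ h
      simp only [Prod.mk.injEq] at h
      obtain ⟨h1, h2⟩ := h
      subst h1; subst h2; rfl)
    (fun g => ∀ p, g p = false)
  have h2 : pr (fun g : S × T → Bool => ∀ p, g p = false) = (1 / 2) ^ (S.card * T.card) := by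
    unfold pr
    have h3 : univ.filter (fun g : S × T → Bool => ∀ p, g p = false) = {fun _ => false} := by
      ext g
      simp only [mem_filter, mem_univ, true_and, mem_singleton, funext_iff]
    have h4 : Fintype.card (S × T) = S.card * T.card := by
      rw [Fintype.card_prod, Fintype.card_coe, Fintype.card_coe]
    rw [h4]
    have h5 : (univ.filter (fun g : S × T → Bool => ∀ p, g p = false)).card = 1 := by
      rw [h3, card_singleton]
    have h6 : ((univ.filter (fun g : S × T → Bool => ∀ p, g p = false)).card : ℝ) = 1 := by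
      exact_mod_cast h5
    rw [one_div, inv_pow, ← one_div]
    congr 1
    convert h6
  rw [← h2, ← h]
  have h7 : (fun f : R × C → Bool => ∀ u ∈ S, ∀ v ∈ T, f (u, v) = false) =
      (fun f : R × C → Bool => ∀ p : S × T, f ((p.1 : R), (p.2 : C)) = false) := by
    funext f
    apply propext
    constructor
    · intro hf p
      exact hf _ p.1.2 _ p.2.2
    · intro hf u hu v hv
      exact hf (⟨u, hu⟩, ⟨v, hv⟩)
  rw [h7]

private theorem slB_term {a s t q : ℕ} (ha : a = 32 * q) (hst : s + t + 1 = a) (hs : 1 ≤ s)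
    (hle : s ≤ t) (hq : a ^ 2 ≤ 2 ^ (16 * q)) :
    a.choose s * a.choose t * 2 ^ (16 * q) ≤ a ^ 3 * 2 ^ (s * t) := by
  have h1 : a.choose s ≤ a ^ s := Nat.choose_le_pow a s
  have h2 : a.choose t = a.choose (s + 1) := by
    have : s + 1 ≤ a := by omega
    rw [← Nat.choose_symm this]
    congr 1
    omega
  have h3 : a.choose t ≤ a ^ (s + 1) := by
    rw [h2]; exact Nat.choose_le_pow a (s + 1)
  have ht : 16 * q ≤ t := by omega
  obtain ⟨r, rfl⟩ : ∃ r, s = r + 1 := ⟨s - 1, by omega⟩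
  have h4 : 2 ^ ((r + 1) * t) = 2 ^ t * (2 ^ t) ^ r := by
    rw [← pow_mul, ← pow_add]
    congr 1
    ring
  have h5 : 2 ^ (16 * q) ≤ 2 ^ t := Nat.pow_le_pow_right (by norm_num) ht
  have h6 : (a ^ 2) ^ r ≤ (2 ^ t) ^ r := Nat.pow_le_pow_left (hq.trans h5) r
  calc a.choose (r + 1) * a.choose t * 2 ^ (16 * q)
      ≤ a ^ (r + 1) * a ^ (r + 1 + 1) * 2 ^ t := by
        exact Nat.mul_le_mul (Nat.mul_le_mul h1 h3) h5
    _ = a ^ 3 * (2 ^ t * (a ^ 2) ^ r) := by ring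
    _ ≤ a ^ 3 * (2 ^ t * (2 ^ t) ^ r) := by
        exact Nat.mul_le_mul_left _ (Nat.mul_le_mul_left _ h6)
    _ = a ^ 3 * 2 ^ ((r + 1) * t) := by rw [h4]

private theorem slB_large : ∃ q0 : ℕ, 1 ≤ q0 ∧ ∀ q ≥ q0, (32 * q) ^ 4 ≤ 2 ^ (2 * q) := by
  have h := tendsto_pow_const_div_const_pow_of_one_lt 4 (r := (4 : ℝ)) (by norm_num)
  have h2 : ∀ᶠ q : ℕ in Filter.atTop, ((q : ℝ) ^ 4 / 4 ^ q) < 1 / 32 ^ 4 :=
    h.eventually (gt_mem_nhds (by norm_num))
  obtain ⟨q0, hq0⟩ := Filter.eventually_atTop.mp h2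
  refine ⟨max q0 1, le_max_right _ _, fun q hq => ?_⟩
  have h3 := hq0 q (le_trans (le_max_left _ _) hq)
  rw [div_lt_div_iff₀ (by positivity) (by positivity)] at h3
  have h4 : ((32 * q : ℕ) : ℝ) ^ 4 ≤ 2 ^ (2 * q) := by
    push_cast
    rw [pow_mul, mul_pow, show (2 : ℝ) ^ 2 = 4 by norm_num]
    linarith [h3, mul_comm ((q : ℝ) ^ 4) (32 ^ 4)]
  exact_mod_cast h4

theorem slB : ∃ q0 : ℕ, ∀ q ≥ q0, ∀ (R C : Type) [Fintype R] [DecidableEq R] [Fintype C] [DecidableEq C],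
    Fintype.card R = 32 * q → Fintype.card C = 32 * q →
    pr (fun f : R × C → Bool => ∃ S : Finset R, ∃ T : Finset C, S.Nonempty ∧ T.Nonempty ∧
      32 * q - 1 ≤ S.card + T.card ∧ ∀ u ∈ S, ∀ v ∈ T, f (u, v) = false) ≤ (1 / 2) ^ (14 * q) := by
  obtain ⟨q0, hq01, hq0⟩ := slB_large
  refine ⟨q0, fun q hq R C _ _ _ _ hR hC => ?_⟩
  have hq1 : 1 ≤ q := hq01.trans hq
  have hL := hq0 q hq
  set a : ℕ := 32 * q with ha
  have ha1 : 1 ≤ a := by omega
  have hsq : a ^ 2 ≤ 2 ^ (16 * q) := by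
    calc a ^ 2 ≤ a ^ 4 := Nat.pow_le_pow_right ha1 (by norm_num)
      _ ≤ 2 ^ (2 * q) := hL
      _ ≤ 2 ^ (16 * q) := Nat.pow_le_pow_right (by norm_num) (by omega)
  have hterm : ∀ s ∈ Icc 1 (a - 2),
      ((a.choose s * a.choose (a - 1 - s) : ℕ) : ℝ) * (1 / 2) ^ (s * (a - 1 - s)) ≤
        (a : ℝ) ^ 3 * (1 / 2) ^ (16 * q) := by
    intro s hs
    rw [mem_Icc] at hs
    have hN : a.choose s * a.choose (a - 1 - s) * 2 ^ (16 * q) ≤ a ^ 3 * 2 ^ (s * (a - 1 - s)) := by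
      rcases le_total s (a - 1 - s) with h | h
      · exact slB_term ha (by omega) hs.1 h hsq
      · have := slB_term (s := a - 1 - s) (t := s) ha (by omega) (by omega) h hsq
        rw [mul_comm (a.choose s), mul_comm s]
        exact this
    have hN' : ((a.choose s * a.choose (a - 1 - s) : ℕ) : ℝ) * 2 ^ (16 * q) ≤
        (a : ℝ) ^ 3 * 2 ^ (s * (a - 1 - s)) := by exact_mod_cast hN
    have h1 : (1 / 2 : ℝ) ^ (s * (a - 1 - s)) * 2 ^ (s * (a - 1 - s)) = 1 := by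
      rw [← mul_pow]; norm_num
    have h2 : (1 / 2 : ℝ) ^ (16 * q) * 2 ^ (16 * q) = 1 := by
      rw [← mul_pow]; norm_num
    calc ((a.choose s * a.choose (a - 1 - s) : ℕ) : ℝ) * (1 / 2) ^ (s * (a - 1 - s))
        = (((a.choose s * a.choose (a - 1 - s) : ℕ) : ℝ) * 2 ^ (16 * q)) *
          ((1 / 2) ^ (s * (a - 1 - s)) * (1 / 2) ^ (16 * q)) := by
          rw [mul_comm ((1 / 2 : ℝ) ^ (s * (a - 1 - s))), ← mul_assoc, mul_assoc _ ((2 : ℝ) ^ (16 * q)),
            mul_comm ((2 : ℝ) ^ (16 * q)), h2, mul_one]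
      _ ≤ ((a : ℝ) ^ 3 * 2 ^ (s * (a - 1 - s))) *
          ((1 / 2) ^ (s * (a - 1 - s)) * (1 / 2) ^ (16 * q)) := by
          apply mul_le_mul_of_nonneg_right hN' (by positivity)
      _ = (a : ℝ) ^ 3 * (1 / 2) ^ (16 * q) := by
          rw [← mul_assoc, mul_assoc ((a : ℝ) ^ 3), mul_comm ((2 : ℝ) ^ (s * (a - 1 - s))), h1, mul_one]
  calc pr (fun f : R × C → Bool => ∃ S : Finset R, ∃ T : Finset C, S.Nonempty ∧ T.Nonempty ∧
      a - 1 ≤ S.card + T.card ∧ ∀ u ∈ S, ∀ v ∈ T, f (u, v) = false)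
      ≤ pr (fun f : R × C → Bool => ∃ s ∈ Icc 1 (a - 2),
          ∃ p ∈ (powersetCard s (univ : Finset R)) ×ˢ (powersetCard (a - 1 - s) (univ : Finset C)),
            ∀ u ∈ p.1, ∀ v ∈ p.2, f (u, v) = false) := by
        apply pr_mono
        rintro f ⟨S, T, hS, hT, hST, hf⟩
        have hSc : S.card ≤ a := by rw [← hR]; exact card_le_univ S
        have hTc : T.card ≤ a := by rw [← hC]; exact card_le_univ T
        have hS1 : 1 ≤ S.card := hS.card_pos
        have hT1 : 1 ≤ T.card := hT.card_pos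
        obtain ⟨T', hT', hT'c⟩ := exists_subset_card_eq (s := T) (n := min T.card (a - 2)) (min_le_left _ _)
        obtain ⟨S', hS', hS'c⟩ := exists_subset_card_eq (s := S) (n := a - 1 - min T.card (a - 2))
          (by omega)
        refine ⟨a - 1 - min T.card (a - 2), ?_, (S', T'), ?_, ?_⟩
        · rw [mem_Icc]; omega
        · rw [mem_product, mem_powersetCard, mem_powersetCard]
          refine ⟨⟨subset_univ _, hS'c⟩, subset_univ _, ?_⟩
          dsimp only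
          rw [hT'c]
          omega
        · intro u hu v hv
          exact hf u (hS' hu) v (hT' hv)
    _ ≤ ∑ s ∈ Icc 1 (a - 2), pr (fun f : R × C → Bool =>
          ∃ p ∈ (powersetCard s (univ : Finset R)) ×ˢ (powersetCard (a - 1 - s) (univ : Finset C)),
            ∀ u ∈ p.1, ∀ v ∈ p.2, f (u, v) = false) := pr_exists _ _
    _ ≤ ∑ s ∈ Icc 1 (a - 2),
          ∑ p ∈ (powersetCard s (univ : Finset R)) ×ˢ (powersetCard (a - 1 - s) (univ : Finset C)),
            pr (fun f : R × C → Bool => ∀ u ∈ p.1, ∀ v ∈ p.2, f (u, v) = false) :=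
        sum_le_sum fun s _ => pr_exists _ _
    _ = ∑ s ∈ Icc 1 (a - 2),
          ((a.choose s * a.choose (a - 1 - s) : ℕ) : ℝ) * (1 / 2) ^ (s * (a - 1 - s)) := by
        apply sum_congr rfl
        intro s _
        have h1 : ∀ p ∈ (powersetCard s (univ : Finset R)) ×ˢ
            (powersetCard (a - 1 - s) (univ : Finset C)),
            pr (fun f : R × C → Bool => ∀ u ∈ p.1, ∀ v ∈ p.2, f (u, v) = false) =
              (1 / 2) ^ (s * (a - 1 - s)) := by
          rintro ⟨S, T⟩ hp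
          rw [mem_product, mem_powersetCard, mem_powersetCard] at hp
          obtain ⟨⟨_, h1⟩, _, h2⟩ := hp
          dsimp only at h1 h2 ⊢
          rw [slB_rect, h1, h2]
        rw [sum_congr rfl h1, sum_const, card_product, card_powersetCard, card_powersetCard, card_univ,
          card_univ, hR, hC, nsmul_eq_mul]
    _ ≤ ∑ s ∈ Icc 1 (a - 2), (a : ℝ) ^ 3 * (1 / 2) ^ (16 * q) := sum_le_sum hterm
    _ = ((a - 2 : ℕ) : ℝ) * ((a : ℝ) ^ 3 * (1 / 2) ^ (16 * q)) := by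
        rw [sum_const, Nat.card_Icc, nsmul_eq_mul]
        congr 2
    _ ≤ (a : ℝ) * ((a : ℝ) ^ 3 * (1 / 2) ^ (16 * q)) := by
        apply mul_le_mul_of_nonneg_right _ (by positivity)
        exact_mod_cast Nat.sub_le a 2
    _ = (a : ℝ) ^ 4 * (1 / 2) ^ (16 * q) := by ring
    _ ≤ 2 ^ (2 * q) * (1 / 2) ^ (16 * q) := by
        apply mul_le_mul_of_nonneg_right _ (by positivity)
        exact_mod_cast hL
    _ = (1 / 2) ^ (14 * q) := by
        have : (1 / 2 : ℝ) ^ (16 * q) = (1 / 2) ^ (2 * q) * (1 / 2) ^ (14 * q) := by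
          rw [← pow_add]; congr 1; ring
        rw [this, ← mul_assoc, ← mul_pow]
        norm_num

end GCA
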