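import Pool.Agent.GCA.PrA

/-!
# GCA-Transfer: from random bits to the proportion of graphs

`(Sym2 (Fin n) → Bool) → SimpleGraph (Fin n)`, `ω ↦ gr ω`, has all fibres of the same size `2 ^ n` (the bits at the `n`
diagonal elements `s(v, v)` are free): an equivalence `(Sym2 (Fin n) → Bool) ≃ SimpleGraph (Fin n) × (Fin n → Bool)`,
`ω ↦ (gr ω, fun v => ω s(v, v))`, inverse `(G, f) ↦` (`Sym2.lift` of `fun u v => if u = v then f u else decide (G.Adj u v)`).
So `card {ω | P (gr ω)} = card {G | P G} * 2 ^ n` and `2 ^ card (Sym2 (Fin n)) = card (SimpleGraph (Fin n)) * 2 ^ n`.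
-/

open Finset

namespace GCA

/-- the bits of a graph together with free bits on the diagonal -/
private noncomputable def enc {n : ℕ} (G : SimpleGraph (Fin n)) (f : Fin n → Bool) : Sym2 (Fin n) → Bool :=
  open Classical in
  Sym2.lift ⟨fun u v => if u = v then f u else decide (G.Adj u v), fun u v => by
    by_cases h : u = v
    · subst h; rfl
    · simp only [if_neg h, if_neg (Ne.symm h)]
      simp [G.adj_comm]⟩

private theorem enc_mk {n : ℕ} (G : SimpleGraph (Fin n)) (f : Fin n → Bool) (u v : Fin n) :
    enc G f s(u, v) = (open Classical in if u = v then f u else decide (G.Adj u v)) := rfl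

private noncomputable def eqv (n : ℕ) :
    (Sym2 (Fin n) → Bool) ≃ SimpleGraph (Fin n) × (Fin n → Bool) where
  toFun ω := (gr ω, fun v => ω s(v, v))
  invFun x := enc x.1 x.2
  left_inv ω := by
    funext e
    induction e using Sym2.ind with
    | _ u v =>
      change enc (gr ω) (fun v => ω s(v, v)) s(u, v) = ω s(u, v)
      rw [enc_mk]
      by_cases h : u = v
      · subst h
        simp
      · rw [if_neg h]
        have h1 : (gr ω).Adj u v ↔ ω s(u, v) = true := ⟨fun h' => h'.2, fun h' => ⟨h, h'⟩⟩
        by_cases h2 : ω s(u, v) = true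
        · simp [h1, h2]
        · simp [h1, h2]
  right_inv x := by
    obtain ⟨G, f⟩ := x
    refine Prod.ext ?_ ?_
    · ext u v
      change (u ≠ v ∧ enc G f s(u, v) = true) ↔ G.Adj u v
      rw [enc_mk]
      constructor
      · rintro ⟨h, h1⟩
        rw [if_neg h] at h1
        simpa using h1
      · intro h
        refine ⟨h.ne, ?_⟩
        rw [if_neg h.ne]
        simpa using h
    · funext v
      change enc G f s(v, v) = f v
      rw [enc_mk, if_pos rfl]

open Classical in
theorem transfer {n : ℕ} (P : SimpleGraph (Fin n) → Prop) :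
    pr (fun ω : Sym2 (Fin n) → Bool => P (gr ω)) =
      (Fintype.card {G : SimpleGraph (Fin n) // P G} : ℝ) / (Fintype.card (SimpleGraph (Fin n)) : ℝ) := by
  have h1 : (univ.filter (fun ω : Sym2 (Fin n) → Bool => P (gr ω))).card =
      Fintype.card {G : SimpleGraph (Fin n) // P G} * 2 ^ n := by
    have h2 : (univ.filter (fun ω : Sym2 (Fin n) → Bool => P (gr ω))).card =
        ((univ.filter (fun G : SimpleGraph (Fin n) => P G)) ×ˢ (univ : Finset (Fin n → Bool))).card := by
      refine card_bij (fun ω _ => eqv n ω) ?_ ?_ ?_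
      · intro ω hω
        exact mem_product.2 ⟨mem_filter.2 ⟨mem_univ _, (mem_filter.1 hω).2⟩, mem_univ _⟩
      · intro a _ b _ h
        exact (eqv n).injective h
      · intro x hx
        refine ⟨(eqv n).symm x, ?_, (eqv n).apply_symm_apply x⟩
        have h3 := (mem_filter.1 (mem_product.1 hx).1).2
        refine mem_filter.2 ⟨mem_univ _, ?_⟩
        have h4 : gr ((eqv n).symm x) = x.1 := congrArg Prod.fst ((eqv n).apply_symm_apply x)
        rw [h4]
        exact h3
    rw [h2, card_product, Fintype.card_subtype]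
    congr 1
    rw [card_univ, Fintype.card_fun, Fintype.card_bool, Fintype.card_fin]
  have h5 : 2 ^ Fintype.card (Sym2 (Fin n)) = Fintype.card (SimpleGraph (Fin n)) * 2 ^ n := by
    have h6 := Fintype.card_congr (eqv n)
    rw [Fintype.card_fun, Fintype.card_bool, Fintype.card_prod, Fintype.card_fun, Fintype.card_bool,
      Fintype.card_fin] at h6
    exact h6
  unfold pr
  have h7 : (univ.filter (fun ω : Sym2 (Fin n) → Bool => P (gr ω))).card =
      (@Finset.filter _ (fun ω : Sym2 (Fin n) → Bool => P (gr ω)) (fun ω => Classical.propDecidable _) univ).card := by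
    congr
  rw [← h7, h1]
  have h8 : (2 : ℝ) ^ Fintype.card (Sym2 (Fin n)) = (Fintype.card (SimpleGraph (Fin n)) : ℝ) * 2 ^ n := by
    exact_mod_cast h5
  rw [h8]
  push_cast
  rw [mul_div_mul_right _ _ (by positivity)]

end GCA
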