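import Pool.Agent.GCA.Beta
import Pool.Agent.GCA.FOne
import Pool.Agent.GCA.FTwo
import Pool.Agent.GCA.SlB
import Pool.Agent.GCA.Pair
import Pool.Agent.GCA.BadPB
import Pool.Agent.GCA.RemPr
import Pool.Agent.GCA.DegPr
import Pool.Agent.GCA.BadLPr
import Pool.Agent.GCA.Greedy
import Pool.Agent.GCA.SelPr
import Pool.Agent.GCA.Cond
import Pool.Agent.GCA.DetB
import Pool.Agent.GCA.Transfer

/-!
# GCA-Main: assembly
-/

open Finset Filter Topology

namespace GCA

/-- few blocks are removed, all estimates combined -/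
theorem rem_main : ∃ q0 : ℕ, ∀ q ≥ q0, ∀ n : ℕ, ∀ (ω : Sym2 (Fin n) → Bool) (A : ℕ → Finset (Fin n)),
    Sel q ω A → pr (fun ω' : Sym2 (Fin n) → Bool => 2 ^ (41 * q) < 256 * q * rem q A ω') ≤ (1 / 2) ^ q := by
  obtain ⟨q1, h1⟩ := beta
  obtain ⟨q2, h2⟩ := fTwo
  obtain ⟨q3, h3⟩ := slB
  refine ⟨max (max q1 q2) (max q3 2), fun q hq n ω A hA => ?_⟩
  have hq1 : q ≥ q1 := le_trans (le_trans (le_max_left _ _) (le_max_left _ _)) hq
  have hq2 : q ≥ q2 := le_trans (le_trans (le_max_right _ _) (le_max_left _ _)) hq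
  have hq3 : q ≥ q3 := le_trans (le_trans (le_max_left _ _) (le_max_right _ _)) hq
  have hq4 : 2 ≤ q := le_trans (le_trans (le_max_right _ _) (le_max_right _ _)) hq
  refine rem_pr q hq4 A ?_ ?_
  · intro i hi
    have hd := two_card q ω A hA i hi
    refine badB_pr q A i hd.1 (h3 q hq3 _ _ ?_ ?_)
    · rw [Fintype.card_coe]; exact (hA (2 * i) (by omega)).2.1
    · rw [Fintype.card_coe]; exact (hA (2 * i + 1) (by omega)).2.1
  · intro i j hij hj
    have hi : i < 2 ^ (41 * q) := lt_trans hij hj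
    have hRc : Fintype.card ↥(two A i) = 64 * q := by rw [Fintype.card_coe]; exact (two_card q ω A hA i hi).2
    have hCc : Fintype.card ↥(two A j) = 64 * q := by rw [Fintype.card_coe]; exact (two_card q ω A hA j hj).2
    refine badP_pr q A i j (two_disjoint q ω A hA i j hi hj hij.ne) ?_
    exact pair_of q _ _ hCc (fOne q _ _ hCc (h1 q hq1 _ hRc)) (h2 q hq2 _ _ hRc hCc)

/-- the main estimate -/
theorem main_pr : ∃ q0 : ℕ, ∀ q ≥ q0, ∀ n : ℕ, Par n q →
    pr (fun ω : Sym2 (Fin n) → Bool => ¬ ∃ d, MrGC.PR (gr ω)ᶜ d ∧ 2 * (d : ℝ) + √(n : ℝ) ≤ n)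
      ≤ (1 / 2) ^ (n / 5) + 3 * (1 / 2) ^ q := by
  obtain ⟨q1, h1⟩ := rem_main
  obtain ⟨q2, h2⟩ := deg_pr
  obtain ⟨q3, h3⟩ := sel_pr (fun n L hL s B h => greedy L hL s B h)
  obtain ⟨q4, h4⟩ := det
  refine ⟨max (max q1 q2) (max q3 q4), fun q hq n hn => ?_⟩
  have hq1 : q ≥ q1 := le_trans (le_trans (le_max_left _ _) (le_max_left _ _)) hq
  have hq2 : q ≥ q2 := le_trans (le_trans (le_max_right _ _) (le_max_left _ _)) hq
  have hq3 : q ≥ q3 := le_trans (le_trans (le_max_left _ _) (le_max_right _ _)) hq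
  have hq4 : q ≥ q4 := le_trans (le_trans (le_max_right _ _) (le_max_right _ _)) hq
  exact cond q _ (fun ω A => h4 q hq4 n hn ω A) (badL_pr n) (h3 q hq3 n hn) (fun X => h2 q hq2 n hn X)
    (fun ω A hA => h1 q hq1 n ω A hA)

open Classical in
/-- the proportion of graphs with a small positive semidefinite matrix tends to one -/
theorem final : Tendsto (fun n : ℕ =>
    (Fintype.card {G : SimpleGraph (Fin n) // ∃ d, MrGC.PR Gᶜ d ∧ 2 * (d : ℝ) + √(n : ℝ) ≤ n} : ℝ) /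
      (Fintype.card (SimpleGraph (Fin n)) : ℝ)) atTop (𝓝 1) := by
  obtain ⟨q0, h0⟩ := main_pr
  have key : ∀ᶠ n : ℕ in atTop, (1 : ℝ) - ((1 / 2) ^ (n / 5) + 3 * (1 / 2) ^ (Nat.log (2 ^ 80) n)) ≤
      (Fintype.card {G : SimpleGraph (Fin n) // ∃ d, MrGC.PR Gᶜ d ∧ 2 * (d : ℝ) + √(n : ℝ) ≤ n} : ℝ) /
      (Fintype.card (SimpleGraph (Fin n)) : ℝ) := by
    filter_upwards [eventually_ge_atTop ((2 ^ 80) ^ q0), eventually_ge_atTop 1] with n hn hn1
    set q := Nat.log (2 ^ 80) n with hq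
    have hqq : q0 ≤ q := (Nat.le_log_iff_pow_le (by norm_num) (by omega)).2 hn
    have hpar : Par n q := by
      constructor
      · have := Nat.pow_log_le_self (2 ^ 80) (show n ≠ 0 by omega)
        rwa [← pow_mul] at this
      · have := Nat.lt_pow_succ_log_self (show 1 < 2 ^ 80 by norm_num) n
        rwa [← pow_mul] at this
    have h1 := h0 q hqq n hpar
    rw [pr_not, transfer (fun G => ∃ d, MrGC.PR Gᶜ d ∧ 2 * (d : ℝ) + √(n : ℝ) ≤ n)] at h1
    linarith
  have hlim : Tendsto (fun n : ℕ => (1 : ℝ) - ((1 / 2) ^ (n / 5) + 3 * (1 / 2) ^ (Nat.log (2 ^ 80) n)))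
      atTop (𝓝 1) := by
    have h1 : Tendsto (fun n : ℕ => n / 5) atTop atTop := Nat.tendsto_div_const_atTop (by norm_num)
    have h2 : Tendsto (fun n : ℕ => Nat.log (2 ^ 80) n) atTop atTop := by
      refine tendsto_atTop.2 (fun b => ?_)
      filter_upwards [eventually_ge_atTop ((2 ^ 80) ^ b), eventually_ge_atTop 1] with n hn hn1
      exact (Nat.le_log_iff_pow_le (by norm_num) (by omega)).2 hn
    have h3 : Tendsto (fun k : ℕ => ((1 : ℝ) / 2) ^ k) atTop (𝓝 0) :=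
      tendsto_pow_atTop_nhds_zero_of_lt_one (by norm_num) (by norm_num)
    have h4 := ((h3.comp h1).add ((h3.comp h2).const_mul 3)).const_sub 1
    simpa using h4
  refine tendsto_of_tendsto_of_tendsto_of_le_of_le' hlim tendsto_const_nhds key ?_
  filter_upwards with n
  refine div_le_one_of_le₀ ?_ (by positivity)
  exact_mod_cast Fintype.card_subtype_le _

end GCA
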