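import Pool.Agent.GCA.Defs

/-!
# GCA-Peel: two step peeling kills stresses

Let `d = finrank E`, `d' = finrank E'`.  `C0 = {v ∈ Q | d ≤ #{u ∈ P | Ω u v}}`.
1. `v ∈ Q`, `v ∉ C0`: the set `{u ∈ P | N u v ≠ 0}` is contained in `{u ∈ P | Ω.Adj u v} ∪ {u0}`, it has at most `d`
   elements, so the vectors `x u` on it are independent (`GP`), and `∑ u ∈ P, N u v • x u = 0` gives `N u v = 0` for all
   `u ∈ P` (`LinearIndepOn`, e.g. `linearIndepOn_finset_iff`; restrict the sum to the support with `Finset.sum_subset`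
   / `Finset.sum_filter_of_ne`).
2. `u ∈ P` with `#{v ∈ C0 | Ω u v} < d'`: the set `{v ∈ Q | N u v ≠ 0}` is contained in `{v ∈ C0 | Ω u v} ∪ {v0}` by
   step 1, it has at most `d'` elements, so the whole row is zero.
3. `v ∈ C0`: `{u ∈ P | N u v ≠ 0}` is contained in the set `R0` of the definition of `PeelCond`, `R0.card ≤ d`: zero.
A useful auxiliary lemma: if `GP P x`, `c : V → ℝ`, `∑ u ∈ P, c u • x u = 0` and `{u ∈ P | c u ≠ 0}` has at most
`finrank` elements then `c u = 0` for all `u ∈ P`.
-/

open Finset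

namespace GCA

/-- a relation with few terms between vectors in general position is trivial -/
theorem gp_zero {V E : Type*} [Fintype V] [DecidableEq V] [NormedAddCommGroup E] [InnerProductSpace ℝ E]
    {P : Finset V} {x : V → E} (h : MrGC.GP P x) (c : V → ℝ) (hc : ∑ u ∈ P, c u • x u = 0)
    (T : Finset V) (hT : T.card ≤ Module.finrank ℝ E) (hcT : ∀ u ∈ P, c u ≠ 0 → u ∈ T) :
    ∀ u ∈ P, c u = 0 := by
  classical
  have hS : (P ∩ T) ⊆ P := Finset.inter_subset_left
  have hcard : (P ∩ T).card ≤ Module.finrank ℝ E :=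
    (Finset.card_le_card Finset.inter_subset_right).trans hT
  have hind := h _ hS hcard
  have hsum : ∑ u ∈ P ∩ T, c u • x u = 0 := by
    rw [← hc]
    apply Finset.sum_subset hS
    intro u hu huT
    by_contra hne
    apply huT
    rw [Finset.mem_inter]
    refine ⟨hu, hcT u hu ?_⟩
    intro h0
    exact hne (by rw [h0, zero_smul])
  have hz := (linearIndepOn_finset_iff.mp hind) c hsum
  intro u hu
  by_contra hne
  exact hne (hz u (Finset.mem_inter.mpr ⟨hu, hcT u hu hne⟩))

theorem noStress_of_peel {V E E' : Type*} [Fintype V] [DecidableEq V] [NormedAddCommGroup E]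
    [InnerProductSpace ℝ E] [NormedAddCommGroup E'] [InnerProductSpace ℝ E'] (Ω : SimpleGraph V)
    (P Q : Finset V) (x : V → E) (x' : V → E') (h : MrGC.GP P x) (h' : MrGC.GP Q x')
    (hp : PeelCond Ω P Q (Module.finrank ℝ E) (Module.finrank ℝ E')) : NoStress Ω P Q x x' := by
  classical
  intro u0 v0 N hN hrow hcol
  unfold PeelCond at hp
  set C0 : Finset V := Q.filter (fun v => Module.finrank ℝ E ≤ (P.filter (fun u' => Ω.Adj u' v)).card)
    with hC0
  set R0 : Finset V := P.filter (fun u => Module.finrank ℝ E' ≤ (C0.filter (fun v => Ω.Adj u v)).card)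
    with hR0
  have hR0c : R0.card ≤ Module.finrank ℝ E := by
    refine le_trans (le_of_eq ?_) hp
    congr 1
  -- step 1
  have s1 : ∀ v ∈ Q, v ∉ C0 → ∀ u ∈ P, N u v = 0 := by
    intro v hv hvC
    have hlt : (P.filter (fun u' => Ω.Adj u' v)).card < Module.finrank ℝ E := by
      by_contra hge
      apply hvC
      rw [hC0, Finset.mem_filter]
      exact ⟨hv, not_lt.mp hge⟩
    apply gp_zero h (fun u => N u v) (hcol v hv) (insert u0 (P.filter (fun u' => Ω.Adj u' v)))
    · exact (Finset.card_insert_le _ _).trans hlt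
    · intro u hu hne
      rcases hN u hu v hv hne with h1 | ⟨h1, _⟩
      · exact Finset.mem_insert_of_mem (Finset.mem_filter.mpr ⟨hu, h1⟩)
      · rw [h1]; exact Finset.mem_insert_self _ _
  -- step 2
  have s2 : ∀ u ∈ P, u ∉ R0 → ∀ v ∈ Q, N u v = 0 := by
    intro u hu huR
    have hlt : (C0.filter (fun v => Ω.Adj u v)).card < Module.finrank ℝ E' := by
      by_contra hge
      apply huR
      rw [hR0, Finset.mem_filter]
      exact ⟨hu, not_lt.mp hge⟩
    apply gp_zero h' (fun v => N u v) (hrow u hu) (insert v0 (C0.filter (fun v => Ω.Adj u v)))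
    · exact (Finset.card_insert_le _ _).trans hlt
    · intro v hv hne
      have hvC : v ∈ C0 := by
        by_contra hvC
        exact hne (s1 v hv hvC u hu)
      rcases hN u hu v hv hne with h1 | ⟨_, h1⟩
      · exact Finset.mem_insert_of_mem (Finset.mem_filter.mpr ⟨hvC, h1⟩)
      · rw [h1]; exact Finset.mem_insert_self _ _
  -- step 3
  intro u hu v hv
  apply gp_zero h (fun u => N u v) (hcol v hv) R0 hR0c
  · intro u' hu' hne
    by_contra huR
    exact hne (s2 u' hu' huR v hv)
  · exact hu

end GCA
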