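import Pool.Agent.GCA.Defs

/-!
# GCA-PrA: elementary properties of `pr`

Plan: `pr P = card (filter P) / 2 ^ card E` and `card (E → Bool) = 2 ^ card E`.  `pr_mono`: filter_subset_filter style
(`card_le_card` with the classical decidability instances).  `pr_or`: `card_union_le` and `filter_or`.
`pr_exists`: induction on the finset `s` with `pr_or` (or `card_biUnion_le`).  `pr_not`: `filter_not`,
`card_sdiff`/`card_filter_add_card_filter_not`.  `pr_false`.  `pr_markov`: double counting,
`ρ * card {ω | ρ ≤ card (s.filter (P · ω))} ≤ ∑ ω, card (s.filter (P · ω)) = ∑ i in s, card {ω | P i ω}`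
(`Finset.sum_card_bipartiteAbove_eq_sum_card_bipartiteBelow` or `sum_comm` after `card_filter`).
-/

open Finset

namespace GCA

variable {E : Type*} [Fintype E] [DecidableEq E]

private theorem prA_card : (Fintype.card (E → Bool) : ℝ) = 2 ^ Fintype.card E := by
  rw [Fintype.card_fun, Fintype.card_bool]
  push_cast
  rfl

omit [DecidableEq E] in
private theorem prA_pos : (0 : ℝ) < 2 ^ Fintype.card E := by positivity

theorem pr_nonneg (P : (E → Bool) → Prop) : 0 ≤ pr P := by
  unfold pr
  positivity

theorem pr_le_one (P : (E → Bool) → Prop) : pr P ≤ 1 := by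
  classical
  unfold pr
  rw [div_le_one prA_pos, ← prA_card]
  exact_mod_cast card_le_univ _

theorem pr_mono {P Q : (E → Bool) → Prop} (h : ∀ ω, P ω → Q ω) : pr P ≤ pr Q := by
  classical
  unfold pr
  refine div_le_div_of_nonneg_right ?_ prA_pos.le
  have h1 : (univ.filter P).card ≤ (univ.filter Q).card := by
    apply card_le_card
    intro ω hω
    rw [mem_filter] at hω ⊢
    exact ⟨hω.1, h ω hω.2⟩
  exact_mod_cast h1

theorem pr_or (P Q : (E → Bool) → Prop) : pr (fun ω => P ω ∨ Q ω) ≤ pr P + pr Q := by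
  classical
  unfold pr
  rw [← add_div]
  refine div_le_div_of_nonneg_right ?_ prA_pos.le
  have h1 : (univ.filter (fun ω : E → Bool => P ω ∨ Q ω)).card ≤
      (univ.filter P).card + (univ.filter Q).card := by
    rw [filter_or]
    exact card_union_le _ _
  have h2 : ((univ.filter (fun ω : E → Bool => P ω ∨ Q ω)).card : ℝ) ≤
      ((univ.filter P).card : ℝ) + ((univ.filter Q).card : ℝ) := by exact_mod_cast h1
  refine le_trans (le_of_eq ?_) h2
  congr!

theorem pr_false : pr (fun _ : E → Bool => False) = 0 := by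
  classical
  unfold pr
  simp

theorem pr_exists {ι : Type*} (s : Finset ι) (P : ι → (E → Bool) → Prop) :
    pr (fun ω => ∃ i ∈ s, P i ω) ≤ ∑ i ∈ s, pr (P i) := by
  classical
  induction s using Finset.induction_on with
  | empty =>
    rw [sum_empty, ← pr_false (E := E)]
    apply pr_mono
    rintro ω ⟨i, hi, _⟩
    exact absurd hi (notMem_empty i)
  | insert i s hi ih =>
    rw [sum_insert hi]
    refine le_trans ?_ (add_le_add le_rfl ih)
    refine le_trans ?_ (pr_or _ _)
    apply pr_mono
    rintro ω ⟨j, hj, hP⟩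
    rw [mem_insert] at hj
    rcases hj with rfl | hj
    · exact Or.inl hP
    · exact Or.inr ⟨j, hj, hP⟩

theorem pr_not (P : (E → Bool) → Prop) : pr (fun ω => ¬ P ω) = 1 - pr P := by
  classical
  unfold pr
  have h1 : (univ.filter P).card + (univ.filter (fun ω : E → Bool => ¬ P ω)).card =
      Fintype.card (E → Bool) := by
    rw [card_filter_add_card_filter_not, card_univ]
  have h2 : ((univ.filter P).card : ℝ) + ((univ.filter (fun ω : E → Bool => ¬ P ω)).card : ℝ) =
      2 ^ Fintype.card E := by
    rw [← prA_card, ← h1]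
    push_cast
    rfl
  rw [eq_sub_iff_add_eq, ← add_div, add_comm, div_eq_one_iff_eq prA_pos.ne']
  convert h2

open Classical in
theorem pr_markov {ι : Type*} (s : Finset ι) (P : ι → (E → Bool) → Prop) {ρ : ℝ} (hρ : 0 < ρ) :
    pr (fun ω => ρ ≤ ((s.filter (fun i => P i ω)).card : ℝ)) ≤ (∑ i ∈ s, pr (P i)) / ρ := by
  have h1 : ∑ i ∈ s, ((univ.filter (P i)).card : ℝ) =
      ∑ ω : E → Bool, ((s.filter (fun i => P i ω)).card : ℝ) := by
    have h2 : ∀ i ∈ s, ((univ.filter (P i)).card : ℝ) = ∑ ω : E → Bool, if P i ω then 1 else 0 := by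
      intro i _
      rw [card_filter]
      push_cast
      rfl
    have h3 : ∀ ω : E → Bool, ((s.filter (fun i => P i ω)).card : ℝ) =
        ∑ i ∈ s, if P i ω then 1 else 0 := by
      intro ω
      rw [card_filter]
      push_cast
      rfl
    rw [sum_congr rfl h2, sum_comm]
    exact sum_congr rfl fun ω _ => (h3 ω).symm
  have h4 : ρ * ((univ.filter
      (fun ω : E → Bool => ρ ≤ ((s.filter (fun i => P i ω)).card : ℝ))).card : ℝ) ≤
      ∑ ω : E → Bool, ((s.filter (fun i => P i ω)).card : ℝ) := by
    calc ρ * ((univ.filter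
        (fun ω : E → Bool => ρ ≤ ((s.filter (fun i => P i ω)).card : ℝ))).card : ℝ)
        = ∑ _ω ∈ univ.filter
          (fun ω : E → Bool => ρ ≤ ((s.filter (fun i => P i ω)).card : ℝ)), ρ := by
          rw [sum_const, nsmul_eq_mul, mul_comm]
      _ ≤ ∑ ω ∈ univ.filter
          (fun ω : E → Bool => ρ ≤ ((s.filter (fun i => P i ω)).card : ℝ)),
            ((s.filter (fun i => P i ω)).card : ℝ) :=
          sum_le_sum fun ω hω => (mem_filter.1 hω).2
      _ ≤ _ := sum_le_sum_of_subset_of_nonneg (filter_subset _ _) fun ω _ _ => by positivity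
  unfold pr
  rw [← sum_div, h1, div_right_comm]
  refine div_le_div_of_nonneg_right ?_ prA_pos.le
  rw [le_div_iff₀ hρ, mul_comm]
  convert h4

end GCA
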