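import Pool.Agent.GCA.Defs

/-!
# GCA-Tot: the direct sum of the block representations

`tot_same`, `tot_ne`: `⟪tot u, tot v⟫ = ∑ i, ⟪Pi.single (β u) (x (β u) u) i, Pi.single (β v) (x (β v) v) i⟫`
(`PiLp.inner_apply`, `Finset.sum_eq_single`, `Pi.single_apply` with dependent types: use `Pi.single_eq_same`,
`Pi.single_eq_of_ne`; for `tot_same` generalise `β v = i` and `subst`).
`tot_comp`: component `i` of `∑ v, c v • tot β d x v` is `∑ v ∈ blk β i, c v • x i v` (`Finset.sum_filter`; for
`β v = i` `subst`).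
`tot_stress`: component `β u` of the relation at `u` and `hg`, `hin`: `gp_zero` (given as hypothesis `hz`) kills `N` inside
a block (`N u v ≠ 0` and `β u = β v` implies `Ω.Adj u v`, because `β u0 ≠ β v0`; so the support is contained in
`(blk β (β u)).filter (Ω.Adj u)`, at most `d (β u)` elements; `finrank (EuclideanSpace ℝ (Fin m)) = m`).  Between the
blocks `i ≠ j`: `hcr` applied to `N` restricted: the relations of `NoStress Ω (blk β i) (blk β j) (x i) (x j)` are
component `j` at `u ∈ blk β i` and component `i` at `v ∈ blk β j` (use the symmetry of `N`); for the extra pair take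
`(u0, v0)` if `β u0 = i` and `(v0, u0)` otherwise.
-/

open scoped RealInnerProductSpace
open Finset

namespace GCA

private theorem tot_aux {V ι : Type*} [Fintype ι] [DecidableEq ι] (d : ι → ℕ)
    (x : ∀ i, V → EuclideanSpace ℝ (Fin (d i))) (u v : V) (i j : ι) :
    ⟪(WithLp.toLp 2 (Pi.single i (x i u)) : PiLp 2 (fun i => EuclideanSpace ℝ (Fin (d i)))),
      (WithLp.toLp 2 (Pi.single j (x j v)) : PiLp 2 (fun i => EuclideanSpace ℝ (Fin (d i))))⟫ =
      if i = j then ⟪x i u, x i v⟫ else 0 := by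
  rw [PiLp.inner_apply]
  rw [Finset.sum_eq_single i]
  · by_cases h : i = j
    · subst h
      simp
    · rw [if_neg h]
      simp only [Pi.single_eq_same]
      rw [Pi.single_eq_of_ne h, inner_zero_right]
  · intro k _ hk
    simp only
    rw [Pi.single_eq_of_ne hk, inner_zero_left]
  · intro h
    exact absurd (Finset.mem_univ i) h

private theorem tot_aux2 {V ι : Type*} [DecidableEq ι] (d : ι → ℕ)
    (x : ∀ i, V → EuclideanSpace ℝ (Fin (d i))) (v : V) (i j : ι) :
    (Pi.single j (x j v) : ∀ i, EuclideanSpace ℝ (Fin (d i))) i = if j = i then x i v else 0 := by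
  by_cases h : j = i
  · subst h
    simp
  · rw [if_neg h, Pi.single_eq_of_ne (Ne.symm h)]

theorem tot_same {V ι : Type*} [Fintype ι] [DecidableEq ι] (β : V → ι) (d : ι → ℕ)
    (x : ∀ i, V → EuclideanSpace ℝ (Fin (d i))) (u v : V) (h : β u = β v) :
    ⟪tot β d x u, tot β d x v⟫ = ⟪x (β u) u, x (β u) v⟫ := by
  unfold tot
  rw [tot_aux, if_pos h]

theorem tot_ne {V ι : Type*} [Fintype ι] [DecidableEq ι] (β : V → ι) (d : ι → ℕ)
    (x : ∀ i, V → EuclideanSpace ℝ (Fin (d i))) (u v : V) (h : β u ≠ β v) :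
    ⟪tot β d x u, tot β d x v⟫ = 0 := by
  unfold tot
  rw [tot_aux, if_neg h]

theorem tot_comp {V ι : Type*} [Fintype V] [Fintype ι] [DecidableEq ι] (β : V → ι) (d : ι → ℕ)
    (x : ∀ i, V → EuclideanSpace ℝ (Fin (d i))) (c : V → ℝ) (hc : ∑ v, c v • tot β d x v = 0) (i : ι) :
    ∑ v ∈ blk β i, c v • x i v = 0 := by
  have h1 := congrArg (PiLp.proj (𝕜 := ℝ) 2 (fun i => EuclideanSpace ℝ (Fin (d i))) i) hc
  rw [map_sum, map_zero] at h1
  unfold blk
  rw [Finset.sum_filter]
  refine Eq.trans ?_ h1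
  refine Finset.sum_congr rfl fun v _ => ?_
  rw [map_smul]
  have h2 : (PiLp.proj (𝕜 := ℝ) 2 (fun i => EuclideanSpace ℝ (Fin (d i))) i) (tot β d x v) =
      if β v = i then x i v else 0 := tot_aux2 d x v i (β v)
  rw [h2, smul_ite, smul_zero]

end GCA
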