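import Pool.Agent.GCA.Tot
import Pool.Agent.GCA.Peel

/-!
# GCA-TotStress: the direct sum has no stress, even if a pair between two blocks is added

Plan: see the header of `Tot.lean`.  Component `i` of the relation at `u`: `tot_comp`.
1. `β u = β v`: `N u v ≠ 0` implies `Ω.Adj u v` (because `β u0 ≠ β v0`), so the support of `N u ·` in the block `β u` is
   contained in `(blk β (β u)).filter (Ω.Adj u)` with at most `d (β u)` elements (`hin`);
   `finrank ℝ (EuclideanSpace ℝ (Fin m)) = m` (`finrank_euclideanSpace_fin`); `gp_zero`.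
2. `i = β u ≠ j = β v`: use `hcr i j`; in the first case apply it to `N`, in the second to `N` with the roles of `i`, `j`
   exchanged (symmetry of `N`); the extra pair is `(u0, v0)` if `β u0` is the first block and `(v0, u0)` otherwise
   (if neither holds, any).
-/

open Finset

namespace GCA

private theorem totStress_aux {V ι : Type*} [Fintype V] [Fintype ι] [DecidableEq ι]
    (Ω : SimpleGraph V) (β : V → ι) (d : ι → ℕ) (x : ∀ i, V → EuclideanSpace ℝ (Fin (d i)))
    (u0 v0 : V) (N : V → V → ℝ) (hsym : ∀ u v, N u v = N v u)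
    (hN : ∀ u v, N u v ≠ 0 → Ω.Adj u v ∨ (u = u0 ∧ v = v0) ∨ (u = v0 ∧ v = u0))
    (hsum : ∀ u, ∑ v, N u v • tot β d x v = 0) (i j : ι) (hij : i ≠ j)
    (h : NoStress Ω (blk β i) (blk β j) (x i) (x j)) :
    ∀ u ∈ blk β i, ∀ v ∈ blk β j, N u v = 0 := by
  have hm : ∀ k w, w ∈ blk β k ↔ β w = k := fun k w => by simp [blk]
  have h1 : ∀ a ∈ blk β i, ∑ v ∈ blk β j, N a v • x j v = 0 := fun a _ =>
    tot_comp β d x (N a) (hsum a) j
  have h2 : ∀ b ∈ blk β j, ∑ u ∈ blk β i, N u b • x i u = 0 := by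
    intro b _
    have := tot_comp β d x (N b) (hsum b) i
    rw [← this]
    exact Finset.sum_congr rfl fun u _ => by rw [hsym u b]
  by_cases hu0 : β u0 = i
  · refine h u0 v0 N (fun a ha b hb hab => ?_) h1 h2
    rcases hN a b hab with h3 | h3 | ⟨h3, h4⟩
    · exact Or.inl h3
    · exact Or.inr h3
    · exfalso
      rw [hm] at hb
      rw [h4, hu0] at hb
      exact hij hb
  · refine h v0 u0 N (fun a ha b hb hab => ?_) h1 h2
    rcases hN a b hab with h3 | ⟨h3, h4⟩ | h3
    · exact Or.inl h3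
    · exfalso
      rw [hm, h3] at ha
      exact hu0 ha
    · exact Or.inr h3

theorem tot_stress {V ι : Type*} [Fintype V] [DecidableEq V] [Fintype ι] [DecidableEq ι] (Ω : SimpleGraph V)
    (β : V → ι) (d : ι → ℕ) (x : ∀ i, V → EuclideanSpace ℝ (Fin (d i)))
    (hg : ∀ i, MrGC.GP (blk β i) (x i))
    (hin : ∀ v, (MrGC.nb Ω (blk β (β v)) v).card ≤ d (β v))
    (hcr : ∀ i j, i ≠ j → NoStress Ω (blk β i) (blk β j) (x i) (x j) ∨
      NoStress Ω (blk β j) (blk β i) (x j) (x i))
    (u0 v0 : V) (hne : β u0 ≠ β v0) (N : V → V → ℝ) (hsym : ∀ u v, N u v = N v u)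
    (hN : ∀ u v, N u v ≠ 0 → Ω.Adj u v ∨ (u = u0 ∧ v = v0) ∨ (u = v0 ∧ v = u0))
    (hsum : ∀ u, ∑ v, N u v • tot β d x v = 0) : ∀ u v, N u v = 0 := by
  intro u v
  have hm : ∀ k w, w ∈ blk β k ↔ β w = k := fun k w => by simp [blk]
  by_cases huv : β u = β v
  · refine gp_zero (hg (β u)) (N u) (tot_comp β d x (N u) (hsum u) (β u))
      (MrGC.nb Ω (blk β (β u)) u) ?_ ?_ v ((hm _ _).2 huv.symm)
    · rw [finrank_euclideanSpace_fin]
      exact hin u
    · intro w hw hNw
      rw [MrGC.mem_nb]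
      refine ⟨hw, ?_⟩
      rw [hm] at hw
      rcases hN u w hNw with h3 | ⟨h3, h4⟩ | ⟨h3, h4⟩
      · exact h3
      · rw [h3, h4] at hw
        exact absurd hw.symm hne
      · rw [h3, h4] at hw
        exact absurd hw hne
  · rcases hcr (β u) (β v) huv with h | h
    · exact totStress_aux Ω β d x u0 v0 N hsym hN hsum (β u) (β v) huv h u ((hm _ _).2 rfl) v
        ((hm _ _).2 rfl)
    · rw [hsym]
      exact totStress_aux Ω β d x u0 v0 N hsym hN hsum (β v) (β u) (Ne.symm huv) h v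
        ((hm _ _).2 rfl) u ((hm _ _).2 rfl)

end GCA
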